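import Pool.Agent.Lib.LLL94

/-!
Chernoff bound in finite product spaces.
-/

set_option autoImplicit false

namespace Pool.Agent.LLL94

open Finset

variable {V : Type*} [Fintype V] [DecidableEq V] {Ω : V → Type*} [∀ v, Fintype (Ω v)]
  [∀ v, Nonempty (Ω v)]

omit [∀ v, Nonempty (Ω v)] in
lemma Pr_or_le (A B : (∀ v, Ω v) → Prop) : Pr (fun ω => A ω ∨ B ω) ≤ Pr A + Pr B := by
  classical
  rw [Pr_def, Pr_def, Pr_def, ← Ex_add]
  apply Ex_mono
  intro ω
  by_cases h1 : A ω <;> by_cases h2 : B ω <;> simp [h1, h2]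

lemma Pr_le_one (A : (∀ v, Ω v) → Prop) : Pr A ≤ 1 := by
  classical
  rw [Pr_def]
  refine le_trans (Ex_mono (g := fun _ => 1) ?_) (Ex_const 1).le
  intro ω
  split_ifs <;> norm_num

lemma Pr_coord (p : V) (f : Ω p → Prop) [DecidablePred f] :
    Pr (fun ω : (∀ v, Ω v) => f (ω p))
      = ((Finset.univ.filter f).card : ℝ) / (Fintype.card (Ω p) : ℝ) := by
  classical
  rw [Pr_def, Ex_coord p (fun a => if f a then (1 : ℝ) else 0)]
  congr 1
  rw [Finset.sum_ite, Finset.sum_const_zero, add_zero]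
  simp

lemma chernoff {ι : Type*} [DecidableEq ι] (s : Finset ι)
    (U : ι → Finset V) (hU : ∀ i ∈ s, ∀ j ∈ s, i ≠ j → Disjoint (U i) (U j))
    (A : ι → (∀ v, Ω v) → Prop) (hA : ∀ i ∈ s, Dep (U i) (A i))
    (p : ι → ℝ) (hp : ∀ i ∈ s, Pr (A i) ≤ p i) {M η : ℝ} (hη0 : 0 ≤ η) (hη1 : η ≤ 1)
    (hM : 0 ≤ M) (hμ : ∑ i ∈ s, p i ≤ (1 - 2 * η) * M) (B : (∀ v, Ω v) → Prop)
    (hB : ∀ ω, B ω → ∃ s' ⊆ s, (∀ i ∈ s', A i ω) ∧ M < (s'.card : ℝ)) :
    Pr B ≤ Real.exp (-(η ^ 2 * M)) := by
  classical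
  let f : ι → (∀ v, Ω v) → ℝ := fun i ω => if A i ω then Real.exp η else 1
  have hf1 : ∀ i ω, 1 ≤ f i ω := by
    intro i ω
    simp only [f]
    split_ifs
    · exact Real.one_le_exp hη0
    · exact le_rfl
  have h1 : Pr B ≤ Ex (fun ω => ∏ i ∈ s, f i ω) / Real.exp (η * M) := by
    apply Pr_le_of_markov
    · intro ω
      exact Finset.prod_nonneg fun i _ => zero_le_one.trans (hf1 i ω)
    · exact Real.exp_pos _
    · intro ω hω
      obtain ⟨s', hs', hs'A, hcard⟩ := hB ω hω
      calc Real.exp (η * M) ≤ Real.exp (η * s'.card) := by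
            apply Real.exp_le_exp.mpr
            gcongr
        _ = ∏ i ∈ s', f i ω := by
            rw [Finset.prod_congr rfl (g := fun _ => Real.exp η)]
            · rw [Finset.prod_const, ← Real.exp_nat_mul]
              congr 1
              ring
            · intro i hi
              simp only [f, if_pos (hs'A i hi)]
        _ ≤ ∏ i ∈ s, f i ω := by
            apply Finset.prod_le_prod_of_subset_of_one_le hs'
            · intro i _; exact zero_le_one.trans (hf1 i ω)
            · intro i _ _; exact hf1 i ω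
  have h2 : Ex (fun ω => ∏ i ∈ s, f i ω) = ∏ i ∈ s, Ex (f i) := by
    apply Ex_prod s U hU f
    intro i hi ω ω' h
    simp only [f]
    rw [hA i hi ω ω' h]
  have hexp : Real.exp η - 1 ≤ η + η ^ 2 := by
    have := Real.abs_exp_sub_one_sub_id_le (x := η) (by rw [abs_of_nonneg hη0]; exact hη1)
    have := (abs_le.mp this).2
    linarith
  have h3 : ∀ i ∈ s, Ex (f i) ≤ Real.exp (p i * (η + η ^ 2)) := by
    intro i hi
    have e : Ex (f i) = 1 + (Real.exp η - 1) * Pr (A i) := by
      rw [Pr_def, ← Ex_smul]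
      conv_lhs => rw [show (f i) = fun ω => (fun _ => (1 : ℝ)) ω +
        (fun ω => (Real.exp η - 1) * if A i ω then (1 : ℝ) else 0) ω by
          funext ω
          simp only [f]
          by_cases h : A i ω <;> simp [h]]
      rw [Ex_add, Ex_const]
    rw [e]
    have hp0 := Pr_nonneg (A i)
    have hp1 := hp i hi
    have he0 : 0 ≤ Real.exp η - 1 := by linarith [Real.one_le_exp hη0]
    have hmul : (Real.exp η - 1) * Pr (A i) ≤ (η + η ^ 2) * p i := by
      apply mul_le_mul hexp hp1 hp0 (by positivity)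
    calc 1 + (Real.exp η - 1) * Pr (A i) ≤ 1 + p i * (η + η ^ 2) := by linarith
      _ ≤ Real.exp (p i * (η + η ^ 2)) := by
        have := Real.add_one_le_exp (p i * (η + η ^ 2))
        linarith
  have h4 : ∏ i ∈ s, Ex (f i) ≤ Real.exp ((η + η ^ 2) * ((1 - 2 * η) * M)) := by
    calc ∏ i ∈ s, Ex (f i) ≤ ∏ i ∈ s, Real.exp (p i * (η + η ^ 2)) := by
          apply Finset.prod_le_prod
          · intro i _
            apply Ex_nonneg
            intro ω
            exact zero_le_one.trans (hf1 i ω)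
          · exact h3
      _ = Real.exp (∑ i ∈ s, p i * (η + η ^ 2)) := (Real.exp_sum _ _).symm
      _ ≤ Real.exp ((η + η ^ 2) * ((1 - 2 * η) * M)) := by
          apply Real.exp_le_exp.mpr
          rw [← Finset.sum_mul]
          have : 0 ≤ η + η ^ 2 := by positivity
          nlinarith
  calc Pr B ≤ Ex (fun ω => ∏ i ∈ s, f i ω) / Real.exp (η * M) := h1
    _ ≤ Real.exp ((η + η ^ 2) * ((1 - 2 * η) * M)) / Real.exp (η * M) := by
        rw [h2]
        gcongr
    _ = Real.exp ((η + η ^ 2) * ((1 - 2 * η) * M) - η * M) := (Real.exp_sub _ _).symm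
    _ ≤ Real.exp (-(η ^ 2 * M)) := by
        apply Real.exp_le_exp.mpr
        have : 0 ≤ η ^ 3 * M := by positivity
        nlinarith

end Pool.Agent.LLL94
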