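import Mathlib

/-!
The displacement function of one refinement step: piecewise linear, nondecreasing, with small
slope.  Blocks have length `B = m * Z`, the transition of block `b` takes place in the slot
`θ b < m` of length `Z`.
-/

set_option autoImplicit false

namespace Pool.Agent.H94

/-- clamp to `[0,1]` -/
noncomputable def clamp (y : ℝ) : ℝ := max 0 (min 1 y)

lemma clamp_nonneg (y : ℝ) : 0 ≤ clamp y := le_max_left _ _

lemma clamp_le_one (y : ℝ) : clamp y ≤ 1 := max_le zero_le_one (min_le_left _ _)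

lemma clamp_mono {y z : ℝ} (h : y ≤ z) : clamp y ≤ clamp z :=
  max_le_max le_rfl (min_le_min le_rfl h)

lemma clamp_sub_le {y z : ℝ} (h : y ≤ z) : clamp z - clamp y ≤ z - y := by
  unfold clamp
  rcases le_total 1 y with h1 | h1
  · have h2 : (1 : ℝ) ≤ z := h1.trans h
    simp only [min_eq_left h1, min_eq_left h2, max_eq_right (zero_le_one (α := ℝ))]
    linarith
  · rcases le_total 0 y with h0 | h0
    · rw [min_eq_right h1, max_eq_right h0]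
      have : max 0 (min 1 z) ≤ z := max_le (h0.trans h) (min_le_right _ _)
      linarith
    · rw [min_eq_right h1, max_eq_left h0]
      rcases le_total 0 z with hz | hz
      · have : max 0 (min 1 z) ≤ z := max_le hz (min_le_right _ _)
        linarith
      · rw [min_eq_right (hz.trans zero_le_one), max_eq_left hz]
        linarith

lemma clamp_eq_zero {y : ℝ} (h : y ≤ 0) : clamp y = 0 := by
  unfold clamp
  rw [min_eq_right (h.trans zero_le_one), max_eq_left h]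

lemma clamp_eq_one {y : ℝ} (h : 1 ≤ y) : clamp y = 1 := by
  unfold clamp
  rw [min_eq_left h, max_eq_right zero_le_one]

/-- The displacement inside the block `b`. -/
noncomputable def fb (w m Z : ℕ) (X θ : ℕ → ℕ) (b : ℕ) (s : ℝ) : ℝ :=
  b * w + X b + clamp ((s - (b * (m * Z) : ℕ) - (θ b * Z : ℕ)) / Z) * (w + X (b + 1) - X b)

/-- The displacement. -/
noncomputable def disp (w m Z : ℕ) (X θ : ℕ → ℕ) (s : ℝ) : ℝ :=
  fb w m Z X θ (⌊s⌋₊ / (m * Z)) s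

variable {w m Z : ℕ} {X θ : ℕ → ℕ}

lemma fb_mono (hX : ∀ b, X b < w) {b : ℕ} {s s' : ℝ} (h : s ≤ s') :
    fb w m Z X θ b s ≤ fb w m Z X θ b s' := by
  unfold fb
  have h1 : (X b : ℝ) < w := by exact_mod_cast hX b
  have h2 : (0 : ℝ) ≤ (X (b + 1) : ℝ) := by positivity
  have h3 : clamp ((s - (b * (m * Z) : ℕ) - (θ b * Z : ℕ)) / Z)
      ≤ clamp ((s' - (b * (m * Z) : ℕ) - (θ b * Z : ℕ)) / Z) := by
    apply clamp_mono
    gcongr
  have : 0 ≤ (w : ℝ) + X (b + 1) - X b := by linarith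
  nlinarith

lemma fb_lip (hX : ∀ b, X b < w) (hZ : 0 < Z) {b : ℕ} {s s' : ℝ} (h : s ≤ s') :
    fb w m Z X θ b s' - fb w m Z X θ b s ≤ 2 * w / Z * (s' - s) := by
  unfold fb
  have h1 : (X b : ℝ) < w := by exact_mod_cast hX b
  have h2 : (X (b + 1) : ℝ) < w := by exact_mod_cast hX (b + 1)
  have h2' : (0 : ℝ) ≤ (X (b + 1) : ℝ) := by positivity
  have h2'' : (0 : ℝ) ≤ (X b : ℝ) := by positivity
  have hZ' : (0 : ℝ) < Z := by exact_mod_cast hZ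
  have h3 := clamp_sub_le (y := (s - (b * (m * Z) : ℕ) - (θ b * Z : ℕ)) / Z)
    (z := (s' - (b * (m * Z) : ℕ) - (θ b * Z : ℕ)) / Z) (by gcongr)
  have h3' := clamp_mono (y := (s - (b * (m * Z) : ℕ) - (θ b * Z : ℕ)) / Z)
    (z := (s' - (b * (m * Z) : ℕ) - (θ b * Z : ℕ)) / Z) (by gcongr)
  have h4 : (s' - (b * (m * Z) : ℕ) - (θ b * Z : ℕ)) / Z - (s - (b * (m * Z) : ℕ) - (θ b * Z : ℕ)) / Z
      = (s' - s) / (Z : ℝ) := by
    field_simp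
    ring
  rw [h4] at h3
  have h5 : (w : ℝ) + X (b + 1) - X b ≤ 2 * w := by linarith
  have h6 : 0 ≤ (w : ℝ) + X (b + 1) - X b := by linarith
  set c1 := clamp ((s - (b * (m * Z) : ℕ) - (θ b * Z : ℕ)) / Z)
  set c2 := clamp ((s' - (b * (m * Z) : ℕ) - (θ b * Z : ℕ)) / Z)
  have h7 : (c2 - c1) * (w + X (b + 1) - X b) ≤ (s' - s) / Z * (2 * w) := by
    apply mul_le_mul h3 h5 h6
    exact div_nonneg (by linarith) hZ'.le
  calc _ = (c2 - c1) * (w + X (b + 1) - X b) := by ring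
    _ ≤ (s' - s) / Z * (2 * w) := h7
    _ = 2 * w / Z * (s' - s) := by ring

lemma fb_right (hθ : ∀ b, θ b < m) (hZ : 0 < Z) {b : ℕ} {s : ℝ}
    (hs : (((b + 1) * (m * Z) : ℕ) : ℝ) ≤ s) :
    fb w m Z X θ b s = (b + 1) * w + X (b + 1) := by
  unfold fb
  have hZ' : (0 : ℝ) < Z := by exact_mod_cast hZ
  rw [clamp_eq_one]
  · ring
  · rw [le_div_iff₀ hZ']
    have h1 : ((θ b * Z : ℕ) : ℝ) + Z ≤ ((m * Z : ℕ) : ℝ) := by
      have : θ b * Z + Z ≤ m * Z := by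
        calc θ b * Z + Z = (θ b + 1) * Z := by ring
          _ ≤ m * Z := Nat.mul_le_mul_right _ (hθ b)
      exact_mod_cast this
    push_cast at *
    nlinarith

lemma fb_left {b : ℕ} {s : ℝ} (hs : s ≤ ((b * (m * Z) : ℕ) : ℝ)) :
    fb w m Z X θ b s = b * w + X b := by
  unfold fb
  rw [clamp_eq_zero]
  · ring
  · apply div_nonpos_of_nonpos_of_nonneg
    · have : (0 : ℝ) ≤ ((θ b * Z : ℕ) : ℝ) := by positivity
      linarith
    · positivity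

lemma floor_block {s : ℝ} (hs : 0 ≤ s) (hB : 0 < m * Z) :
    (((⌊s⌋₊ / (m * Z)) * (m * Z) : ℕ) : ℝ) ≤ s ∧
      s < (((⌊s⌋₊ / (m * Z) + 1) * (m * Z) : ℕ) : ℝ) := by
  constructor
  · have h1 : (⌊s⌋₊ / (m * Z)) * (m * Z) ≤ ⌊s⌋₊ := Nat.div_mul_le_self _ _
    have h2 : ((⌊s⌋₊ : ℕ) : ℝ) ≤ s := Nat.floor_le hs
    have h3 : (((⌊s⌋₊ / (m * Z)) * (m * Z) : ℕ) : ℝ) ≤ ((⌊s⌋₊ : ℕ) : ℝ) := by exact_mod_cast h1
    linarith
  · have h1 : ⌊s⌋₊ + 1 ≤ (⌊s⌋₊ / (m * Z) + 1) * (m * Z) := by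
      have := Nat.lt_div_mul_add (a := ⌊s⌋₊) hB
      have h2 : (⌊s⌋₊ / (m * Z) + 1) * (m * Z) = ⌊s⌋₊ / (m * Z) * (m * Z) + m * Z := by ring
      omega
    have h2 : s < (⌊s⌋₊ : ℝ) + 1 := Nat.lt_floor_add_one s
    have h3 : (((⌊s⌋₊ + 1 : ℕ)) : ℝ) ≤ (((⌊s⌋₊ / (m * Z) + 1) * (m * Z) : ℕ) : ℝ) := by
      exact_mod_cast h1
    push_cast at h3 ⊢
    linarith

/-- Monotonicity and Lipschitz property for steps not longer than a block. -/
lemma disp_step (hX : ∀ b, X b < w) (hθ : ∀ b, θ b < m) (hZ : 0 < Z) {s s' : ℝ} (hs : 0 ≤ s)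
    (h : s ≤ s') (h' : s' ≤ s + ((m * Z : ℕ) : ℝ)) :
    disp w m Z X θ s ≤ disp w m Z X θ s' ∧
      disp w m Z X θ s' - disp w m Z X θ s ≤ 2 * w / Z * (s' - s) := by
  have hm : 0 < m := lt_of_le_of_lt (Nat.zero_le _) (hθ 0)
  have hB : 0 < m * Z := Nat.mul_pos hm hZ
  have hs' : 0 ≤ s' := hs.trans h
  obtain ⟨a1, a2⟩ := floor_block (m := m) (Z := Z) hs hB
  obtain ⟨b1, b2⟩ := floor_block (m := m) (Z := Z) hs' hB
  have hfl : ⌊s⌋₊ ≤ ⌊s'⌋₊ := Nat.floor_mono h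
  have hle : ⌊s⌋₊ / (m * Z) ≤ ⌊s'⌋₊ / (m * Z) := Nat.div_le_div_right hfl
  rcases Nat.eq_or_lt_of_le hle with he | hlt
  · unfold disp
    rw [he]
    exact ⟨fb_mono hX h, fb_lip hX hZ h⟩
  · -- adjacent blocks
    have hnext : ⌊s'⌋₊ / (m * Z) = ⌊s⌋₊ / (m * Z) + 1 := by
      by_contra hne
      have h2 : ⌊s⌋₊ / (m * Z) + 2 ≤ ⌊s'⌋₊ / (m * Z) := by omega
      have h3 : (⌊s⌋₊ / (m * Z) + 1) * (m * Z) + m * Z ≤ (⌊s'⌋₊ / (m * Z)) * (m * Z) := by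
        calc (⌊s⌋₊ / (m * Z) + 1) * (m * Z) + m * Z = (⌊s⌋₊ / (m * Z) + 2) * (m * Z) := by ring
          _ ≤ _ := Nat.mul_le_mul_right _ h2
      have h4 : (((⌊s⌋₊ / (m * Z) + 1) * (m * Z) : ℕ) : ℝ) + ((m * Z : ℕ) : ℝ)
          ≤ (((⌊s'⌋₊ / (m * Z)) * (m * Z) : ℕ) : ℝ) := by exact_mod_cast h3
      linarith
    unfold disp
    rw [hnext] at b1 b2 ⊢
    set b := ⌊s⌋₊ / (m * Z) with hb
    set t : ℝ := (((b + 1) * (m * Z) : ℕ) : ℝ) with ht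
    have e1 : fb w m Z X θ b t = fb w m Z X θ (b + 1) t := by
      rw [fb_right hθ hZ le_rfl, fb_left le_rfl]
      push_cast
      ring
    have m1 := fb_mono (w := w) (m := m) (Z := Z) (X := X) (θ := θ) hX (b := b) (s := s) (s' := t)
      (by linarith)
    have m2 := fb_mono (w := w) (m := m) (Z := Z) (X := X) (θ := θ) hX (b := b + 1) (s := t)
      (s' := s') (by linarith)
    have l1 := fb_lip (w := w) (m := m) (Z := Z) (X := X) (θ := θ) hX hZ (b := b) (s := s)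
      (s' := t) (by linarith)
    have l2 := fb_lip (w := w) (m := m) (Z := Z) (X := X) (θ := θ) hX hZ (b := b + 1) (s := t)
      (s' := s') (by linarith)
    constructor
    · linarith
    · have : 2 * w / Z * (s' - s) = 2 * w / Z * (t - s) + 2 * w / Z * (s' - t) := by ring
      linarith

lemma disp_bounds (hX : ∀ b, X b < w) {s : ℝ} :
    ((⌊s⌋₊ / (m * Z) * w : ℕ) : ℝ) ≤ disp w m Z X θ s ∧
      disp w m Z X θ s ≤ ((⌊s⌋₊ / (m * Z) + 1) * w : ℕ) + (w - 1 : ℝ) := by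
  unfold disp fb
  set b := ⌊s⌋₊ / (m * Z)
  set c := clamp ((s - (b * (m * Z) : ℕ) - (θ b * Z : ℕ)) / Z)
  have hc0 : 0 ≤ c := clamp_nonneg _
  have hc1 : c ≤ 1 := clamp_le_one _
  have h1 : (X b : ℝ) + 1 ≤ w := by exact_mod_cast hX b
  have h2 : (X (b + 1) : ℝ) + 1 ≤ w := by exact_mod_cast hX (b + 1)
  have h3 : (0 : ℝ) ≤ (X b : ℝ) := by positivity
  have h4 : (0 : ℝ) ≤ (X (b + 1) : ℝ) := by positivity
  have h6 : 0 ≤ (w : ℝ) + X (b + 1) - X b := by linarith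
  push_cast
  constructor
  · nlinarith [mul_nonneg hc0 h6]
  · have : c * (w + X (b + 1) - X b) ≤ 1 * (w + X (b + 1) - X b) := by gcongr
    linarith

/-- Value before the transition slot. -/
lemma disp_before (hZ : 0 < Z) {s : ℝ} (hs : 0 ≤ s)
    (h : (⌊s⌋₊ % (m * Z)) / Z < θ (⌊s⌋₊ / (m * Z))) :
    disp w m Z X θ s = ((⌊s⌋₊ / (m * Z) * w + X (⌊s⌋₊ / (m * Z)) : ℕ) : ℝ) := by
  unfold disp fb
  rw [clamp_eq_zero]
  · push_cast; ring
  · apply div_nonpos_of_nonpos_of_nonneg _ (by positivity)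
    set b := ⌊s⌋₊ / (m * Z) with hb
    have h1 : ⌊s⌋₊ % (m * Z) < ((⌊s⌋₊ % (m * Z)) / Z + 1) * Z := by
      have := Nat.lt_div_mul_add (a := ⌊s⌋₊ % (m * Z)) hZ
      nlinarith
    have h2 : ((⌊s⌋₊ % (m * Z)) / Z + 1) * Z ≤ θ b * Z := Nat.mul_le_mul_right _ h
    have h3 : m * Z * b + ⌊s⌋₊ % (m * Z) = ⌊s⌋₊ := Nat.div_add_mod _ _
    have h4 : ⌊s⌋₊ + 1 ≤ b * (m * Z) + θ b * Z := by nlinarith
    have h5 : s < (⌊s⌋₊ : ℝ) + 1 := Nat.lt_floor_add_one s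
    have h6 : ((⌊s⌋₊ + 1 : ℕ) : ℝ) ≤ ((b * (m * Z) + θ b * Z : ℕ) : ℝ) := by exact_mod_cast h4
    push_cast at h6 ⊢
    linarith

/-- Value after the transition slot. -/
lemma disp_after (hZ : 0 < Z) {s : ℝ} (hs : 0 ≤ s)
    (h : θ (⌊s⌋₊ / (m * Z)) < (⌊s⌋₊ % (m * Z)) / Z) :
    disp w m Z X θ s = (((⌊s⌋₊ / (m * Z) + 1) * w + X (⌊s⌋₊ / (m * Z) + 1) : ℕ) : ℝ) := by
  unfold disp fb
  have hZ' : (0 : ℝ) < Z := by exact_mod_cast hZ
  rw [clamp_eq_one]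
  · push_cast; ring
  · rw [le_div_iff₀ hZ']
    set b := ⌊s⌋₊ / (m * Z) with hb
    have h2 : (θ b + 1) * Z ≤ ((⌊s⌋₊ % (m * Z)) / Z) * Z := Nat.mul_le_mul_right _ h
    have h2' : ((⌊s⌋₊ % (m * Z)) / Z) * Z ≤ ⌊s⌋₊ % (m * Z) := Nat.div_mul_le_self _ _
    have h3 : m * Z * b + ⌊s⌋₊ % (m * Z) = ⌊s⌋₊ := Nat.div_add_mod _ _
    have h4 : b * (m * Z) + θ b * Z + Z ≤ ⌊s⌋₊ := by nlinarith
    have h5 : (⌊s⌋₊ : ℝ) ≤ s := Nat.floor_le hs
    have h6 : ((b * (m * Z) + θ b * Z + Z : ℕ) : ℝ) ≤ ((⌊s⌋₊ : ℕ) : ℝ) := by exact_mod_cast h4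
    push_cast at h6 ⊢
    linarith

end Pool.Agent.H94
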