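import Pool.Agent.H94.RefineStep

/-!
Iterating the refinement step down to a constant scale.
-/

set_option autoImplicit false

namespace Pool.Agent.H94

open Finset Pool.Agent.LLL94

lemma growth (a : ℕ) (ha : 100 ≤ a) : 2 ^ 21 * a ^ 5 ≤ 2 ^ a := by
  induction a, ha using Nat.le_induction with
  | base => norm_num
  | succ a ha ih =>
    have h1 : (a + 1) ^ 5 ≤ 2 * a ^ 5 := by
      have h2 : 100 * (a + 1) ≤ 101 * a := by omega
      have h3 : (100 * (a + 1)) ^ 5 ≤ (101 * a) ^ 5 := Nat.pow_le_pow_left h2 5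
      have h4 : (100 * (a + 1)) ^ 5 = 10000000000 * (a + 1) ^ 5 := by ring
      have h5 : (101 * a) ^ 5 = 10510100501 * a ^ 5 := by ring
      rw [h4, h5] at h3
      omega
    calc 2 ^ 21 * (a + 1) ^ 5 ≤ 2 ^ 21 * (2 * a ^ 5) := Nat.mul_le_mul_left _ h1
      _ = 2 * (2 ^ 21 * a ^ 5) := by ring
      _ ≤ 2 * 2 ^ a := Nat.mul_le_mul_left _ ih
      _ = 2 ^ (a + 1) := by ring

lemma exp_ge_two_pow {x : ℝ} (n : ℕ) (h : (n : ℝ) ≤ x) : (2 : ℝ) ^ n ≤ Real.exp x := by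
  have h1 : (2 : ℝ) ≤ Real.exp 1 := by
    have := Real.add_one_le_exp (1 : ℝ)
    linarith
  calc (2 : ℝ) ^ n ≤ (Real.exp 1) ^ n := by gcongr
    _ = Real.exp n := by rw [← Real.exp_nat_mul, mul_one]
    _ ≤ Real.exp x := Real.exp_le_exp.mpr h

namespace PD

variable {k : ℕ} {G : PD k}

/-- A good nominal schedule at the scale `2 ^ a`. -/
def Good (G : PD k) (A : ℝ) (a : ℕ) : Prop :=
  ∃ (T : Fin k → ℕ → ℝ) (Λ : ℕ), G.Nom T Λ (1 + 4 / 2 ^ a) ∧
    G.Load (fun i x => ⌊T i x⌋₊) (2 ^ a) ((1 + 1 / a) * (2 ^ a / 1024)) ∧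
    (Λ : ℝ) ≤ (1 + 4 / 2 ^ a) * (A - 4 * 2 ^ a)

lemma Nom.mono {T : Fin k → ℕ → ℝ} {Λ : ℕ} {g g' : ℝ} (hT : G.Nom T Λ g) (h : g ≤ g') :
    G.Nom T Λ g' :=
  ⟨hT.nonneg, hT.lt, hT.gap1, fun i x hx => (hT.gapg i x hx).trans (by linarith)⟩

lemma good_step {A : ℝ} {a : ℕ} (ha : 100 ≤ a) (hA : 8 * 2 ^ a ≤ A) (h : G.Good A (a + 1)) :
    G.Good A a := by
  obtain ⟨T, Λ, hT, hL, hΛ⟩ := h
  have har : (100 : ℝ) ≤ a := by exact_mod_cast ha
  have hap : (0 : ℝ) < a := by linarith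
  set s : ℝ := (2 : ℝ) ^ a with hs
  have hgr : (2 : ℝ) ^ 21 * (a : ℝ) ^ 5 ≤ s := by
    have := growth a ha
    rw [hs]
    exact_mod_cast this
  have ha2 : (10000 : ℝ) ≤ (a : ℝ) ^ 2 := by nlinarith
  have ha5 : (a : ℝ) ^ 2 ≤ (a : ℝ) ^ 5 := pow_le_pow_right₀ (by linarith) (by norm_num)
  have hs1 : (2 : ℝ) ^ 21 * (a : ℝ) ^ 2 ≤ s := le_trans (by gcongr) hgr
  have hs0 : (1024 : ℝ) ≤ s := by nlinarith
  have hspos : (0 : ℝ) < s := by linarith
  have h2s : (2 : ℝ) ^ (a + 1) = 2 * s := by rw [hs]; ring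
  rw [h2s] at hT hΛ
  have hM' : 0 < (1 + 1 / (a : ℝ)) * (s / 1024) := by positivity
  have hη1 : 1 / (16 * (a : ℝ) ^ 2) ≤ 1 := by
    rw [div_le_one (by positivity)]
    nlinarith
  have hstep := refine_step (G := G) hT (w := 2 ^ (a + 1)) (w' := 2 ^ a) (by positivity)
    (by positivity) (Nat.pow_le_pow_right (by norm_num) (by omega))
    (M := (1 + 1 / ((a + 1 : ℕ) : ℝ)) * (2 ^ (a + 1) / 1024))
    (M' := (1 + 1 / (a : ℝ)) * (s / 1024)) (η := 1 / (16 * (a : ℝ) ^ 2))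
    ?_ ?_ ?_ hM' (by positivity) hη1 ?_ ?_
  · obtain ⟨T', hT', hL'⟩ := hstep
    refine ⟨T', _, hT'.mono ?_, hL', ?_⟩
    · push_cast
      rw [h2s]
      have e : (1 + 4 / (2 * s)) * (1 + 2 / (2 * s)) = 1 + 3 / s + 2 / s * (1 / s) := by
        field_simp
        ring
      rw [e]
      have h1 : 1 / s ≤ 1 / 2 := by
        apply one_div_le_one_div_of_le (by norm_num) (by linarith)
      have h2 : 2 / s * (1 / s) ≤ 2 / s * (1 / 2) := by gcongr
      have h3 : 2 / s * (1 / 2) = 1 / s := by ring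
      have h4 : 1 + 4 / s = 1 + 3 / s + 1 / s := by ring
      linarith
    · push_cast
      rw [h2s]
      have hdiv : ((Λ / (2 ^ (a + 1)) ^ 4 : ℕ) : ℝ) ≤ (Λ : ℝ) / (2 * s) ^ 4 := by
        refine (Nat.cast_div_le (α := ℝ)).trans (le_of_eq ?_)
        push_cast
        rw [h2s]
      have hΛ0 : (0 : ℝ) ≤ Λ := by positivity
      have hd2 : (Λ : ℝ) / (2 * s) ^ 4 * (2 * s) ≤ Λ * (1 / s * (1 / 8)) := by
        have e : (Λ : ℝ) / (2 * s) ^ 4 * (2 * s) = Λ * (1 / (8 * s ^ 3)) := by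
          field_simp
          ring
        rw [e]
        apply mul_le_mul_of_nonneg_left _ hΛ0
        rw [div_mul_div_comm, one_mul]
        apply one_div_le_one_div_of_le (by positivity)
        have : s * 8 ≤ 8 * s ^ 3 := by
          have h1 : 1 ≤ s ^ 2 := one_le_pow₀ (by linarith)
          nlinarith
        exact this
      have hu : 1 / s ≤ 1 / 1024 := one_div_le_one_div_of_le (by norm_num) hs0
      have hu0 : 0 < 1 / s := by positivity
      set u := 1 / s with hud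
      have hus : u * s = 1 := by rw [hud]; field_simp
      have e1 : 4 / (2 * s) = 2 * u := by rw [hud]; field_simp; ring
      have e2 : 4 / s = 4 * u := by rw [hud]; ring
      rw [e1] at hΛ
      rw [e2]
      have hAs : 0 ≤ A - 4 * (2 * s) := by linarith
      have h3 : (Λ : ℝ) * (1 + u * (1 / 8)) ≤ (1 + 2 * u) * (A - 4 * (2 * s)) * (1 + u * (1 / 8)) := by
        apply mul_le_mul_of_nonneg_right hΛ
        positivity
      have h4 : (1 + 2 * u) * (1 + u * (1 / 8)) ≤ 1 + 4 * u := by nlinarith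
      have h5 : (1 + 2 * u) * (A - 4 * (2 * s)) * (1 + u * (1 / 8)) ≤ (1 + 4 * u) * (A - 4 * (2 * s)) := by
        calc _ = (1 + 2 * u) * (1 + u * (1 / 8)) * (A - 4 * (2 * s)) := by ring
          _ ≤ _ := mul_le_mul_of_nonneg_right h4 hAs
      have h6 : ((Λ / (2 ^ (a + 1)) ^ 4 : ℕ) : ℝ) * (2 * s) ≤ (Λ : ℝ) / (2 * s) ^ 4 * (2 * s) := by
        apply mul_le_mul_of_nonneg_right hdiv (by positivity)
      nlinarith
  · push_cast
    rw [h2s]
    have h1 : 4 / (2 * s) ≤ 1 := by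
      rw [div_le_one (by positivity)]
      linarith
    have h2 : (2 : ℝ) ≤ (2 * s) ^ 4 := by
      have : (2 * s) ≤ (2 * s) ^ 4 := by
        calc (2 * s) = (2 * s) ^ 1 := (pow_one _).symm
          _ ≤ (2 * s) ^ 4 := pow_le_pow_right₀ (by linarith) (by norm_num)
      linarith
    linarith
  · exact hL
  · push_cast
    rw [h2s]
    have h1 : 1 / ((a : ℝ) + 1) ≤ 1 := by
      rw [div_le_one (by positivity)]
      linarith
    nlinarith
  · push_cast
    rw [h2s]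
    have e1 : s / (2 * s) * ((1 + 1 / ((a : ℝ) + 1)) * (2 * s / 1024)) + 3 / (2 * s)
        = (1 + 1 / ((a : ℝ) + 1)) * (s / 1024) + 3 / (2 * s) := by
      field_simp
    rw [e1]
    have h1 : 3 / (2 * s) ≤ 1 / (4 * (a : ℝ) ^ 2) * (s / 1024) := by
      rw [div_mul_div_comm, div_le_div_iff₀ (by positivity) (by positivity)]
      have h2 : 12288 * (a : ℝ) ^ 2 ≤ s := by nlinarith
      nlinarith
    have h2 : (1 + 1 / ((a : ℝ) + 1)) + 1 / (4 * (a : ℝ) ^ 2) ≤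
        (1 - 2 * (1 / (16 * (a : ℝ) ^ 2))) * (1 + 1 / (a : ℝ)) := by
      have e3 : (1 - 2 * (1 / (16 * (a : ℝ) ^ 2))) * (1 + 1 / (a : ℝ))
          - ((1 + 1 / ((a : ℝ) + 1)) + 1 / (4 * (a : ℝ) ^ 2))
          = (8 * (a : ℝ) ^ 2 - (a + 1) * (a + 1) - 2 * a * (a + 1)) / (8 * (a : ℝ) ^ 3 * (a + 1)) := by
        field_simp
        ring
      have : 0 ≤ (8 * (a : ℝ) ^ 2 - (a + 1) * (a + 1) - 2 * a * (a + 1)) /
          (8 * (a : ℝ) ^ 3 * (a + 1)) := by
        apply div_nonneg _ (by positivity)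
        nlinarith
      linarith
    calc (1 + 1 / ((a : ℝ) + 1)) * (s / 1024) + 3 / (2 * s)
        ≤ ((1 + 1 / ((a : ℝ) + 1)) + 1 / (4 * (a : ℝ) ^ 2)) * (s / 1024) := by linarith
      _ ≤ (1 - 2 * (1 / (16 * (a : ℝ) ^ 2))) * (1 + 1 / (a : ℝ)) * (s / 1024) := by gcongr
      _ = _ := by ring
  · have hx : ((6 * a + 14 : ℕ) : ℝ) ≤ (1 / (16 * (a : ℝ) ^ 2)) ^ 2 * ((1 + 1 / (a : ℝ)) * (s / 1024)) := by
      have h1 : (1 : ℝ) ≤ 1 + 1 / (a : ℝ) := by
        have : 0 < 1 / (a : ℝ) := by positivity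
        linarith
      have h2 : (1 / (16 * (a : ℝ) ^ 2)) ^ 2 * (s / 1024) ≤
          (1 / (16 * (a : ℝ) ^ 2)) ^ 2 * ((1 + 1 / (a : ℝ)) * (s / 1024)) := by
        apply mul_le_mul_of_nonneg_left _ (by positivity)
        nlinarith
      refine le_trans ?_ h2
      have e : (1 / (16 * (a : ℝ) ^ 2)) ^ 2 * (s / 1024) = s / (262144 * (a : ℝ) ^ 4) := by
        field_simp
        ring
      rw [e, le_div_iff₀ (by positivity)]
      push_cast
      have h3 : 6 * (a : ℝ) + 14 ≤ 7 * a := by linarith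
      have h4 : (6 * (a : ℝ) + 14) * (262144 * (a : ℝ) ^ 4) ≤ 7 * a * (262144 * (a : ℝ) ^ 4) := by
        gcongr
      have h5 : 7 * (a : ℝ) * (262144 * (a : ℝ) ^ 4) = 1835008 * (a : ℝ) ^ 5 := by ring
      have h6 : (0 : ℝ) ≤ (a : ℝ) ^ 5 := by positivity
      nlinarith
    have h1 := exp_ge_two_pow _ hx
    have h2 : (4 * ((36 * (2 ^ (a + 1)) ^ 6 : ℕ) : ℝ)) ≤ 2 ^ (6 * a + 14) := by
      push_cast
      have e : (2 : ℝ) ^ (6 * a + 14) = 16384 * s ^ 6 := by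
        rw [pow_add, pow_mul, hs, ← pow_mul, ← pow_mul, mul_comm 6 a]
        norm_num
        ring
      rw [e, h2s]
      have : 4 * (36 * (2 * s) ^ 6) = 9216 * s ^ 6 := by ring
      rw [this]
      gcongr
      norm_num
    rw [Real.exp_neg, ← div_eq_mul_inv, div_le_one (Real.exp_pos _)]
    exact h2.trans h1

lemma good_iter {A : ℝ} (n : ℕ) (hA : 4 * 2 ^ (100 + n) ≤ A) (h : G.Good A (100 + n)) :
    G.Good A 100 := by
  induction n with
  | zero => exact h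
  | succ n ih =>
    have e : (2 : ℝ) ^ (100 + (n + 1)) = 2 * 2 ^ (100 + n) := by
      rw [← add_assoc, pow_succ]; ring
    rw [e] at hA
    have hp : (0 : ℝ) < 2 ^ (100 + n) := by positivity
    apply ih (by linarith)
    exact good_step (by omega) (by linarith) h

end PD

end Pool.Agent.H94
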