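import Mathlib

/-!
The averaging inequality of one refinement step.
-/

set_option autoImplicit false

namespace Pool.Agent.H94

open Finset

lemma main_sum {ι : Type*} [DecidableEq ι] (Q : Finset ι) (σ : ι → ℕ) {w m Z : ℕ} (hm : 0 < m)
    {M : ℝ}
    (hload : ∀ t, ((Q.filter fun q => t ≤ σ q ∧ σ q < t + w).card : ℝ) ≤ M) (τ : ℕ) :
    ∑ q ∈ Q, ((if σ q + σ q / (m * Z) * w ≤ τ ∧ τ < σ q + σ q / (m * Z) * w + w
        then ((m - 1 - σ q % (m * Z) / Z : ℕ) : ℝ) else 0) +
      (if σ q + σ q / (m * Z) * w + w ≤ τ ∧ τ < σ q + σ q / (m * Z) * w + 2 * w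
        then ((σ q % (m * Z) / Z : ℕ) : ℝ) else 0)) ≤ m * M := by
  classical
  have hM0 : 0 ≤ M := le_trans (by positivity) (hload 0)
  set β : ι → ℕ := fun q => σ q / (m * Z) with hβ
  set κ : ι → ℕ := fun q => σ q % (m * Z) / Z with hκ
  have hκm : ∀ q, κ q ≤ m - 1 := by
    intro q
    have h1 : κ q < m := by
      simp only [hκ]
      rcases Nat.eq_zero_or_pos Z with hZ | hZ
      · subst hZ; simpa using hm
      · apply Nat.div_lt_of_lt_mul
        rw [mul_comm Z m]
        exact Nat.mod_lt _ (Nat.mul_pos hm hZ)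
    omega
  have hmono : ∀ q q', σ q ≤ σ q' → β q ≤ β q' := fun q q' h => Nat.div_le_div_right h
  have hκmono : ∀ q q', σ q ≤ σ q' → β q = β q' → κ q ≤ κ q' := by
    intro q q' h h'
    apply Nat.div_le_div_right
    have h1 := Nat.div_add_mod (σ q) (m * Z)
    have h2 := Nat.div_add_mod (σ q') (m * Z)
    have h3 : m * Z * (σ q / (m * Z)) = m * Z * (σ q' / (m * Z)) := by
      have : σ q / (m * Z) = σ q' / (m * Z) := h'
      rw [this]
    omega
  have hmul : ∀ q q', β q < β q' → β q * w + w ≤ β q' * w := by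
    intro q q' h
    calc β q * w + w = (β q + 1) * w := by ring
      _ ≤ _ := Nat.mul_le_mul_right _ h
  have hmulle : ∀ q q', β q ≤ β q' → β q * w ≤ β q' * w := by
    intro q q' h
    exact Nat.mul_le_mul_right _ h
  set Q0 := Q.filter fun q => σ q + β q * w ≤ τ ∧ τ < σ q + β q * w + w with hQ0
  set Q1 := Q.filter fun q => σ q + β q * w + w ≤ τ ∧ τ < σ q + β q * w + 2 * w with hQ1
  have hsum : ∑ q ∈ Q, ((if σ q + σ q / (m * Z) * w ≤ τ ∧ τ < σ q + σ q / (m * Z) * w + w
        then ((m - 1 - σ q % (m * Z) / Z : ℕ) : ℝ) else 0) +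
      (if σ q + σ q / (m * Z) * w + w ≤ τ ∧ τ < σ q + σ q / (m * Z) * w + 2 * w
        then ((σ q % (m * Z) / Z : ℕ) : ℝ) else 0))
      = ∑ q ∈ Q0, ((m - 1 - κ q : ℕ) : ℝ) + ∑ q ∈ Q1, ((κ q : ℕ) : ℝ) := by
    rw [Finset.sum_add_distrib, hQ0, hQ1, Finset.sum_filter, Finset.sum_filter]
  rw [hsum]
  have h0 : ∀ q ∈ Q0, q ∈ Q ∧ σ q + β q * w ≤ τ ∧ τ < σ q + β q * w + w := by
    intro q hq; simpa [hQ0] using hq
  have h1 : ∀ q ∈ Q1, q ∈ Q ∧ σ q + β q * w + w ≤ τ ∧ τ < σ q + β q * w + 2 * w := by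
    intro q hq; simpa [hQ1] using hq
  -- single windows
  have hc0 : (Q0.card : ℝ) ≤ M := by
    rcases Q0.eq_empty_or_nonempty with he | hne
    · rw [he]; simpa using hM0
    obtain ⟨a, ha, hmin⟩ := Finset.exists_min_image Q0 σ hne
    refine le_trans ?_ (hload (σ a))
    have : Q0 ⊆ Q.filter fun q => σ a ≤ σ q ∧ σ q < σ a + w := by
      intro q hq
      rw [Finset.mem_filter]
      have e1 := h0 q hq
      have e2 := h0 a ha
      have e3 := hmulle a q (hmono a q (hmin q hq))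
      exact ⟨e1.1, hmin q hq, by omega⟩
    exact_mod_cast Finset.card_le_card this
  have hc1 : (Q1.card : ℝ) ≤ M := by
    rcases Q1.eq_empty_or_nonempty with he | hne
    · rw [he]; simpa using hM0
    obtain ⟨a, ha, hmin⟩ := Finset.exists_min_image Q1 σ hne
    refine le_trans ?_ (hload (σ a))
    have : Q1 ⊆ Q.filter fun q => σ a ≤ σ q ∧ σ q < σ a + w := by
      intro q hq
      rw [Finset.mem_filter]
      have e1 := h1 q hq
      have e2 := h1 a ha
      have e3 := hmulle a q (hmono a q (hmin q hq))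
      exact ⟨e1.1, hmin q hq, by omega⟩
    exact_mod_cast Finset.card_le_card this
  have hb0 : ∑ q ∈ Q0, ((m - 1 - κ q : ℕ) : ℝ) ≤ Q0.card * ((m - 1 : ℕ) : ℝ) := by
    rw [← nsmul_eq_mul]
    apply Finset.sum_le_card_nsmul
    intro q _
    exact_mod_cast Nat.sub_le _ _
  have hb1 : ∑ q ∈ Q1, ((κ q : ℕ) : ℝ) ≤ Q1.card * ((m - 1 : ℕ) : ℝ) := by
    rw [← nsmul_eq_mul]
    apply Finset.sum_le_card_nsmul
    intro q _
    exact_mod_cast hκm q
  have hm1 : ((m - 1 : ℕ) : ℝ) ≤ m := by exact_mod_cast Nat.sub_le _ _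
  have hm1' : (0 : ℝ) ≤ ((m - 1 : ℕ) : ℝ) := by positivity
  rcases Q0.eq_empty_or_nonempty with he0 | hne0
  · rw [he0, Finset.sum_empty, zero_add]
    calc _ ≤ Q1.card * ((m - 1 : ℕ) : ℝ) := hb1
      _ ≤ M * m := by gcongr
      _ = m * M := mul_comm _ _
  rcases Q1.eq_empty_or_nonempty with he1 | hne1
  · rw [he1, Finset.sum_empty, add_zero]
    calc _ ≤ Q0.card * ((m - 1 : ℕ) : ℝ) := hb0
      _ ≤ M * m := by gcongr
      _ = m * M := mul_comm _ _
  obtain ⟨a0, ha0, hmin0⟩ := Finset.exists_min_image Q0 σ hne0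
  obtain ⟨a1, ha1, hmax1⟩ := Finset.exists_max_image Q1 σ hne1
  have f0 := h0 a0 ha0
  have f1 := h1 a1 ha1
  have hlt : σ a1 < σ a0 := by
    by_contra hcon
    push Not at hcon
    have := hmulle a0 a1 (hmono a0 a1 hcon)
    omega
  have hβle := hmono a1 a0 hlt.le
  rcases Nat.eq_or_lt_of_le hβle with heq | hβlt
  · -- same block
    have hK0 : ∀ q ∈ Q0, m - 1 - κ q ≤ m - 1 - κ a1 := by
      intro q hq
      have e0 := h0 q hq
      have e1 := hmin0 q hq
      have e2 := hmono a0 q e1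
      have e3 : β a0 = β q := by
        by_contra hne
        have := hmul a0 q (lt_of_le_of_ne e2 hne)
        omega
      have e4 := hκmono a1 q (hlt.le.trans e1) (heq.trans e3)
      omega
    have hK1 : ∀ q ∈ Q1, κ q ≤ κ a1 := by
      intro q hq
      have e0 := h1 q hq
      have e1 := hmax1 q hq
      have e2 := hmono q a1 e1
      have e3 : β q = β a1 := by
        by_contra hne
        have := hmul q a1 (lt_of_le_of_ne e2 hne)
        omega
      exact hκmono q a1 e1 e3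
    have g0 : ∑ q ∈ Q0, ((m - 1 - κ q : ℕ) : ℝ) ≤ Q0.card * ((m - 1 - κ a1 : ℕ) : ℝ) := by
      rw [← nsmul_eq_mul]
      apply Finset.sum_le_card_nsmul
      intro q hq
      exact_mod_cast hK0 q hq
    have g1 : ∑ q ∈ Q1, ((κ q : ℕ) : ℝ) ≤ Q1.card * ((κ a1 : ℕ) : ℝ) := by
      rw [← nsmul_eq_mul]
      apply Finset.sum_le_card_nsmul
      intro q hq
      exact_mod_cast hK1 q hq
    calc _ ≤ (Q0.card : ℝ) * ((m - 1 - κ a1 : ℕ) : ℝ) + Q1.card * ((κ a1 : ℕ) : ℝ) :=
          add_le_add g0 g1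
      _ ≤ M * ((m - 1 - κ a1 : ℕ) : ℝ) + M * ((κ a1 : ℕ) : ℝ) := by gcongr
      _ = M * (((m - 1 - κ a1 : ℕ) : ℝ) + ((κ a1 : ℕ) : ℝ)) := by ring
      _ = M * ((m - 1 : ℕ) : ℝ) := by
          congr 1
          have := hκm a1
          rw [← Nat.cast_add]
          congr 1
          omega
      _ ≤ M * m := by gcongr
      _ = m * M := mul_comm _ _
  · -- different blocks: everything is in one window
    obtain ⟨a, ha, hmin⟩ := Finset.exists_min_image Q1 σ hne1
    have hdisj : Disjoint Q0 Q1 := by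
      rw [Finset.disjoint_left]
      intro q hq0 hq1
      have e0 := h0 q hq0
      have e1 := h1 q hq1
      omega
    have hunion : ((Q0 ∪ Q1).card : ℝ) ≤ M := by
      refine le_trans ?_ (hload (σ a))
      have : Q0 ∪ Q1 ⊆ Q.filter fun q => σ a ≤ σ q ∧ σ q < σ a + w := by
        intro q hq
        rw [Finset.mem_filter]
        have e2 := h1 a ha
        rcases Finset.mem_union.mp hq with hq | hq
        · have e0 := h0 q hq
          have e1 := hmin0 q hq
          have e3 : β a ≤ β a1 := hmono a a1 (hmax1 a ha)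
          have e4 : β a0 ≤ β q := hmono a0 q e1
          have e5 := hmul a q (by omega)
          have e6 := hmin a1 ha1
          refine ⟨e0.1, by omega, by omega⟩
        · have e1 := h1 q hq
          have e3 := hmulle a q (hmono a q (hmin q hq))
          exact ⟨e1.1, hmin q hq, by omega⟩
      exact_mod_cast Finset.card_le_card this
    rw [Finset.card_union_of_disjoint hdisj] at hunion
    push_cast at hunion
    calc _ ≤ (Q0.card : ℝ) * ((m - 1 : ℕ) : ℝ) + Q1.card * ((m - 1 : ℕ) : ℝ) := add_le_add hb0 hb1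
      _ = ((Q0.card : ℝ) + Q1.card) * ((m - 1 : ℕ) : ℝ) := by ring
      _ ≤ M * m := by gcongr
      _ = m * M := mul_comm _ _

end Pool.Agent.H94
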