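import Mathlib

/-!
Deterministic part: static-order simulation with buffers of size one, when the nominal
collision clusters have at most three packets.
-/

set_option autoImplicit false

namespace Pool.Agent.H94

open Finset

/-- Path data: packet `i` visits the vertices `v i 0, ..., v i (m i)`. -/
structure PD (k : ℕ) where
  m : Fin k → ℕ
  v : Fin k → ℕ → ℕ
  inj : ∀ i x y, x ≤ m i → y ≤ m i → v i x = v i y → x = y

namespace PD

variable {k : ℕ} (G : PD k)

/-- Packet `i` at position `x` and packet `j` at position `y` use the same edge. -/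
def Same (i : Fin k) (x : ℕ) (j : Fin k) (y : ℕ) : Prop :=
  x < G.m i ∧ y < G.m j ∧ G.v i x = G.v j y ∧ G.v i (x + 1) = G.v j (y + 1)

variable {G}

lemma Same.symm {i j : Fin k} {x y : ℕ} (h : G.Same i x j y) : G.Same j y i x :=
  ⟨h.2.1, h.1, h.2.2.1.symm, h.2.2.2.symm⟩

lemma Same.trans {i j l : Fin k} {x y z : ℕ} (h : G.Same i x j y) (h' : G.Same j y l z) :
    G.Same i x l z :=
  ⟨h.1, h'.2.1, h.2.2.1.trans h'.2.2.1, h.2.2.2.trans h'.2.2.2⟩

lemma Same.unique {i j : Fin k} {x y y' : ℕ} (h : G.Same i x j y) (h' : G.Same i x j y') :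
    y = y' :=
  G.inj j y y' h.2.1.le h'.2.1.le (h.2.2.1.symm.trans h'.2.2.1)

/-- consecutive shared edges are aligned -/
lemma Same.next {i j : Fin k} {x y y' : ℕ} (h : G.Same i x j y) (h' : G.Same i (x + 1) j y') :
    y' = y + 1 :=
  G.inj j y' (y + 1) h'.2.1.le h.2.1 (h'.2.2.1.symm.trans h.2.2.2)

/-- no reversed adjacent shared edges -/
lemma Same.no_rev {i j : Fin k} {x y : ℕ} (h : G.Same i x j (y + 1)) (h' : G.Same i (x + 1) j y) :
    False := by
  have := h.next h'
  omega

variable (G)

/-- The static order: nominal time `φ i + x`, ties by index. -/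
def Bef (φ : Fin k → ℕ) (i : Fin k) (x : ℕ) (j : Fin k) (y : ℕ) : Prop :=
  φ i + x < φ j + y ∨ (φ i + x = φ j + y ∧ i < j)

lemma Bef_total (φ : Fin k → ℕ) {i j : Fin k} (x y : ℕ) (h : i ≠ j) :
    Bef φ i x j y ∨ Bef φ j y i x := by
  unfold Bef
  rcases lt_trichotomy (φ i + x) (φ j + y) with h1 | h1 | h1
  · exact Or.inl (Or.inl h1)
  · rcases lt_or_gt_of_ne h with h2 | h2
    · exact Or.inl (Or.inr ⟨h1, h2⟩)
    · exact Or.inr (Or.inr ⟨h1.symm, h2⟩)
  · exact Or.inr (Or.inl h1)

/-- Packet `i` (next position `p i`) waits for `j`, which precedes it on its next edge at the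
position `y` and has not left this edge. -/
structure Wait (φ : Fin k → ℕ) (p : Fin k → ℕ) (i j : Fin k) (y : ℕ) : Prop where
  same : G.Same j y i (p i)
  bef : Bef φ j y i (p i)
  notleft : p j < min (y + 2) (G.m j)

variable {G} {φ : Fin k → ℕ} {p : Fin k → ℕ}

lemma Wait.le {i j : Fin k} {y : ℕ} (h : G.Wait φ p i j y) : p j ≤ y + 1 := by
  have := h.notleft
  omega

lemma Wait.time {i j : Fin k} {y : ℕ} (h : G.Wait φ p i j y) : φ j + y ≤ φ i + p i := by
  rcases h.bef with h | h <;> omega

lemma Wait.time' {i j : Fin k} {y : ℕ} (h : G.Wait φ p i j y) : φ j + p j ≤ φ i + p i + 1 := by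
  have := h.time
  have := h.le
  omega

lemma no_two_cycle {i j : Fin k} {y z : ℕ} (h : G.Wait φ p i j y) (h' : G.Wait φ p j i z) :
    False := by
  have hs := h.same
  have hs' := h'.same
  -- `h : j at y ~ i at p i`, `h' : i at z ~ j at p j`
  have t1 := h.time
  have t2 := h'.time
  have l1 := h.le
  have l2 := h'.le
  -- positions
  have hy : y ≠ p j ∨ y = p j := (em _).symm
  rcases hy with hy | hy
  · -- y ≠ p j
    rcases Nat.lt_or_ge y (p j) with hlt | hge
    · -- O type : p j = y + 1
      have e1 : p j = y + 1 := by omega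
      rw [e1] at hs'
      -- i at z ~ j at (y+1), j at y ~ i at p i
      have := hs.next hs'.symm
      -- z = p i + 1
      have b1 := h.bef
      have b2 := h'.bef
      rw [e1] at b2
      unfold Bef at b1 b2
      rcases b1 with b1 | b1 <;> rcases b2 with b2 | b2
      · omega
      · omega
      · omega
      · exact absurd (b1.2.trans b2.2) (lt_irrefl _)
    · -- P type with y > p j
      have hgt : p j < y := by omega
      -- z : position on i;  p i ≤ z + 1
      rcases Nat.lt_or_ge z (p i) with hz | hz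
      · have e2 : p i = z + 1 := by omega
        rw [e2] at hs
        have := hs'.next hs.symm
        -- y = p j + 1
        have b1 := h.bef
        have b2 := h'.bef
        rw [e2] at b1
        unfold Bef at b1 b2
        rcases b1 with b1 | b1 <;> rcases b2 with b2 | b2
        · omega
        · omega
        · omega
        · exact absurd (b1.2.trans b2.2) (lt_irrefl _)
      · omega
  · -- y = p j : then z = p i by uniqueness
    subst hy
    have : z = p i := (hs'.symm.unique hs)
    subst this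
    have b1 := h.bef
    have b2 := h'.bef
    unfold Bef at b1 b2
    rcases b1 with b1 | b1 <;> rcases b2 with b2 | b2
    · omega
    · omega
    · omega
    · exact absurd (b1.2.trans b2.2) (lt_irrefl _)

lemma cyc_OOP {i j l : Fin k} {yj yl yi : ℕ} (h1 : G.Wait φ p i j yj) (h2 : G.Wait φ p j l yl)
    (h3 : G.Wait φ p l i yi) (o1 : p j = yj + 1) (o2 : p l = yl + 1) (o3 : p i ≤ yi) : False := by
  have hs1 := h1.same
  have hs2 := h2.same
  have hs3 := h3.same
  have t1 := h1.time
  have t2 := h2.time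
  have t3 := h3.time
  rw [o1] at hs2
  rw [o2] at hs3
  rcases Nat.eq_or_lt_of_le o3 with he | hlt
  · -- yi = p i
    rw [← he] at hs3
    have h4 := hs1.trans hs3
    exact h4.no_rev hs2.symm
  · rcases Nat.eq_or_lt_of_le (Nat.succ_le_of_lt hlt) with he | hlt2
    · -- yi = p i + 1
      have he' : yi = p i + 1 := by omega
      subst he'
      have e1 : G.v j (yj + 1) = G.v i (p i + 1) := hs1.2.2.2
      have e2 : G.v i (p i + 1) = G.v l (yl + 1) := hs3.2.2.1
      have e3 : G.v l (yl + 1) = G.v j (yj + 1 + 1) := hs2.2.2.2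
      have := G.inj j (yj + 1) (yj + 1 + 1) (by have := hs2.2.1; omega)
        (by have := hs2.2.1; omega) (e1.trans (e2.trans e3))
      omega
    · have b1 := h1.bef
      have b2 := h2.bef
      have b3 := h3.bef
      unfold Bef at b1 b2 b3
      have b1' : j < i := by
        rcases b1 with b | b
        · omega
        · exact b.2
      have b2' : l < j := by
        rcases b2 with b | b
        · omega
        · exact b.2
      have b3' : i < l := by
        rcases b3 with b | b
        · omega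
        · exact b.2
      exact absurd (b3'.trans (b2'.trans b1')) (lt_irrefl _)

lemma cyc_OPP {i j l : Fin k} {yj yl yi : ℕ} (h1 : G.Wait φ p i j yj) (h2 : G.Wait φ p j l yl)
    (h3 : G.Wait φ p l i yi) (o1 : p j = yj + 1) (o2 : p l ≤ yl) (o3 : p i ≤ yi) : False := by
  have hs1 := h1.same
  have hs2 := h2.same
  have hs3 := h3.same
  have t1 := h1.time
  have t2 := h2.time
  have t3 := h3.time
  have b1 := h1.bef
  have b2 := h2.bef
  have b3 := h3.bef
  unfold Bef at b1 b2 b3
  rw [o1] at hs2
  have key : j < i ∧ l < j ∧ i < l := by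
    rcases Nat.eq_or_lt_of_le o3 with he | hlt
    · rw [← he] at hs3
      have h4 := hs1.trans hs3
      have h5 := h4.next hs2.symm
      refine ⟨?_, ?_, ?_⟩
      · rcases b1 with b | b
        · omega
        · exact b.2
      · rcases b2 with b | b
        · omega
        · exact b.2
      · rcases b3 with b | b
        · omega
        · exact b.2
    · refine ⟨?_, ?_, ?_⟩
      · rcases b1 with b | b
        · omega
        · exact b.2
      · rcases b2 with b | b
        · omega
        · exact b.2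
      · rcases b3 with b | b
        · omega
        · exact b.2
  exact absurd (key.2.2.trans (key.2.1.trans key.1)) (lt_irrefl _)

lemma cyc_PPP {i j l : Fin k} {yj yl yi : ℕ} (h1 : G.Wait φ p i j yj) (h2 : G.Wait φ p j l yl)
    (h3 : G.Wait φ p l i yi) (o1 : p j ≤ yj) (o2 : p l ≤ yl) (o3 : p i ≤ yi) : False := by
  have t1 := h1.time
  have t2 := h2.time
  have t3 := h3.time
  have b1 := h1.bef
  have b2 := h2.bef
  have b3 := h3.bef
  unfold Bef at b1 b2 b3
  have key : j < i ∧ l < j ∧ i < l := by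
    refine ⟨?_, ?_, ?_⟩
    · rcases b1 with b | b
      · omega
      · exact b.2
    · rcases b2 with b | b
      · omega
      · exact b.2
    · rcases b3 with b | b
      · omega
      · exact b.2
  exact absurd (key.2.2.trans (key.2.1.trans key.1)) (lt_irrefl _)

/-- a waiting cycle of length three is a full ring -/
lemma cyc3 {i j l : Fin k} {yj yl yi : ℕ} (h1 : G.Wait φ p i j yj) (h2 : G.Wait φ p j l yl)
    (h3 : G.Wait φ p l i yi) : p j = yj + 1 ∧ p l = yl + 1 ∧ p i = yi + 1 := by
  have l1 := h1.le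
  have l2 := h2.le
  have l3 := h3.le
  by_contra hcon
  rcases Nat.lt_or_ge yj (p j) with a1 | a1 <;> rcases Nat.lt_or_ge yl (p l) with a2 | a2 <;>
    rcases Nat.lt_or_ge yi (p i) with a3 | a3
  · exact hcon ⟨by omega, by omega, by omega⟩
  · exact cyc_OOP h1 h2 h3 (by omega) (by omega) (by omega)
  · exact cyc_OOP h3 h1 h2 (by omega) (by omega) (by omega)
  · exact cyc_OPP h1 h2 h3 (by omega) (by omega) (by omega)
  · exact cyc_OOP h2 h3 h1 (by omega) (by omega) (by omega)
  · exact cyc_OPP h2 h3 h1 (by omega) (by omega) (by omega)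
  · exact cyc_OPP h3 h1 h2 (by omega) (by omega) (by omega)
  · exact cyc_PPP h1 h2 h3 (by omega) (by omega) (by omega)

/-- in a full ring of three, nobody else in the ring precedes on the same edge -/
lemma ring_no_extra {i j l : Fin k} {yj yl yi z : ℕ} (h1 : G.Wait φ p i j yj)
    (h2 : G.Wait φ p j l yl) (h3 : G.Wait φ p l i yi) (hz : G.Same l z i (p i)) : False := by
  obtain ⟨o1, o2, o3⟩ := cyc3 h1 h2 h3
  have hs2 := h2.same
  have hs3 := h3.same
  have hs1 := h1.same
  rw [o1] at hs2
  rw [o2] at hs3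
  rw [o3] at hs1 hz
  -- hs1 : j yj ~ i (yi+1); hs2 : l yl ~ j (yj+1); hs3 : i yi ~ l (yl+1)
  -- tail of edge z of l is v i (yi+1) = v l (yl + 2)
  have e1 : G.v l z = G.v i (yi + 1) := hz.2.2.1
  have e2 : G.v i (yi + 1) = G.v l (yl + 1 + 1) := hs3.2.2.2
  have hz' : z = yl + 1 + 1 := G.inj l z (yl + 1 + 1) hz.1.le (by have := hs3.2.1; omega)
    (e1.trans e2)
  have e3 : G.v l (z + 1) = G.v i (yi + 1 + 1) := hz.2.2.2
  have e4 : G.v i (yi + 1 + 1) = G.v j (yj + 1) := hs1.2.2.2.symm
  have e5 : G.v j (yj + 1) = G.v l yl := hs2.2.2.1.symm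
  have := G.inj l (z + 1) yl (by have := hz.1; omega) (by have := hs3.2.1; omega)
    (e3.trans (e4.trans e5))
  omega

lemma Wait.ne {i j : Fin k} {y : ℕ} (h : G.Wait φ p i j y) : i ≠ j := by
  rintro rfl
  have hs := h.same
  have hy : y = p i := G.inj i y (p i) hs.1.le hs.2.1.le hs.2.2.1
  have b := h.bef
  rw [hy] at b
  rcases b with b | b
  · omega
  · exact lt_irrefl _ b.2

variable (G φ p)

/-- Admissible sets of packets that move simultaneously at the macro time `τ`. -/
def Ok (τ : ℕ) (M : Finset (Fin k)) : Prop :=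
  ∀ i ∈ M, p i < G.m i ∧ φ i + p i ≤ τ ∧
    ∀ j y, G.Same j y i (p i) → Bef φ j y i (p i) →
      min (y + 2) (G.m j) ≤ p j ∨ (p j = y + 1 ∧ y + 2 ≤ G.m j ∧ j ∈ M)

open Classical in
/-- The largest admissible set. -/
noncomputable def Ms (τ : ℕ) : Finset (Fin k) :=
  Finset.univ.filter fun i => ∃ M, Ok G φ p τ M ∧ i ∈ M

lemma mem_Ms {τ : ℕ} {i : Fin k} : i ∈ Ms G φ p τ ↔ ∃ M, Ok G φ p τ M ∧ i ∈ M := by
  classical
  simp [Ms]

lemma Ok_Ms (τ : ℕ) : Ok G φ p τ (Ms G φ p τ) := by
  intro i hi
  obtain ⟨M, hM, hiM⟩ := (mem_Ms G φ p).mp hi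
  obtain ⟨h1, h2, h3⟩ := hM i hiM
  refine ⟨h1, h2, ?_⟩
  intro j y hs hb
  rcases h3 j y hs hb with h | ⟨h, h', h''⟩
  · exact Or.inl h
  · exact Or.inr ⟨h, h', (mem_Ms G φ p).mpr ⟨M, hM, h''⟩⟩

variable {G φ p}

/-- a packet that could move but is not in the largest admissible set waits for somebody -/
lemma exists_wait {τ : ℕ} {i : Fin k} (hi : i ∉ Ms G φ p τ) (h1 : p i < G.m i)
    (h2 : φ i + p i ≤ τ) :
    ∃ j y, G.Wait φ p i j y ∧ ¬ (p j = y + 1 ∧ y + 2 ≤ G.m j ∧ j ∈ Ms G φ p τ) := by
  classical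
  by_contra hcon
  push Not at hcon
  apply hi
  rw [mem_Ms]
  refine ⟨insert i (Ms G φ p τ), ?_, Finset.mem_insert_self _ _⟩
  intro a ha
  rcases Finset.mem_insert.mp ha with rfl | ha
  · refine ⟨h1, h2, ?_⟩
    intro j y hs hb
    by_cases hl : min (y + 2) (G.m j) ≤ p j
    · exact Or.inl hl
    · obtain ⟨c1, c2, c3⟩ := hcon j y ⟨hs, hb, not_le.mp hl⟩
      exact Or.inr ⟨c1, c2, Finset.mem_insert_of_mem c3⟩
  · obtain ⟨g1, g2, g3⟩ := Ok_Ms G φ p τ a ha
    refine ⟨g1, g2, ?_⟩
    intro j y hs hb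
    rcases g3 j y hs hb with h | ⟨h, h', h''⟩
    · exact Or.inl h
    · exact Or.inr ⟨h, h', Finset.mem_insert_of_mem h''⟩

variable (G φ)

/-- Adjacency inside the window `[s, s+4]` of nominal times. -/
def Adj (s : ℕ) (a b : Fin k) : Prop :=
  a ≠ b ∧ ∃ x y, G.Same a x b y ∧ s ≤ φ a + x ∧ φ a + x ≤ s + 4 ∧ s ≤ φ b + y ∧ φ b + y ≤ s + 4

variable {G φ}

/-- the condition for one member of a full ring -/
lemma ring_ok {i j l : Fin k} {yj yl yi : ℕ} (h1 : G.Wait φ p i j yj)
    (h2 : G.Wait φ p j l yl) (h3 : G.Wait φ p l i yi)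
    (hA : ∀ z w, G.Wait φ p i z w → z = i ∨ z = j ∨ z = l)
    (M : Finset (Fin k)) (hM : j ∈ M) :
    ∀ z w, G.Same z w i (p i) → Bef φ z w i (p i) →
      min (w + 2) (G.m z) ≤ p z ∨ (p z = w + 1 ∧ w + 2 ≤ G.m z ∧ z ∈ M) := by
  intro z w hs hb
  by_cases hl : min (w + 2) (G.m z) ≤ p z
  · exact Or.inl hl
  · have hw : G.Wait φ p i z w := ⟨hs, hb, not_le.mp hl⟩
    rcases hA z w hw with rfl | rfl | rfl
    · exact absurd rfl hw.ne
    · have hwy : w = yj := hs.symm.unique h1.same.symm
      subst hwy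
      obtain ⟨o1, _, _⟩ := cyc3 h1 h2 h3
      refine Or.inr ⟨o1, ?_, hM⟩
      have := h1.notleft
      omega
    · exact absurd hs (fun h => ring_no_extra h1 h2 h3 h)

/-- Progress: in a cluster with at most three packets, if one packet is late by at least two
macro steps, then some packet of the cluster moves. -/
lemma progress {τ : ℕ} (H : ∀ i x, x < G.m i → φ i + x + 3 ≤ τ → x + 1 ≤ p i)
    (A : Finset (Fin k)) (hA3 : A.card ≤ 3)
    (hcl : ∀ a ∈ A, ∀ b, Adj G φ (τ - 3) a b → b ∈ A)
    {i : Fin k} (hiA : i ∈ A) (hi1 : p i < G.m i) (hi2 : φ i + p i + 2 ≤ τ) :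
    ∃ a ∈ A, a ∈ Ms G φ p τ := by
  classical
  by_contra hcon
  push Not at hcon
  -- adjacency of waiting packets
  have hadj : ∀ a ∈ A, φ a + p a ≤ τ → ∀ b y, G.Wait φ p a b y → b ∈ A := by
    intro a ha hta b y hw
    apply hcl a ha b
    have hs := hw.same
    have hpb : p b < G.m b := by
      have := hw.notleft
      omega
    have hb1 : τ < φ b + p b + 3 := by
      by_contra hc
      have := H b (p b) hpb (not_lt.mp hc)
      omega
    have ha1 : τ < φ a + p a + 3 := by
      by_contra hc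
      have := H a (p a) hs.2.1 (not_lt.mp hc)
      omega
    have t := hw.time
    have l := hw.le
    exact ⟨hw.ne, p a, y, hs.symm, by omega, by omega, by omega, by omega⟩
  obtain ⟨j, yj, w1, _⟩ := exists_wait (hcon i hiA) hi1 (by omega)
  have hjA := hadj i hiA (by omega) j yj w1
  have tj := w1.time'
  have hj1 : p j < G.m j := by have := w1.notleft; omega
  obtain ⟨l, yl, w2, _⟩ := exists_wait (hcon j hjA) hj1 (by omega)
  have hlA := hadj j hjA (by omega) l yl w2
  have tl := w2.time'
  have hl1 : p l < G.m l := by have := w2.notleft; omega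
  obtain ⟨z, yz, w3, _⟩ := exists_wait (hcon l hlA) hl1 (by omega)
  have hzA := hadj l hlA (by omega) z yz w3
  have hij := w1.ne
  have hjl := w2.ne
  have hil : i ≠ l := by
    rintro rfl
    exact no_two_cycle w1 w2
  have hsub : ({i, j, l} : Finset (Fin k)) ⊆ A := by
    intro a ha
    simp only [Finset.mem_insert, Finset.mem_singleton] at ha
    rcases ha with rfl | rfl | rfl <;> assumption
  have hcard : ({i, j, l} : Finset (Fin k)).card = 3 := by
    rw [Finset.card_insert_of_notMem, Finset.card_insert_of_notMem, Finset.card_singleton]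
    · simpa using hjl
    · simp [hij, hil]
  have hAeq : ({i, j, l} : Finset (Fin k)) = A :=
    Finset.eq_of_subset_of_card_le hsub (by omega)
  have hmem : ∀ z ∈ A, z = i ∨ z = j ∨ z = l := by
    intro z hz
    rw [← hAeq] at hz
    simpa using hz
  have hzi : z = i := by
    rcases hmem z hzA with h | h | h
    · exact h
    · exact absurd w3 (fun w3 => by rw [h] at w3; exact no_two_cycle w2 w3)
    · exact absurd h.symm w3.ne
  subst hzi
  -- full ring : it can rotate
  apply hcon z hiA
  rw [mem_Ms]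
  refine ⟨Ms G φ p τ ∪ {z, j, l}, ?_, by simp⟩
  intro a ha
  rcases Finset.mem_union.mp ha with ha | ha
  · obtain ⟨g1, g2, g3⟩ := Ok_Ms G φ p τ a ha
    refine ⟨g1, g2, ?_⟩
    intro j y hs hb
    rcases g3 j y hs hb with h | ⟨h, h', h''⟩
    · exact Or.inl h
    · exact Or.inr ⟨h, h', Finset.mem_union_left _ h''⟩
  · simp only [Finset.mem_insert, Finset.mem_singleton] at ha
    rcases ha with rfl | rfl | rfl
    · refine ⟨hi1, by omega, ring_ok w1 w2 w3 ?_ _ (by simp)⟩
      intro z w hw
      exact hmem z (hadj _ hiA (by omega) z w hw)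
    · refine ⟨hj1, by omega, ring_ok w2 w3 w1 ?_ _ (by simp)⟩
      intro z w hw
      rcases hmem z (hadj _ hjA (by omega) z w hw) with h | h | h
      · exact Or.inr (Or.inr h)
      · exact Or.inl h
      · exact Or.inr (Or.inl h)
    · refine ⟨hl1, by omega, ring_ok w3 w1 w2 ?_ _ (by simp)⟩
      intro z w hw
      rcases hmem z (hadj _ hlA (by omega) z w hw) with h | h | h
      · exact Or.inr (Or.inl h)
      · exact Or.inr (Or.inr h)
      · exact Or.inl h

section Sim

variable (G φ)

/-- The state of the simulation after `n` micro steps; a macro step consists of 10 micro steps. -/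
noncomputable def st : ℕ → Fin k → ℕ
  | 0 => fun _ => 0
  | n + 1 => open Classical in
      fun i => st n i + if i ∈ Ms G φ (st n) (n / 10) then 1 else 0

lemma st_zero (i : Fin k) : st G φ 0 i = 0 := rfl

open Classical in
lemma st_succ (n : ℕ) (i : Fin k) :
    st G φ (n + 1) i = st G φ n i + if i ∈ Ms G φ (st G φ n) (n / 10) then 1 else 0 := rfl

lemma st_mono_succ (n : ℕ) (i : Fin k) : st G φ n i ≤ st G φ (n + 1) i := by
  rw [st_succ]
  omega

lemma st_mono (i : Fin k) : Monotone fun n => st G φ n i :=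
  monotone_nat_of_le_succ fun n => st_mono_succ G φ n i

lemma st_succ_le (n : ℕ) (i : Fin k) : st G φ (n + 1) i ≤ st G φ n i + 1 := by
  rw [st_succ]
  split_ifs <;> omega

/-- If the state of `i` increases at step `n`, then `i` is in the moving set. -/
lemma mem_of_lt {n : ℕ} {i : Fin k} (h : st G φ n i < st G φ (n + 1) i) :
    i ∈ Ms G φ (st G φ n) (n / 10) := by
  rw [st_succ] at h
  by_contra hc
  simp [hc] at h

/-- The crossing time. -/
noncomputable def tc (i : Fin k) (x : ℕ) : ℕ := sInf {n | x + 1 ≤ st G φ (n + 1) i}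

lemma tc_le {i : Fin k} {x n : ℕ} (h : x + 1 ≤ st G φ (n + 1) i) : tc G φ i x ≤ n :=
  Nat.sInf_le h

lemma tc_spec {i : Fin k} {x n : ℕ} (h : x + 1 ≤ st G φ (n + 1) i) :
    st G φ (tc G φ i x) i = x ∧
      i ∈ Ms G φ (st G φ (tc G φ i x)) (tc G φ i x / 10) := by
  have hmem : tc G φ i x ∈ {n | x + 1 ≤ st G φ (n + 1) i} := Nat.sInf_mem ⟨n, h⟩
  have h1 : x + 1 ≤ st G φ (tc G φ i x + 1) i := hmem
  have h2 : st G φ (tc G φ i x) i ≤ x := by
    rcases Nat.eq_zero_or_pos (tc G φ i x) with h0 | h0
    · rw [h0, st_zero]; omega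
    · by_contra hc
      push Not at hc
      have h3 : tc G φ i x - 1 ∈ {n | x + 1 ≤ st G φ (n + 1) i} := by
        show x + 1 ≤ st G φ (tc G φ i x - 1 + 1) i
        rw [Nat.sub_add_cancel h0]
        exact hc
      have := Nat.sInf_le h3
      change tc G φ i x ≤ _ at this
      omega
  have h3 := st_succ_le G φ (tc G φ i x) i
  refine ⟨by omega, mem_of_lt G φ (by omega)⟩

/-- Everybody who is late by three macro steps has moved on. -/
lemma live (hcl : ∀ s i, ∃ A : Finset (Fin k), i ∈ A ∧ A.card ≤ 3 ∧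
    ∀ a ∈ A, ∀ b, Adj G φ s a b → b ∈ A) (τ : ℕ) :
    ∀ i x, x < G.m i → φ i + x + 3 ≤ τ → x + 1 ≤ st G φ (10 * τ) i := by
  classical
  induction τ with
  | zero => intro i x _ h; omega
  | succ τ ih =>
    intro i x hx hτ
    by_contra hcon
    have hlt : st G φ (10 * (τ + 1)) i ≤ x := by omega
    -- late in the whole macro step
    obtain ⟨A, hiA, hA3, hA⟩ := hcl (τ - 3) i
    have hH : ∀ n, 10 * τ ≤ n → ∀ i x, x < G.m i → φ i + x + 3 ≤ τ → x + 1 ≤ st G φ n i := by
      intro n hn i x hx h
      exact (ih i x hx h).trans (st_mono G φ i hn)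
    have hprog : ∀ n, 10 * τ ≤ n → n < 10 * (τ + 1) →
        ∃ a ∈ A, a ∈ Ms G φ (st G φ n) (n / 10) := by
      intro n hn hn'
      have hdiv : n / 10 = τ := by omega
      rw [hdiv]
      have hle : st G φ n i ≤ x := (st_mono G φ i hn'.le).trans hlt
      exact progress (hH n hn) A hA3 hA hiA (by omega) (by omega)
    have hsum : ∀ r, r ≤ 10 → ∑ a ∈ A, st G φ (10 * τ) a + r ≤ ∑ a ∈ A, st G φ (10 * τ + r) a := by
      intro r
      induction r with
      | zero => intro _; simp
      | succ r ihr =>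
        intro hr
        have h1 := ihr (by omega)
        obtain ⟨a, haA, ha⟩ := hprog (10 * τ + r) (by omega) (by omega)
        have h2 : ∑ a ∈ A, st G φ (10 * τ + r) a < ∑ a ∈ A, st G φ (10 * τ + r + 1) a := by
          apply Finset.sum_lt_sum
          · intro b _
            exact st_mono_succ G φ _ b
          · refine ⟨a, haA, ?_⟩
            rw [st_succ, if_pos ha]
            omega
        have h3 : 10 * τ + (r + 1) = 10 * τ + r + 1 := by ring
        rw [h3]
        omega
    have h10 := hsum 10 le_rfl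
    -- but every packet moves at most three times in one macro step
    have hthree : ∀ a ∈ A, st G φ (10 * τ + 10) a ≤ st G φ (10 * τ) a + 3 := by
      intro a _
      by_contra hc
      push Not at hc
      -- the step in which the state passes from p0 + 3 to p0 + 4
      set p0 := st G φ (10 * τ) a with hp0
      have hex : p0 + 3 + 1 ≤ st G φ (10 * τ + 9 + 1) a := by
        have : 10 * τ + 9 + 1 = 10 * τ + 10 := by ring
        rw [this]
        omega
      obtain ⟨s1, s2⟩ := tc_spec G φ hex
      have hn1 : 10 * τ ≤ tc G φ a (p0 + 3) := by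
        by_contra hcc
        have hmo := st_mono G φ a (show tc G φ a (p0 + 3) ≤ 10 * τ by omega)
        simp only at hmo
        omega
      have hn2 : tc G φ a (p0 + 3) ≤ 10 * τ + 9 := tc_le G φ hex
      have hdiv : tc G φ a (p0 + 3) / 10 = τ := by omega
      rw [hdiv] at s2
      obtain ⟨g1, g2, _⟩ := Ok_Ms G φ (st G φ (tc G φ a (p0 + 3))) τ a s2
      rw [s1] at g1 g2
      have := ih a p0 (by omega) (by omega)
      omega
    have hbound : ∑ a ∈ A, st G φ (10 * τ + 10) a ≤ ∑ a ∈ A, st G φ (10 * τ) a + 9 := by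
      calc ∑ a ∈ A, st G φ (10 * τ + 10) a ≤ ∑ a ∈ A, (st G φ (10 * τ) a + 3) :=
            Finset.sum_le_sum hthree
        _ = ∑ a ∈ A, st G φ (10 * τ) a + A.card * 3 := by
            rw [Finset.sum_add_distrib]; simp
        _ ≤ _ := by omega
    omega

variable {G φ}

/-- The deterministic statement. -/
theorem sim (hcl : ∀ s i, ∃ A : Finset (Fin k), i ∈ A ∧ A.card ≤ 3 ∧
    ∀ a ∈ A, ∀ b, Adj G φ s a b → b ∈ A) :
    ∃ t : Fin k → ℕ → ℕ,
      (∀ i x, x + 1 < G.m i → t i x < t i (x + 1)) ∧
      (∀ i x, x < G.m i → t i x ≤ 10 * (φ i + x + 3)) ∧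
      (∀ i j x y, i ≠ j → G.Same i x j y → t i x ≠ t j y) ∧
      (∀ i j x y, i ≠ j → G.Same i x j y → x + 1 < G.m i → y + 1 < G.m j →
        t i (x + 1) ≤ t j y ∨ t j (y + 1) ≤ t i x) := by
  classical
  have hreach : ∀ i x, x < G.m i → x + 1 ≤ st G φ (10 * (φ i + x + 3) + 1) i := by
    intro i x hx
    exact (live G φ hcl (φ i + x + 3) i x hx le_rfl).trans (st_mono_succ G φ _ i)
  have hmono : ∀ i x, x + 1 < G.m i → tc G φ i x < tc G φ i (x + 1) := by
    intro i x hx
    obtain ⟨s1, s2⟩ := tc_spec G φ (hreach i (x + 1) hx)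
    obtain ⟨r1, r2⟩ := tc_spec G φ (hreach i x (by omega))
    by_contra hc
    push Not at hc
    have := st_mono G φ i hc
    simp only at this
    omega
  -- safety
  have hsafe : ∀ i j x y, G.Same j y i x → Bef φ j y i x →
      (y + 1 < G.m j → tc G φ j (y + 1) ≤ tc G φ i x) ∧ tc G φ j y < tc G φ i x := by
    intro i j x y hs hb
    obtain ⟨s1, s2⟩ := tc_spec G φ (hreach i x hs.2.1)
    obtain ⟨g1, g2, g3⟩ := Ok_Ms G φ (st G φ (tc G φ i x)) _ i s2
    have hs' : G.Same j y i (st G φ (tc G φ i x) i) := by rw [s1]; exact hs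
    have hb' : Bef φ j y i (st G φ (tc G φ i x) i) := by rw [s1]; exact hb
    have hfirst : y + 1 < G.m j → tc G φ j (y + 1) ≤ tc G φ i x := by
      intro hy
      apply tc_le
      rcases g3 j y hs' hb' with h | ⟨h, h', h''⟩
      · have := st_mono_succ G φ (tc G φ i x) j
        omega
      · rw [st_succ, if_pos h'', h]
    refine ⟨hfirst, ?_⟩
    rcases Nat.lt_or_ge (y + 1) (G.m j) with hy | hy
    · exact (hmono j y hy).trans_le (hfirst hy)
    · have hyj : y + 1 = G.m j := by have := hs.1; omega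
      rcases g3 j y hs' hb' with h | ⟨h, h', h''⟩
      · have h1 : y + 1 ≤ st G φ (tc G φ i x) j := by omega
        rcases Nat.eq_zero_or_pos (tc G φ i x) with h0 | h0
        · rw [h0, st_zero] at h1
          omega
        · have h2 : tc G φ i x = (tc G φ i x - 1) + 1 := by omega
          rw [h2] at h1
          have := tc_le G φ h1
          omega
      · omega
  refine ⟨tc G φ, hmono, ?_, ?_, ?_⟩
  · intro i x hx
    exact tc_le G φ (hreach i x hx)
  · intro i j x y hij hs
    rcases Bef_total φ x y hij with hb | hb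
    · exact (hsafe j i y x hs hb).2.ne
    · exact (hsafe i j x y hs.symm hb).2.ne'
  · intro i j x y hij hs hx hy
    rcases Bef_total φ x y hij with hb | hb
    · exact Or.inl ((hsafe j i y x hs hb).1 hx)
    · exact Or.inr ((hsafe i j x y hs.symm hb).1 hy)

end Sim

end PD

end Pool.Agent.H94
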