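import Mathlib
import Pool.Agent.Lib.LLL94
import Pool.Agent.H94.Sim

/-!
Choice of the starting phases by the local lemma: no four packets form a collision cluster.
-/

set_option autoImplicit false

namespace Pool.Agent.H94

open Finset Pool.Agent.LLL94

/-! ### Connected finite sets for a relation -/

section Conn

variable {α : Type*} [DecidableEq α] (R : α → α → Prop)

/-- Connectedness of a finite set for the symmetric closure of `R`. -/
def Conn (X : Finset α) : Prop :=
  ∀ Y ⊆ X, Y.Nonempty → Y ≠ X → ∃ a ∈ Y, ∃ b ∈ X \ Y, R a b ∨ R b a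

lemma Conn_singleton (a : α) : Conn R {a} := by
  intro Y hY hne hne'
  exfalso
  apply hne'
  rcases Finset.subset_singleton_iff.mp hY with h | h
  · rw [h] at hne
    exact absurd hne Finset.not_nonempty_empty
  · exact h

variable {R}

lemma Conn.insert {X : Finset α} (hX : Conn R X) {a b : α} (ha : a ∈ X) (hab : R a b) :
    Conn R (insert b X) := by
  by_cases hb : b ∈ X
  · rw [Finset.insert_eq_of_mem hb]; exact hX
  intro Y hY hne hne'
  have hba : b ≠ a := by rintro rfl; exact hb ha
  by_cases hbY : b ∈ Y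
  · by_cases hY' : (Y.erase b).Nonempty
    · have hsub : Y.erase b ⊆ X := by
        intro c hc
        have h1 := Finset.mem_erase.mp hc
        rcases Finset.mem_insert.mp (hY h1.2) with h | h
        · exact absurd h h1.1
        · exact h
      have hneX : Y.erase b ≠ X := by
        intro h
        apply hne'
        rw [← h, Finset.insert_erase hbY]
      obtain ⟨c, hc, e, he, hce⟩ := hX _ hsub hY' hneX
      refine ⟨c, Finset.mem_of_mem_erase hc, e, ?_, hce⟩
      rw [Finset.mem_sdiff] at he ⊢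
      refine ⟨Finset.mem_insert_of_mem he.1, ?_⟩
      intro h
      apply he.2
      rw [Finset.mem_erase]
      refine ⟨?_, h⟩
      rintro rfl
      exact hb he.1
    · have hYb : Y = {b} := by
        rw [Finset.not_nonempty_iff_eq_empty] at hY'
        rw [← Finset.insert_erase hbY, hY']
        rfl
      refine ⟨b, hbY, a, ?_, Or.inr hab⟩
      rw [Finset.mem_sdiff, hYb, Finset.mem_singleton]
      exact ⟨Finset.mem_insert_of_mem ha, hba.symm⟩
  · have hsub : Y ⊆ X := by
      intro c hc
      rcases Finset.mem_insert.mp (hY hc) with h | h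
      · rw [h] at hc; exact absurd hc hbY
      · exact h
    by_cases hYX : Y = X
    · refine ⟨a, by rw [hYX]; exact ha, b, ?_, Or.inl hab⟩
      rw [Finset.mem_sdiff]
      exact ⟨Finset.mem_insert_self _ _, hbY⟩
    · obtain ⟨c, hc, e, he, hce⟩ := hX Y hsub hne hYX
      refine ⟨c, hc, e, ?_, hce⟩
      rw [Finset.mem_sdiff] at he ⊢
      exact ⟨Finset.mem_insert_of_mem he.1, he.2⟩

end Conn

namespace PD

variable {k : ℕ} (G : PD k)

/-- Adjacency of nodes (packet, position). -/
def AdjN (n n' : Fin k × ℕ) : Prop :=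
  n.1 ≠ n'.1 ∧ ∃ x y, G.Same n.1 x n'.1 y ∧ x ≤ n.2 + 4 ∧ n.2 ≤ x + 4 ∧ y ≤ n'.2 + 4 ∧ n'.2 ≤ y + 4

variable {G}

lemma AdjN.symm {n n' : Fin k × ℕ} (h : G.AdjN n n') : G.AdjN n' n := by
  obtain ⟨h1, x, y, h2, h3, h4, h5, h6⟩ := h
  exact ⟨h1.symm, y, x, h2.symm, h5, h6, h3, h4⟩

variable (G)

open Classical in
/-- The packets that use the edge of packet `i` at position `x`. -/
noncomputable def users (i : Fin k) (x : ℕ) : Finset (Fin k) :=
  Finset.univ.filter fun j => ∃ y, G.Same i x j y

open Classical in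
/-- The position of the shared edge. -/
noncomputable def posn (i : Fin k) (x : ℕ) (j : Fin k) : ℕ :=
  if h : ∃ y, G.Same i x j y then h.choose else 0

lemma posn_eq {i : Fin k} {x : ℕ} {j : Fin k} {y : ℕ} (h : G.Same i x j y) :
    G.posn i x j = y := by
  classical
  have hex : ∃ y, G.Same i x j y := ⟨y, h⟩
  unfold posn
  rw [dif_pos hex]
  exact hex.choose_spec.unique h

/-- A finite set containing all neighbours of a node. -/
noncomputable def Nb (n : Fin k × ℕ) : Finset (Fin k × ℕ) :=
  (Finset.Icc (n.2 - 4) (n.2 + 4)).biUnion fun x =>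
    (G.users n.1 x).biUnion fun j =>
      (Finset.Icc (G.posn n.1 x j - 4) (G.posn n.1 x j + 4)).image fun y => (j, y)

lemma mem_Nb {n n' : Fin k × ℕ} (h : G.AdjN n n') : n' ∈ G.Nb n := by
  classical
  obtain ⟨h1, x, y, h2, h3, h4, h5, h6⟩ := h
  unfold Nb
  rw [Finset.mem_biUnion]
  refine ⟨x, by rw [Finset.mem_Icc]; omega, ?_⟩
  rw [Finset.mem_biUnion]
  refine ⟨n'.1, ?_, ?_⟩
  · unfold users
    rw [Finset.mem_filter]
    exact ⟨Finset.mem_univ _, y, h2⟩
  · rw [Finset.mem_image]
    refine ⟨n'.2, ?_, rfl⟩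
    rw [G.posn_eq h2, Finset.mem_Icc]
    omega

lemma card_Nb {C : ℕ} (hC : ∀ i x, x < G.m i → (G.users i x).card ≤ C) (n : Fin k × ℕ) :
    (G.Nb n).card ≤ 81 * C := by
  classical
  have hC' : ∀ i x, (G.users i x).card ≤ C := by
    intro i x
    by_cases hx : x < G.m i
    · exact hC i x hx
    · have : G.users i x = ∅ := by
        unfold users
        rw [Finset.filter_eq_empty_iff]
        rintro j _ ⟨y, hy⟩
        exact hx hy.1
      rw [this]
      simp
  unfold Nb
  calc _ ≤ (Finset.Icc (n.2 - 4) (n.2 + 4)).card * (C * 9) := by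
        apply Finset.card_biUnion_le_card_mul
        intro x _
        calc _ ≤ (G.users n.1 x).card * 9 := by
              apply Finset.card_biUnion_le_card_mul
              intro j _
              refine Finset.card_image_le.trans ?_
              rw [Nat.card_Icc]
              omega
          _ ≤ C * 9 := Nat.mul_le_mul_right _ (hC' _ _)
    _ ≤ 9 * (C * 9) := by
        apply Nat.mul_le_mul_right
        rw [Nat.card_Icc]
        omega
    _ = 81 * C := by ring

/-- Growth structures starting at the packet `p`. -/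
noncomputable def Gr (D : ℕ) (p : Fin k) : Finset (Finset (Fin k × ℕ)) :=
  (Finset.range D).biUnion fun x =>
    (G.Nb (p, x)).biUnion fun n1 =>
      (G.Nb (p, x) ∪ G.Nb n1).biUnion fun n2 =>
        (G.Nb (p, x) ∪ G.Nb n1 ∪ G.Nb n2).image fun n3 => {(p, x), n1, n2, n3}

lemma card_Gr {C : ℕ} (hC : ∀ i x, x < G.m i → (G.users i x).card ≤ C) (D : ℕ) (p : Fin k) :
    (G.Gr D p).card ≤ D * (81 * C * (2 * (81 * C) * (3 * (81 * C)))) := by
  classical
  have hN := G.card_Nb hC
  unfold Gr
  calc _ ≤ (Finset.range D).card * (81 * C * (2 * (81 * C) * (3 * (81 * C)))) := by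
        apply Finset.card_biUnion_le_card_mul
        intro x _
        calc _ ≤ (G.Nb (p, x)).card * (2 * (81 * C) * (3 * (81 * C))) := by
              apply Finset.card_biUnion_le_card_mul
              intro n1 _
              calc _ ≤ (G.Nb (p, x) ∪ G.Nb n1).card * (3 * (81 * C)) := by
                    apply Finset.card_biUnion_le_card_mul
                    intro n2 _
                    refine Finset.card_image_le.trans ?_
                    refine (Finset.card_union_le _ _).trans ?_
                    have h1 := Finset.card_union_le (G.Nb (p, x)) (G.Nb n1)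
                    have h2 := hN (p, x)
                    have h3 := hN n1
                    have h4 := hN n2
                    omega
                _ ≤ 2 * (81 * C) * (3 * (81 * C)) := by
                    apply Nat.mul_le_mul_right
                    have h1 := Finset.card_union_le (G.Nb (p, x)) (G.Nb n1)
                    have h2 := hN (p, x)
                    have h3 := hN n1
                    omega
          _ ≤ 81 * C * (2 * (81 * C) * (3 * (81 * C))) := Nat.mul_le_mul_right _ (hN _)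
    _ = _ := by rw [Finset.card_range]

/-- The potential clusters of four packets. -/
def Pot (D : ℕ) (S : Finset (Fin k × ℕ)) : Prop :=
  S.card = 4 ∧ (∀ n ∈ S, n.2 < D) ∧ (∀ n ∈ S, ∀ n' ∈ S, n.1 = n'.1 → n = n') ∧
    Conn G.AdjN S

lemma Pot_mem_Gr {D : ℕ} {S : Finset (Fin k × ℕ)} (hS : G.Pot D S) {n0 : Fin k × ℕ}
    (h0 : n0 ∈ S) : S ∈ G.Gr D n0.1 := by
  classical
  obtain ⟨hc, hD, _, hconn⟩ := hS
  have key : ∀ Y ⊆ S, Y.Nonempty → Y ≠ S → ∃ a ∈ Y, ∃ b ∈ S \ Y, G.AdjN a b := by
    intro Y h1 h2 h3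
    obtain ⟨a, ha, b, hb, hab⟩ := hconn Y h1 h2 h3
    exact ⟨a, ha, b, hb, hab.elim id AdjN.symm⟩
  have hcard : ∀ Y : Finset (Fin k × ℕ), Y.card < 4 → Y ≠ S := by
    rintro Y hY rfl
    omega
  -- first neighbour
  have hs0 : ({n0} : Finset (Fin k × ℕ)) ⊆ S := by simpa using h0
  obtain ⟨a, ha, n1, h1, hadj1⟩ := key {n0} hs0 (by simp) (hcard _ (by simp))
  rw [Finset.mem_singleton] at ha
  subst ha
  rw [Finset.mem_sdiff] at h1
  have hs1 : ({a, n1} : Finset (Fin k × ℕ)) ⊆ S := by
    intro c hc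
    simp only [Finset.mem_insert, Finset.mem_singleton] at hc
    rcases hc with rfl | rfl
    · exact h0
    · exact h1.1
  obtain ⟨b, hb, n2, h2, hadj2⟩ := key {a, n1} hs1 (by simp)
    (hcard _ (lt_of_le_of_lt Finset.card_le_two (by norm_num)))
  rw [Finset.mem_sdiff] at h2
  have hs2 : ({a, n1, n2} : Finset (Fin k × ℕ)) ⊆ S := by
    intro c hc
    simp only [Finset.mem_insert, Finset.mem_singleton] at hc
    rcases hc with rfl | rfl | rfl
    · exact h0
    · exact h1.1
    · exact h2.1
  obtain ⟨c, hc', n3, h3, hadj3⟩ := key {a, n1, n2} hs2 (by simp)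
    (hcard _ (lt_of_le_of_lt Finset.card_le_three (by norm_num)))
  rw [Finset.mem_sdiff] at h3
  have hSeq : S = {a, n1, n2, n3} := by
    symm
    apply Finset.eq_of_subset_of_card_le
    · intro c hc
      simp only [Finset.mem_insert, Finset.mem_singleton] at hc
      rcases hc with rfl | rfl | rfl | rfl
      · exact h0
      · exact h1.1
      · exact h2.1
      · exact h3.1
    · rw [hc]
      have h1' := h1.2
      have h2' := h2.2
      have h3' := h3.2
      simp only [Finset.mem_singleton] at h1'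
      simp only [Finset.mem_insert, Finset.mem_singleton, not_or] at h2' h3'
      rw [Finset.card_insert_of_notMem, Finset.card_insert_of_notMem,
        Finset.card_insert_of_notMem, Finset.card_singleton]
      · simpa using fun h => h3'.2.2 h.symm
      · simp only [Finset.mem_insert, Finset.mem_singleton, not_or]
        exact ⟨fun h => h2'.2 h.symm, fun h => h3'.2.1 h.symm⟩
      · simp only [Finset.mem_insert, Finset.mem_singleton, not_or]
        exact ⟨fun h => h1' h.symm, fun h => h2'.1 h.symm, fun h => h3'.1 h.symm⟩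
  unfold Gr
  rw [Finset.mem_biUnion]
  refine ⟨a.2, Finset.mem_range.mpr (hD a h0), ?_⟩
  rw [Finset.mem_biUnion]
  refine ⟨n1, G.mem_Nb hadj1, ?_⟩
  rw [Finset.mem_biUnion]
  refine ⟨n2, ?_, ?_⟩
  · simp only [Finset.mem_insert, Finset.mem_singleton] at hb
    rw [Finset.mem_union]
    rcases hb with rfl | rfl
    · exact Or.inl (G.mem_Nb hadj2)
    · exact Or.inr (G.mem_Nb hadj2)
  · rw [Finset.mem_image]
    refine ⟨n3, ?_, hSeq.symm⟩
    simp only [Finset.mem_insert, Finset.mem_singleton] at hc'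
    rw [Finset.mem_union, Finset.mem_union]
    rcases hc' with rfl | rfl | rfl
    · exact Or.inl (Or.inl (G.mem_Nb hadj3))
    · exact Or.inl (Or.inr (G.mem_Nb hadj3))
    · exact Or.inr (G.mem_Nb hadj3)

/-- Existence of good phases. -/
theorem exists_phases {D C R : ℕ} (hD : 1 ≤ D) (hC1 : 1 ≤ C) (hm : ∀ i, G.m i ≤ D)
    (hC : ∀ i x, x < G.m i → (G.users i x).card ≤ C)
    (hR : 4 * (4 * (D * (81 * C * (2 * (81 * C) * (3 * (81 * C)))))) * 729 ≤ R ^ 3) :
    ∃ φ : Fin k → ℕ, (∀ i, φ i < R) ∧
      ∀ s i, ∃ A : Finset (Fin k), i ∈ A ∧ A.card ≤ 3 ∧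
        ∀ a ∈ A, ∀ b, Adj G φ s a b → b ∈ A := by
  classical
  set Δ := D * (81 * C * (2 * (81 * C) * (3 * (81 * C)))) with hΔ
  have hΔ1 : 1 ≤ Δ := by
    rw [hΔ]
    have : 1 ≤ 81 * C := by omega
    have h2 : 1 ≤ 81 * C * (2 * (81 * C) * (3 * (81 * C))) := by
      apply Nat.one_le_iff_ne_zero.mpr
      positivity
    exact Nat.one_le_iff_ne_zero.mpr (Nat.mul_ne_zero (by omega) (by omega))
  have hRpos : 0 < R := by
    rcases Nat.eq_zero_or_pos R with h | h
    · rw [h] at hR
      omega
    · exact h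
  have : NeZero R := ⟨hRpos.ne'⟩
  let F : Finset (Finset (Fin k × ℕ)) :=
    ((Finset.univ ×ˢ Finset.range D).powerset).filter (G.Pot D)
  let Ev : Finset (Fin k × ℕ) → (Fin k → Fin R) → Prop := fun S ω =>
    ∀ n ∈ S, ∀ n' ∈ S, (ω n.1 : ℕ) + n.2 ≤ (ω n'.1 : ℕ) + n'.2 + 4
  let vbl : Finset (Fin k × ℕ) → Finset (Fin k) := fun S => S.image Prod.fst
  have hF : ∀ S ∈ F, G.Pot D S := fun S hS => (Finset.mem_filter.mp hS).2
  have hdepF : ∀ S ∈ F, Dep (vbl S) (Ev S) := by
    intro S _ ω ω' h
    simp only [Ev, eq_iff_iff]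
    have h' : ∀ n ∈ S, ω n.1 = ω' n.1 := fun n hn => h n.1 (Finset.mem_image_of_mem _ hn)
    constructor
    · intro H n hn n' hn'
      have := H n hn n' hn'
      rwa [h' n hn, h' n' hn'] at this
    · intro H n hn n' hn'
      have := H n hn n' hn'
      rwa [← h' n hn, ← h' n' hn'] at this
  have hdegF : ∀ e ∈ F, ∀ S ⊆ F, (∀ f ∈ S, ¬ Disjoint (vbl e) (vbl f)) → S.card ≤ 4 * Δ := by
    intro S hS 𝒮 h𝒮 hdis
    have hsub : 𝒮 ⊆ (vbl S).biUnion fun p => G.Gr D p := by
      intro T hT
      have h1 := hdis T hT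
      rw [Finset.not_disjoint_iff] at h1
      obtain ⟨p, hp1, hp2⟩ := h1
      obtain ⟨n, hn, rfl⟩ := Finset.mem_image.mp hp2
      rw [Finset.mem_biUnion]
      exact ⟨n.1, hp1, G.Pot_mem_Gr (hF T (h𝒮 hT)) hn⟩
    calc 𝒮.card ≤ ((vbl S).biUnion fun p => G.Gr D p).card := Finset.card_le_card hsub
      _ ≤ (vbl S).card * Δ := Finset.card_biUnion_le_card_mul _ _ _ fun p _ => G.card_Gr hC D p
      _ ≤ 4 * Δ := by
          apply Nat.mul_le_mul_right
          exact Finset.card_image_le.trans (hF S hS).1.le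
  have hprF : ∀ e ∈ F, 4 * ((4 * Δ : ℕ) : ℝ) * Pr (Ev e) ≤ 1 := by
    intro S hS
    obtain ⟨hc, hSD, hdist, _⟩ := hF S hS
    have hne : S.Nonempty := by
      rw [← Finset.card_pos]; omega
    obtain ⟨n0, hn0⟩ := hne
    -- the sets of admissible values
    let J : Fin R → Fin k × ℕ → Finset (Fin R) := fun v n =>
      if n = n0 then {v} else
        Finset.univ.filter fun u : Fin R =>
          (v : ℕ) + n0.2 ≤ u + n.2 + 4 ∧ (u : ℕ) + n.2 ≤ v + n0.2 + 4
    have hJ0 : ∀ v, (J v n0).card = 1 := by intro v; simp [J]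
    have hJ : ∀ v, ∀ n ∈ S.erase n0, (J v n).card ≤ 9 := by
      intro v n hn
      have hn' := (Finset.mem_erase.mp hn).1
      simp only [J, if_neg hn']
      have : ((Finset.univ.filter fun u : Fin R =>
          (v : ℕ) + n0.2 ≤ u + n.2 + 4 ∧ (u : ℕ) + n.2 ≤ v + n0.2 + 4).image
            (fun u : Fin R => (u : ℕ))) ⊆
          Finset.Icc ((v : ℕ) + n0.2 - n.2 - 4) ((v : ℕ) + n0.2 - n.2 + 4) := by
        intro w hw
        obtain ⟨u, hu, rfl⟩ := Finset.mem_image.mp hw
        rw [Finset.mem_filter] at hu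
        rw [Finset.mem_Icc]
        omega
      have h2 := Finset.card_le_card this
      rw [Finset.card_image_of_injective _ Fin.val_injective, Nat.card_Icc] at h2
      omega
    have hRr : (0 : ℝ) < R := by exact_mod_cast hRpos
    have hle : Pr (Ev S) ≤ ∑ v : Fin R, Ex (fun ω : (∀ _ : Fin k, Fin R) =>
        ∏ n ∈ S, if ω n.1 ∈ J v n then (1 : ℝ) else 0) := by
      rw [Pr_def, ← Ex_sum]
      apply Ex_mono
      intro ω
      by_cases hE : Ev S ω
      · rw [if_pos hE]
        have hterm : ∏ n ∈ S, (if ω n.1 ∈ J (ω n0.1) n then (1 : ℝ) else 0) = 1 := by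
          apply Finset.prod_eq_one
          intro n hn
          rw [if_pos]
          by_cases hnn : n = n0
          · subst hnn; simp [J]
          · simp only [J, if_neg hnn, Finset.mem_filter, Finset.mem_univ, true_and]
            exact ⟨hE n0 hn0 n hn, hE n hn n0 hn0⟩
        calc (1 : ℝ) = ∏ n ∈ S, (if ω n.1 ∈ J (ω n0.1) n then (1 : ℝ) else 0) := hterm.symm
          _ ≤ _ := Finset.single_le_sum
            (f := fun v => ∏ n ∈ S, (if ω n.1 ∈ J v n then (1 : ℝ) else 0))
            (fun v _ => Finset.prod_nonneg fun n _ => by split_ifs <;> norm_num)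
            (Finset.mem_univ _)
      · rw [if_neg hE]
        exact Finset.sum_nonneg fun v _ => Finset.prod_nonneg fun n _ => by split_ifs <;> norm_num
    have hexp : ∀ v : Fin R, Ex (fun ω : (∀ _ : Fin k, Fin R) =>
        ∏ n ∈ S, if ω n.1 ∈ J v n then (1 : ℝ) else 0) ≤ (1 / R) * (9 / R) ^ 3 := by
      intro v
      rw [Ex_prod S (fun n => {n.1})]
      · have hco : ∀ n : Fin k × ℕ, Ex (fun ω : (∀ _ : Fin k, Fin R) =>
            if ω n.1 ∈ J v n then (1 : ℝ) else 0) = (J v n).card / R := by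
          intro n
          rw [Ex_coord (Ω := fun _ : Fin k => Fin R) n.1
            (fun a => if a ∈ J v n then (1 : ℝ) else 0)]
          rw [Finset.sum_ite_mem, Finset.univ_inter]
          simp
        simp only [hco]
        rw [← Finset.mul_prod_erase _ _ hn0, hJ0]
        have hcard : (S.erase n0).card = 3 := by
          rw [Finset.card_erase_of_mem hn0, hc]
        have h3 : ∏ n ∈ S.erase n0, ((J v n).card : ℝ) / R ≤ ∏ n ∈ S.erase n0, (9 : ℝ) / R := by
          apply Finset.prod_le_prod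
          · intro n _; positivity
          · intro n hn
            have := hJ v n hn
            gcongr
            exact_mod_cast this
        rw [Finset.prod_const, hcard] at h3
        push_cast
        gcongr
      · intro n hn n' hn' hnn
        rw [Finset.disjoint_singleton]
        intro h
        exact hnn (hdist n hn n' hn' h)
      · intro n _ ω ω' h
        have := h n.1 (Finset.mem_singleton_self _)
        simp only [this]
    have hPr : Pr (Ev S) ≤ (9 / R) ^ 3 := by
      calc Pr (Ev S) ≤ ∑ v : Fin R, (1 / (R : ℝ)) * (9 / R) ^ 3 :=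
            hle.trans (Finset.sum_le_sum fun v _ => hexp v)
        _ = (9 / R) ^ 3 := by
            rw [Finset.sum_const, Finset.card_univ, Fintype.card_fin, nsmul_eq_mul]
            field_simp
    have hR' : (4 * (4 * (Δ : ℝ)) * 729) ≤ (R : ℝ) ^ 3 := by exact_mod_cast hR
    calc 4 * ((4 * Δ : ℕ) : ℝ) * Pr (Ev S) ≤ 4 * ((4 * Δ : ℕ) : ℝ) * (9 / R) ^ 3 := by
          gcongr
      _ = (4 * (4 * (Δ : ℝ)) * 729) / (R : ℝ) ^ 3 := by
          push_cast
          field_simp
          ring
      _ ≤ 1 := by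
          rw [div_le_one (by positivity)]
          exact hR'
  obtain ⟨ω, hω⟩ := lll (V := Fin k) (Ω := fun _ => Fin R) F Ev vbl hdepF (4 * Δ) (by omega)
    hdegF hprF
  refine ⟨fun i => (ω i : ℕ), fun i => (ω i).2, ?_⟩
  set φ : Fin k → ℕ := fun i => (ω i : ℕ) with hφ
  intro s i
  by_contra hcon
  push Not at hcon
  have grow : ∀ r, r ≤ 3 → ∃ X : Finset (Fin k), i ∈ X ∧ X.card = r + 1 ∧
      Conn (Adj G φ s) X := by
    intro r
    induction r with
    | zero => intro _; exact ⟨{i}, by simp, by simp, Conn_singleton _ _⟩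
    | succ r ih =>
      intro hr
      obtain ⟨X, hiX, hXc, hX⟩ := ih (by omega)
      obtain ⟨a, ha, b, hab, hb⟩ := hcon X hiX (by omega)
      refine ⟨insert b X, Finset.mem_insert_of_mem hiX, ?_, hX.insert ha hab⟩
      rw [Finset.card_insert_of_notMem hb, hXc]
  obtain ⟨X, hiX, hXc, hX⟩ := grow 3 le_rfl
  have hpos : ∀ a ∈ X, ∃ x, x < G.m a ∧ s ≤ φ a + x ∧ φ a + x ≤ s + 4 := by
    intro a ha
    obtain ⟨c, hc, b, hb, h | h⟩ := hX {a} (by simpa using ha) (by simp)
      (by rintro h; rw [← h] at hXc; simp at hXc)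
    · rw [Finset.mem_singleton] at hc
      subst hc
      obtain ⟨_, x, y, h1, h2, h3, _, _⟩ := h
      exact ⟨x, h1.1, h2, h3⟩
    · rw [Finset.mem_singleton] at hc
      subst hc
      obtain ⟨_, x, y, h1, _, _, h2, h3⟩ := h
      exact ⟨y, h1.2.1, h2, h3⟩
  choose! pos hpos1 hpos2 hpos3 using hpos
  set f : Fin k → Fin k × ℕ := fun a => (a, pos a) with hf
  have hfinj : Function.Injective f := by
    intro a b hab
    exact (Prod.mk.inj hab).1
  have hadj : ∀ a ∈ X, ∀ b ∈ X, Adj G φ s a b → G.AdjN (f a) (f b) := by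
    rintro a ha b hb ⟨hne, x, y, h1, h2, h3, h4, h5⟩
    have p2 := hpos2 a ha
    have p3 := hpos3 a ha
    have q2 := hpos2 b hb
    have q3 := hpos3 b hb
    exact ⟨hne, x, y, h1, by simp only [hf]; omega, by simp only [hf]; omega,
      by simp only [hf]; omega, by simp only [hf]; omega⟩
  have hSF : X.image f ∈ F := by
    rw [Finset.mem_filter, Finset.mem_powerset]
    refine ⟨?_, ?_, ?_, ?_, ?_⟩
    · intro n hn
      obtain ⟨a, ha, rfl⟩ := Finset.mem_image.mp hn
      rw [Finset.mem_product, Finset.mem_range]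
      exact ⟨Finset.mem_univ _, lt_of_lt_of_le (hpos1 a ha) (hm a)⟩
    · rw [Finset.card_image_of_injective _ hfinj, hXc]
    · intro n hn
      obtain ⟨a, ha, rfl⟩ := Finset.mem_image.mp hn
      exact lt_of_lt_of_le (hpos1 a ha) (hm a)
    · intro n hn n' hn' h
      obtain ⟨a, ha, rfl⟩ := Finset.mem_image.mp hn
      obtain ⟨b, hb, rfl⟩ := Finset.mem_image.mp hn'
      simp only [hf] at h
      rw [h]
    · intro Y hY hne hne'
      have hY1 : (X.filter fun a => f a ∈ Y).Nonempty := by
        obtain ⟨n, hn⟩ := hne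
        obtain ⟨a, ha, rfl⟩ := Finset.mem_image.mp (hY hn)
        exact ⟨a, Finset.mem_filter.mpr ⟨ha, hn⟩⟩
      have hY2 : (X.filter fun a => f a ∈ Y) ≠ X := by
        intro h
        apply hne'
        apply Finset.Subset.antisymm hY
        intro n hn
        obtain ⟨a, ha, rfl⟩ := Finset.mem_image.mp hn
        rw [← h] at ha
        exact (Finset.mem_filter.mp ha).2
      obtain ⟨a, ha, b, hb, hab⟩ := hX _ (Finset.filter_subset _ _) hY1 hY2
      rw [Finset.mem_filter] at ha
      rw [Finset.mem_sdiff, Finset.mem_filter] at hb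
      refine ⟨f a, ha.2, f b, ?_, ?_⟩
      · rw [Finset.mem_sdiff]
        exact ⟨Finset.mem_image_of_mem _ hb.1, fun h => hb.2 ⟨hb.1, h⟩⟩
      · rcases hab with h | h
        · exact Or.inl (hadj a ha.1 b hb.1 h)
        · exact Or.inr (hadj b hb.1 a ha.1 h)
  apply hω _ hSF
  intro n hn n' hn'
  obtain ⟨a, ha, rfl⟩ := Finset.mem_image.mp hn
  obtain ⟨b, hb, rfl⟩ := Finset.mem_image.mp hn'
  have p3 := hpos3 a ha
  have q2 := hpos2 b hb
  simp only [hf, hφ] at p3 q2 ⊢
  omega

end PD

end Pool.Agent.H94
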