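import Pool.Agent.H94.Iterate
import Pool.Agent.H94.Phases

/-!
Existence of nominal schedules with small load at a constant scale.
-/

set_option autoImplicit false

namespace Pool.Agent.H94

open Finset Pool.Agent.LLL94

namespace PD

variable {k : ℕ} {G : PD k}

lemma good_start {C D a : ℕ} (hm : ∀ i, G.m i ≤ D)
    (hC : ∀ i x, x < G.m i → (G.users i x).card ≤ C) (ha : 1024 * C ≤ 2 ^ a) :
    G.Good (D + 4 * 2 ^ a) a := by
  classical
  refine ⟨fun _ x => (x : ℝ), D, ⟨?_, ?_, ?_, ?_⟩, ?_, ?_⟩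
  · intro i x; positivity
  · intro i x hx
    have := hm i
    have h : x < D := by omega
    exact_mod_cast h
  · intro i x _; push_cast; exact le_rfl
  · intro i x _
    push_cast
    have : (0 : ℝ) < 4 / 2 ^ a := by positivity
    linarith
  · intro e t
    have hcard : (G.Win (fun _ x => ⌊(x : ℝ)⌋₊) e t (2 ^ a)).card ≤ C := by
      rcases (G.Win (fun _ x => ⌊(x : ℝ)⌋₊) e t (2 ^ a)).eq_empty_or_nonempty with he | hne
      · rw [he]; simp
      obtain ⟨q0, hq0⟩ := hne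
      rw [Win, Finset.mem_filter] at hq0
      refine le_trans ?_ (hC q0.1 q0.2 (mem_Inc.mp hq0.1))
      apply Finset.card_le_card_of_injOn (fun q => q.1)
      · intro q hq
        rw [Finset.mem_coe, Win, Finset.mem_filter] at hq
        simp only [users, Finset.coe_filter, Finset.mem_univ, true_and, Set.mem_ofPred_eq]
        have h1 := hq0.2.1.trans hq.2.1.symm
        exact ⟨q.2, mem_Inc.mp hq0.1, mem_Inc.mp hq.1, congrArg Prod.fst h1, congrArg Prod.snd h1⟩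
      · intro q hq q' hq' h
        rw [Finset.mem_coe, Win, Finset.mem_filter] at hq hq'
        exact eq_of_ed h hq.1 hq'.1 (hq.2.1.trans hq'.2.1.symm)
    have h1 : (((G.Win (fun _ x => ⌊(x : ℝ)⌋₊) e t (2 ^ a)).card : ℕ) : ℝ) ≤ C := by
      exact_mod_cast hcard
    have h2 : (1024 * C : ℝ) ≤ 2 ^ a := by exact_mod_cast ha
    have h3 : (0 : ℝ) ≤ 1 / (a : ℝ) := by positivity
    have h4 : (0 : ℝ) < 2 ^ a := by positivity
    have h5 : (2 : ℝ) ^ a / 1024 ≤ (1 + 1 / (a : ℝ)) * (2 ^ a / 1024) := by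
      have : 0 ≤ 1 / (a : ℝ) * (2 ^ a / 1024) := by positivity
      linarith
    refine le_trans h1 (le_trans ?_ h5)
    linarith
  · have h4 : (0 : ℝ) ≤ 4 / 2 ^ a * D := by positivity
    have e : (1 + 4 / 2 ^ a) * ((D : ℝ) + 4 * 2 ^ a - 4 * 2 ^ a) = D + 4 / 2 ^ a * D := by ring
    rw [e]
    linarith

theorem exists_nominal {C D : ℕ} (hC1 : 1 ≤ C) (hm : ∀ i, G.m i ≤ D)
    (hC : ∀ i x, x < G.m i → (G.users i x).card ≤ C) :
    ∃ (S : Fin k → ℕ → ℕ) (Λ : ℕ), (∀ i x, x + 1 < G.m i → S i x < S i (x + 1)) ∧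
      (∀ i x, x + 1 < G.m i → S i (x + 1) ≤ S i x + 2) ∧
      (∀ i x, x < G.m i → S i x < Λ) ∧
      (∀ e t, (G.Win S e t (2 ^ 100)).card * 512 ≤ 2 ^ 100) ∧
      Λ ≤ 2 * D + 8 * (2 ^ 101 * C) := by
  classical
  set n := Nat.log 2 C + 1 with hn
  have hlow : C < 2 ^ n := Nat.lt_pow_succ_log_self (by norm_num) C
  have hup : 2 ^ n ≤ 2 * C := by
    rw [hn, pow_succ, mul_comm]
    exact Nat.mul_le_mul_left _ (Nat.pow_log_le_self 2 (by omega))
  have ha : 1024 * C ≤ 2 ^ (100 + n) := by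
    rw [pow_add]
    exact Nat.mul_le_mul (by norm_num) hlow.le
  have h1 := good_start (G := G) hm hC ha
  have h2 := good_iter n (by
    have : (0 : ℝ) ≤ D := by positivity
    linarith) h1
  obtain ⟨T, Λ, hT, hL, hΛ⟩ := h2
  refine ⟨fun i x => ⌊T i x⌋₊, Λ, ?_, ?_, ?_, ?_, ?_⟩
  · intro i x hx
    exact hT.floor_strict i (Nat.lt_succ_self x) hx
  · intro i x hx
    have h3 := hT.gapg i x hx
    have h4 : T i (x + 1) ≤ T i x + (2 : ℕ) := by
      refine h3.trans ?_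
      have : (1 : ℝ) + 4 / 2 ^ 100 ≤ 2 := by norm_num
      push_cast
      linarith
    have h5 := Nat.floor_mono h4
    rw [Nat.floor_add_natCast (hT.nonneg i x)] at h5
    exact h5
  · intro i x hx
    exact hT.floor_lt i hx
  · intro e t
    have h3 := hL e t
    have h4 : (((G.Win (fun i x => ⌊T i x⌋₊) e t (2 ^ 100)).card * 512 : ℕ) : ℝ)
        ≤ ((2 ^ 100 : ℕ) : ℝ) := by
      push_cast at h3 ⊢
      norm_num at h3 ⊢
      linarith
    exact_mod_cast h4
  · have h3 : (Λ : ℝ) ≤ 2 * (D + 4 * 2 ^ (100 + n)) := by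
      refine hΛ.trans ?_
      have h4 : (1 : ℝ) + 4 / 2 ^ 100 ≤ 2 := by norm_num
      have h5 : (0 : ℝ) ≤ (D : ℝ) + 4 * 2 ^ (100 + n) := by positivity
      have h6 : (0 : ℝ) < 1 + 4 / 2 ^ 100 := by positivity
      have h7 : (0 : ℝ) < 4 * 2 ^ 100 := by positivity
      refine le_trans (mul_le_mul_of_nonneg_left (c := (D : ℝ) + 4 * 2 ^ (100 + n)) ?_ h6.le)
        (mul_le_mul_of_nonneg_right h4 h5)
      linarith
    have h8 : (Λ : ℝ) ≤ ((2 * (D + 4 * 2 ^ (100 + n)) : ℕ) : ℝ) := by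
      push_cast; exact h3
    have h9 : Λ ≤ 2 * (D + 4 * 2 ^ (100 + n)) := by exact_mod_cast h8
    have h10 : 2 ^ (100 + n) ≤ 2 ^ 101 * C := by
      calc 2 ^ (100 + n) = 2 ^ 100 * 2 ^ n := pow_add _ _ _
        _ ≤ 2 ^ 100 * (2 * C) := Nat.mul_le_mul_left _ hup
        _ = _ := by ring
    omega

end PD

end Pool.Agent.H94
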