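import Pool.Agent.H94.Nominal

/-!
Choice of the parking edges by the local lemma.
-/

set_option autoImplicit false

namespace Pool.Agent.H94

open Finset Pool.Agent.LLL94

lemma greedy {ι : Type*} [DecidableEq ι] (R : ι → ι → Prop) (hR : ∀ i j, R i j → R j i)
    (nb : ι → Finset ι) (hnb : ∀ i j, R i j → j ∈ nb i) (Δ : ℕ) (hcard : ∀ i, (nb i).card ≤ Δ)
    (s : Finset ι) :
    ∃ c : ι → ℕ, (∀ i, c i ≤ Δ) ∧ ∀ i ∈ s, ∀ j ∈ s, i ≠ j → R i j → c i ≠ c j := by
  classical
  induction s using Finset.induction_on with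
  | empty => exact ⟨fun _ => 0, fun _ => Nat.zero_le _, fun i hi => absurd hi (Finset.notMem_empty _)⟩
  | insert a s ha ih =>
    obtain ⟨c, hc, hcs⟩ := ih
    have hex : ∃ b ∈ Finset.range (Δ + 1), b ∉ (nb a).image c := by
      by_contra hcon
      push Not at hcon
      have h1 : Finset.range (Δ + 1) ⊆ (nb a).image c := hcon
      have h2 := Finset.card_le_card h1
      rw [Finset.card_range] at h2
      have h3 := (Finset.card_image_le (s := nb a) (f := c)).trans (hcard a)
      omega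
    obtain ⟨b, hb, hbn⟩ := hex
    rw [Finset.mem_range] at hb
    refine ⟨Function.update c a b, ?_, ?_⟩
    · intro i
      by_cases h : i = a
      · subst h; simp; omega
      · rw [Function.update_of_ne h]; exact hc i
    · intro i hi j hj hij hRij
      rcases Finset.mem_insert.mp hi with rfl | hi'
      · have hj' : j ∈ s := by
          rcases Finset.mem_insert.mp hj with h | h
          · exact absurd h.symm hij
          · exact h
        rw [Function.update_self, Function.update_of_ne hij.symm]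
        intro h
        exact hbn (Finset.mem_image.mpr ⟨j, hnb _ j hRij, h.symm⟩)
      · rcases Finset.mem_insert.mp hj with rfl | hj'
        · rw [Function.update_self, Function.update_of_ne hij]
          intro h
          exact hbn (Finset.mem_image.mpr ⟨i, hnb _ i (hR _ _ hRij), h⟩)
        · have h1 : i ≠ a := fun h => ha (h ▸ hi')
          have h2 : j ≠ a := fun h => ha (h ▸ hj')
          rw [Function.update_of_ne h1, Function.update_of_ne h2]
          exact hcs i hi' j hj' hij hRij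

namespace PD

variable {k : ℕ} {G : PD k}

/-- Integer nominal schedules with small load at the scale `2 * U`. -/
structure NomI (G : PD k) (S : Fin k → ℕ → ℕ) (Λ U : ℕ) : Prop where
  lt1 : ∀ i x, x + 1 < G.m i → S i x < S i (x + 1)
  le2 : ∀ i x, x + 1 < G.m i → S i (x + 1) ≤ S i x + 2
  lt : ∀ i x, x < G.m i → S i x < Λ
  load : ∀ e t, (G.Win S e t (2 * U)).card * 512 ≤ 2 * U

variable {S : Fin k → ℕ → ℕ} {Λ U : ℕ}

lemma NomI.add_le (hS : G.NomI S Λ U) (i : Fin k) {x y : ℕ} (hxy : x ≤ y) (hy : y < G.m i) :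
    S i x + (y - x) ≤ S i y := by
  induction y with
  | zero =>
    have : x = 0 := by omega
    subst this
    simp
  | succ y ih =>
    rcases Nat.eq_or_lt_of_le hxy with h | h
    · subst h; simp
    · have h1 := ih (by omega) (by omega)
      have h2 := hS.lt1 i y hy
      omega

lemma NomI.strict (hS : G.NomI S Λ U) (i : Fin k) {x y : ℕ} (hxy : x < y) (hy : y < G.m i) :
    S i x < S i y := by
  have := hS.add_le i hxy.le hy
  omega

lemma NomI.inj (hS : G.NomI S Λ U) (i : Fin k) {x y : ℕ} (hx : x < G.m i) (hy : y < G.m i)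
    (h : S i x = S i y) : x = y := by
  rcases lt_trichotomy x y with h1 | h1 | h1
  · have := hS.strict i h1 hy; omega
  · exact h1
  · have := hS.strict i h1 hx; omega

lemma NomI.load' (hS : G.NomI S Λ U) (e : ℕ × ℕ) (t : ℕ) :
    (G.Win S e t (2 * U)).card ≤ 2 * U / 512 := by
  rw [Nat.le_div_iff_mul_le (by norm_num)]
  exact hS.load e t

theorem parking (hS : G.NomI S Λ U) (hU : 256 ≤ U) :
    ∃ om : Fin k → ℕ → ℕ, (∀ i κ, om i κ < U) ∧
      ∀ i x j y, i ≠ j → G.Same i x j y → S i x / (2 * U) ≤ S j y / (2 * U) + 1 →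
        S j y / (2 * U) ≤ S i x / (2 * U) + 1 →
        om i (S i x / (2 * U)) = S i x % (2 * U) / 2 →
        om j (S j y / (2 * U)) = S j y % (2 * U) / 2 → False := by
  classical
  have hW : 0 < 2 * U := by omega
  set W := 2 * U with hWd
  set Nf := Λ / W + 1 with hNf
  have : NeZero Nf := ⟨Nat.succ_ne_zero _⟩
  have : NeZero U := ⟨by omega⟩
  have hUr : (0 : ℝ) < U := by
    have : 0 < U := by omega
    exact_mod_cast this
  let κ : Fin k × ℕ → ℕ := fun q => S q.1 q.2 / W
  have hκN : ∀ q ∈ G.Inc, κ q < Nf := by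
    intro q hq
    have h1 := hS.lt q.1 q.2 (mem_Inc.mp hq)
    have h2 : S q.1 q.2 / W ≤ Λ / W := Nat.div_le_div_right h1.le
    have h3 : κ q = S q.1 q.2 / W := rfl
    omega
  let vr : Fin k × ℕ → Fin k × Fin Nf := fun q => (q.1, Fin.ofNat Nf (κ q))
  have hvr : ∀ q ∈ G.Inc, ((vr q).2 : ℕ) = κ q := by
    intro q hq
    simp only [vr, Fin.ofNat]
    exact Nat.mod_eq_of_lt (hκN q hq)
  let F : Finset ((Fin k × ℕ) × (Fin k × ℕ)) := (G.Inc ×ˢ G.Inc).filter fun p =>
    p.1.1 ≠ p.2.1 ∧ G.ed p.1 = G.ed p.2 ∧ κ p.1 ≤ κ p.2 + 1 ∧ κ p.2 ≤ κ p.1 + 1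
  have hF : ∀ p ∈ F, p.1 ∈ G.Inc ∧ p.2 ∈ G.Inc ∧ p.1.1 ≠ p.2.1 ∧ G.ed p.1 = G.ed p.2 ∧
      κ p.1 ≤ κ p.2 + 1 ∧ κ p.2 ≤ κ p.1 + 1 := by
    intro p hp
    simp only [F, Finset.mem_filter, Finset.mem_product] at hp
    tauto
  let Ev : ((Fin k × ℕ) × (Fin k × ℕ)) → (Fin k × Fin Nf → Fin U) → Prop := fun p ω =>
    ((ω (vr p.1) : ℕ) = S p.1.1 p.1.2 % W / 2) ∧ ((ω (vr p.2) : ℕ) = S p.2.1 p.2.2 % W / 2)
  let vbl : ((Fin k × ℕ) × (Fin k × ℕ)) → Finset (Fin k × Fin Nf) := fun p => {vr p.1, vr p.2}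
  have hdep : ∀ p ∈ F, Dep (Ω := fun _ : Fin k × Fin Nf => Fin U) (vbl p) (Ev p) := by
    intro p _ ω ω' h
    have h1 := h (vr p.1) (by simp [vbl])
    have h2 := h (vr p.2) (by simp [vbl])
    simp only [Ev, h1, h2]
  let L := W / 512
  have hL : ∀ e t, (G.Win S e t W).card ≤ L := fun e t => hS.load' e t
  have hdeg : ∀ e ∈ F, ∀ A ⊆ F, (∀ f ∈ A, ¬ Disjoint (vbl e) (vbl f)) →
      A.card ≤ 12 * (W * L) := by
    intro e _ A hAF hA
    let Qv : Fin k × Fin Nf → Finset (Fin k × ℕ) := fun v =>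
      G.Inc.filter fun q => q.1 = v.1 ∧ κ q = (v.2 : ℕ)
    let Nq : Fin k × ℕ → Finset (Fin k × ℕ) := fun q =>
      (G.Win S (G.ed q) ((κ q - 1) * W) W ∪ G.Win S (G.ed q) (κ q * W) W) ∪
        G.Win S (G.ed q) ((κ q + 1) * W) W
    let Gv : Fin k × Fin Nf → Finset ((Fin k × ℕ) × (Fin k × ℕ)) := fun v =>
      ((Qv v).biUnion fun q => (Nq q).image fun q' => (q, q')) ∪
      ((Qv v).biUnion fun q => (Nq q).image fun q' => (q', q))
    have hQv : ∀ v, (Qv v).card ≤ W := by
      intro v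
      have h1 : (Qv v).card ≤ (Finset.Ico ((v.2 : ℕ) * W) (((v.2 : ℕ) + 1) * W)).card := by
        apply Finset.card_le_card_of_injOn (fun q => S q.1 q.2)
        · intro q hq
          simp only [Qv, Finset.coe_filter, Set.mem_ofPred_eq] at hq
          have h2 : S q.1 q.2 / W = (v.2 : ℕ) := hq.2.2
          have h3 := Nat.div_mul_le_self (S q.1 q.2) W
          have h4 := Nat.lt_div_mul_add (a := S q.1 q.2) hW
          rw [h2] at h3 h4
          simp only [Finset.coe_Ico, Set.mem_Ico]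
          refine ⟨h3, ?_⟩
          calc S q.1 q.2 < (v.2 : ℕ) * W + W := h4
            _ = _ := by ring
        · intro q hq q' hq' h
          simp only [Qv, Finset.coe_filter, Set.mem_ofPred_eq] at hq hq'
          obtain ⟨i, x⟩ := q
          obtain ⟨j, y⟩ := q'
          have e1 : i = j := hq.2.1.trans hq'.2.1.symm
          subst e1
          have e2 := hS.inj i (mem_Inc.mp hq.1) (mem_Inc.mp hq'.1) h
          simp only at e2
          rw [e2]
      rw [Nat.card_Ico] at h1
      have : ((v.2 : ℕ) + 1) * W = (v.2 : ℕ) * W + W := by ring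
      omega
    have hNq : ∀ q, (Nq q).card ≤ 3 * L := by
      intro q
      have h1 := Finset.card_union_le (G.Win S (G.ed q) ((κ q - 1) * W) W ∪
        G.Win S (G.ed q) (κ q * W) W) (G.Win S (G.ed q) ((κ q + 1) * W) W)
      have h2 := Finset.card_union_le (G.Win S (G.ed q) ((κ q - 1) * W) W)
        (G.Win S (G.ed q) (κ q * W) W)
      have h3 := hL (G.ed q) ((κ q - 1) * W)
      have h4 := hL (G.ed q) (κ q * W)
      have h5 := hL (G.ed q) ((κ q + 1) * W)
      simp only [Nq]
      omega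
    have hGv : ∀ v, (Gv v).card ≤ 6 * (W * L) := by
      intro v
      have h1 : ((Qv v).biUnion fun q => (Nq q).image fun q' => (q, q')).card ≤ W * (3 * L) :=
        (Finset.card_biUnion_le_card_mul _ _ (3 * L)
          (fun q _ => Finset.card_image_le.trans (hNq q))).trans (Nat.mul_le_mul_right _ (hQv v))
      have h2 : ((Qv v).biUnion fun q => (Nq q).image fun q' => (q', q)).card ≤ W * (3 * L) :=
        (Finset.card_biUnion_le_card_mul _ _ (3 * L)
          (fun q _ => Finset.card_image_le.trans (hNq q))).trans (Nat.mul_le_mul_right _ (hQv v))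
      have h3 := Finset.card_union_le ((Qv v).biUnion fun q => (Nq q).image fun q' => (q, q'))
        ((Qv v).biUnion fun q => (Nq q).image fun q' => (q', q))
      have h4 : W * (3 * L) = 3 * (W * L) := by ring
      simp only [Gv]
      omega
    have hNqmem : ∀ q q', q' ∈ G.Inc → G.ed q = G.ed q' → κ q ≤ κ q' + 1 → κ q' ≤ κ q + 1 →
        q' ∈ Nq q := by
      intro q q' hq' he h1 h2
      have h3 := Nat.div_mul_le_self (S q'.1 q'.2) W
      have h4 := Nat.lt_div_mul_add (a := S q'.1 q'.2) hW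
      have h5 : S q'.1 q'.2 / W = κ q' := rfl
      rw [h5] at h3 h4
      simp only [Nq, Win, Finset.mem_union, Finset.mem_filter]
      rcases (by omega : κ q' = κ q - 1 ∨ κ q' = κ q ∨ κ q' = κ q + 1) with h | h | h
      · rw [h] at h3 h4
        exact Or.inl (Or.inl ⟨hq', he.symm, h3, h4⟩)
      · rw [h] at h3 h4
        exact Or.inl (Or.inr ⟨hq', he.symm, h3, h4⟩)
      · rw [h] at h3 h4
        exact Or.inr ⟨hq', he.symm, h3, h4⟩
    have hsub : A ⊆ (vbl e).biUnion Gv := by
      intro f hf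
      have h1 := hA f hf
      rw [Finset.not_disjoint_iff] at h1
      obtain ⟨v, hv1, hv2⟩ := h1
      obtain ⟨f1, f2, f3, f4, f5, f6⟩ := hF f (hAF hf)
      rw [Finset.mem_biUnion]
      refine ⟨v, hv1, ?_⟩
      simp only [vbl, Finset.mem_insert, Finset.mem_singleton] at hv2
      simp only [Gv, Finset.mem_union, Finset.mem_biUnion, Finset.mem_image]
      rcases hv2 with rfl | rfl
      · left
        refine ⟨f.1, ?_, f.2, hNqmem _ _ f2 f4 f5 f6, rfl⟩
        simp only [Qv, Finset.mem_filter]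
        exact ⟨f1, rfl, (hvr _ f1).symm⟩
      · right
        refine ⟨f.2, ?_, f.1, hNqmem _ _ f1 f4.symm f6 f5, rfl⟩
        simp only [Qv, Finset.mem_filter]
        exact ⟨f2, rfl, (hvr _ f2).symm⟩
    calc A.card ≤ ((vbl e).biUnion Gv).card := Finset.card_le_card hsub
      _ ≤ (vbl e).card * (6 * (W * L)) := Finset.card_biUnion_le_card_mul _ _ _ fun v _ => hGv v
      _ ≤ 2 * (6 * (W * L)) := Nat.mul_le_mul_right _ Finset.card_le_two
      _ = 12 * (W * L) := by ring
  have hpr : ∀ p ∈ F, 4 * ((12 * (W * L) : ℕ) : ℝ) * Pr (Ev p) ≤ 1 := by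
    intro p hp
    obtain ⟨f1, f2, f3, f4, f5, f6⟩ := hF p hp
    have hone : ∀ (v : Fin k × Fin Nf) (c : ℕ),
        Pr (fun ω : (Fin k × Fin Nf → Fin U) => ((ω v : ℕ) = c)) ≤ 1 / U := by
      intro v c
      have e := Pr_coord (V := Fin k × Fin Nf) (Ω := fun _ => Fin U) v (fun a => (a : ℕ) = c)
      rw [show Pr (fun ω : (Fin k × Fin Nf → Fin U) => ((ω v : ℕ) = c)) = _ from e]
      rw [Fintype.card_fin]
      apply div_le_div_of_nonneg_right _ hUr.le
      have : (Finset.univ.filter fun a : Fin U => (a : ℕ) = c).card ≤ 1 := by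
        rw [Finset.card_le_one]
        intro a ha b hb
        rw [Finset.mem_filter] at ha hb
        exact Fin.ext (ha.2.trans hb.2.symm)
      exact_mod_cast this
    have hne : vr p.1 ≠ vr p.2 := by
      intro h
      exact f3 (Prod.mk.inj h).1
    have hle : Pr (Ev p) ≤ (1 / U) * (1 / U) := by
      have hd1 : Dep (Ω := fun _ : Fin k × Fin Nf => Fin U) {vr p.1}
          (fun ω => ((ω (vr p.1) : ℕ) = S p.1.1 p.1.2 % W / 2)) := by
        intro ω ω' h
        simp only
        rw [h _ (Finset.mem_singleton_self _)]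
      have hd2 : Dep (Ω := fun _ : Fin k × Fin Nf => Fin U) {vr p.2}
          (fun ω => ((ω (vr p.2) : ℕ) = S p.2.1 p.2.2 % W / 2)) := by
        intro ω ω' h
        simp only
        rw [h _ (Finset.mem_singleton_self _)]
      have e := Pr_and (by simpa using hne) hd1 hd2
      rw [show Pr (Ev p) = _ from e]
      exact mul_le_mul (hone _ _) (hone _ _) (Pr_nonneg _) (by positivity)
    have hLr : ((L : ℕ) : ℝ) ≤ (2 * U : ℝ) / 512 := by
      refine (Nat.cast_div_le (α := ℝ)).trans (le_of_eq ?_)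
      rw [hWd]
      push_cast
      rfl
    calc 4 * ((12 * (W * L) : ℕ) : ℝ) * Pr (Ev p)
        ≤ 4 * ((12 * (W * L) : ℕ) : ℝ) * ((1 / U) * (1 / U)) := by gcongr
      _ ≤ 4 * (12 * ((2 * U) * ((2 * U : ℝ) / 512))) * ((1 / U) * (1 / U)) := by
          have e : ((12 * (W * L) : ℕ) : ℝ) = 12 * ((2 * U) * (L : ℝ)) := by
            rw [hWd]; push_cast; ring
          rw [e]
          gcongr
      _ = 192 / 512 := by field_simp; norm_num
      _ ≤ 1 := by norm_num
  obtain ⟨ω, hω⟩ := lll (V := Fin k × Fin Nf) (Ω := fun _ => Fin U) F Ev vbl hdep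
    (12 * (W * L)) (by
      have h1 : 1 ≤ L := by
        simp only [L]
        rw [Nat.le_div_iff_mul_le (by norm_num)]
        omega
      have h2 : 1 ≤ W * L := Nat.mul_pos hW h1
      omega) hdeg hpr
  refine ⟨fun i b => ((ω (i, Fin.ofNat Nf b) : Fin U) : ℕ), fun i b => Fin.is_lt _, ?_⟩
  intro i x j y hij hs h1 h2 h3 h4
  have hmem : (((i, x), (j, y)) : (Fin k × ℕ) × (Fin k × ℕ)) ∈ F := by
    simp only [F, Finset.mem_filter, Finset.mem_product]
    refine ⟨⟨mem_Inc.mpr hs.1, mem_Inc.mpr hs.2.1⟩, hij, ?_, h1, h2⟩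
    unfold ed
    exact Prod.ext hs.2.2.1 hs.2.2.2
  exact hω _ hmem ⟨h3, h4⟩

end PD

end Pool.Agent.H94
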