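import Pool.Agent.H94.MainSum
import Pool.Agent.H94.Chernoff
import Pool.Agent.H94.Disp
import Pool.Agent.H94.Sim

/-!
One refinement step for nominal schedules.
-/

set_option autoImplicit false

namespace Pool.Agent.H94

open Finset Pool.Agent.LLL94

namespace PD

variable {k : ℕ} (G : PD k)

/-- incidences -/
noncomputable def Inc : Finset (Fin k × ℕ) :=
  Finset.univ.biUnion fun i => (Finset.range (G.m i)).image fun x => (i, x)

variable {G} in
lemma mem_Inc {q : Fin k × ℕ} : q ∈ G.Inc ↔ q.2 < G.m q.1 := by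
  unfold Inc
  simp only [Finset.mem_biUnion, Finset.mem_univ, true_and, Finset.mem_image, Finset.mem_range]
  constructor
  · rintro ⟨i, x, hx, rfl⟩
    exact hx
  · intro h
    exact ⟨q.1, q.2, h, rfl⟩

/-- the edge of an incidence -/
def ed (q : Fin k × ℕ) : ℕ × ℕ := (G.v q.1 q.2, G.v q.1 (q.2 + 1))

variable {G} in
lemma eq_of_ed {q q' : Fin k × ℕ} (h : q.1 = q'.1) (hq : q ∈ G.Inc) (hq' : q' ∈ G.Inc)
    (he : G.ed q = G.ed q') : q = q' := by
  rw [mem_Inc] at hq hq'
  obtain ⟨i, x⟩ := q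
  obtain ⟨j, y⟩ := q'
  simp only at h hq hq'
  subst h
  have h1 : G.v i x = G.v i y := congrArg Prod.fst he
  have := G.inj i x y hq.le hq'.le h1
  rw [this]

/-- The incidences with edge `e` and time in the window `[t, t + w)`. -/
noncomputable def Win (S : Fin k → ℕ → ℕ) (e : ℕ × ℕ) (t w : ℕ) : Finset (Fin k × ℕ) :=
  G.Inc.filter fun q => G.ed q = e ∧ t ≤ S q.1 q.2 ∧ S q.1 q.2 < t + w

/-- The load condition. -/
def Load (S : Fin k → ℕ → ℕ) (w : ℕ) (M : ℝ) : Prop :=
  ∀ e t, ((G.Win S e t w).card : ℝ) ≤ M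

/-- Nominal schedules. -/
structure Nom (T : Fin k → ℕ → ℝ) (Λ : ℕ) (g : ℝ) : Prop where
  nonneg : ∀ i x, 0 ≤ T i x
  lt : ∀ i x, x < G.m i → T i x < Λ
  gap1 : ∀ i x, x + 1 < G.m i → T i x + 1 ≤ T i (x + 1)
  gapg : ∀ i x, x + 1 < G.m i → T i (x + 1) ≤ T i x + g

variable {G}

lemma Nom.strict {T : Fin k → ℕ → ℝ} {Λ : ℕ} {g : ℝ} (hT : G.Nom T Λ g) (i : Fin k) {x y : ℕ}
    (hxy : x < y) (hy : y < G.m i) : T i x + 1 ≤ T i y := by
  induction y with
  | zero => omega
  | succ y ih =>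
    have h1 := hT.gap1 i y hy
    rcases Nat.lt_succ_iff_lt_or_eq.mp hxy with h | h
    · have := ih h (by omega)
      linarith
    · rw [h]; exact h1

lemma Nom.floor_strict {T : Fin k → ℕ → ℝ} {Λ : ℕ} {g : ℝ} (hT : G.Nom T Λ g) (i : Fin k)
    {x y : ℕ} (hxy : x < y) (hy : y < G.m i) : ⌊T i x⌋₊ < ⌊T i y⌋₊ := by
  have h1 := hT.strict i hxy hy
  have h2 : ⌊T i x + 1⌋₊ ≤ ⌊T i y⌋₊ := Nat.floor_mono h1
  rw [Nat.floor_add_one (hT.nonneg i x)] at h2
  omega

lemma Nom.floor_inj {T : Fin k → ℕ → ℝ} {Λ : ℕ} {g : ℝ} (hT : G.Nom T Λ g) (i : Fin k)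
    {x y : ℕ} (hx : x < G.m i) (hy : y < G.m i) (h : ⌊T i x⌋₊ = ⌊T i y⌋₊) : x = y := by
  rcases lt_trichotomy x y with h1 | h1 | h1
  · have := hT.floor_strict i h1 hy; omega
  · exact h1
  · have := hT.floor_strict i h1 hx; omega

lemma Nom.floor_lt {T : Fin k → ℕ → ℝ} {Λ : ℕ} {g : ℝ} (hT : G.Nom T Λ g) (i : Fin k)
    {x : ℕ} (hx : x < G.m i) : ⌊T i x⌋₊ < Λ := by
  have h1 := hT.lt i x hx
  have h2 := Nat.floor_le (hT.nonneg i x)
  exact_mod_cast lt_of_le_of_lt h2 h1

end PD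

lemma disp_congr {w m Z : ℕ} {X X' θ θ' : ℕ → ℕ} {s : ℝ}
    (h1 : X (⌊s⌋₊ / (m * Z)) = X' (⌊s⌋₊ / (m * Z)))
    (h2 : X (⌊s⌋₊ / (m * Z) + 1) = X' (⌊s⌋₊ / (m * Z) + 1))
    (h3 : θ (⌊s⌋₊ / (m * Z)) = θ' (⌊s⌋₊ / (m * Z))) :
    disp w m Z X θ s = disp w m Z X' θ' s := by
  unfold disp fb
  rw [h1, h2, h3]

/-- Window counting. -/
lemma card_window (w w' c t : ℕ) :
    ((Finset.univ.filter fun x : Fin w => t ≤ c + x ∧ c + x < t + w').card : ℝ)
      ≤ ∑ r ∈ Finset.range w', if c ≤ t + r ∧ t + r < c + w then (1 : ℝ) else 0 := by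
  rw [← Finset.sum_filter, Finset.sum_const, nsmul_eq_mul, mul_one]
  have : (Finset.univ.filter fun x : Fin w => t ≤ c + x ∧ c + x < t + w').card
      ≤ (Finset.filter (fun r => c ≤ t + r ∧ t + r < c + w) (Finset.range w')).card := by
    apply Finset.card_le_card_of_injOn (fun x : Fin w => c + (x : ℕ) - t)
    · intro x hx
      have hx' := (Finset.mem_filter.mp hx).2
      have := x.2
      simp only [Finset.coe_filter, Finset.mem_range, Set.mem_ofPred_eq]
      omega
    · intro x hx y hy hxy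
      have hx' := (Finset.mem_filter.mp hx).2
      have hy' := (Finset.mem_filter.mp hy).2
      simp only at hxy
      apply Fin.ext
      omega
  exact_mod_cast this

section prob

variable {k Nb w m : ℕ} [NeZero w] [NeZero m]

abbrev Om (w m : ℕ) : Type := Fin w × Fin m

/-- The displacement data determined by the random choice. -/
def Xf (Nb : ℕ) [NeZero Nb] (ω : Fin k × Fin Nb → Om w m) (i : Fin k) (b : ℕ) : ℕ :=
  ((ω (i, Fin.ofNat Nb b)).1 : ℕ)

def Tf (Nb : ℕ) [NeZero Nb] (ω : Fin k × Fin Nb → Om w m) (i : Fin k) (b : ℕ) : ℕ :=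
  ((ω (i, Fin.ofNat Nb b)).2 : ℕ)

/-- The new nominal times. -/
noncomputable def newT (Nb Z : ℕ) [NeZero Nb] (T : Fin k → ℕ → ℝ) (ω : Fin k × Fin Nb → Om w m)
    (i : Fin k) (x : ℕ) : ℝ :=
  T i x + disp w m Z (Xf Nb ω i) (Tf Nb ω i) (T i x)

omit [NeZero w] [NeZero m] in
lemma newT_dep [NeZero Nb] {Z : ℕ} {T : Fin k → ℕ → ℝ} {i : Fin k} {x : ℕ}
    (ω ω' : Fin k × Fin Nb → Om w m)
    (h0 : ω (i, Fin.ofNat Nb (⌊T i x⌋₊ / (m * Z))) = ω' (i, Fin.ofNat Nb (⌊T i x⌋₊ / (m * Z))))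
    (h1 : ω (i, Fin.ofNat Nb (⌊T i x⌋₊ / (m * Z) + 1))
      = ω' (i, Fin.ofNat Nb (⌊T i x⌋₊ / (m * Z) + 1))) :
    newT Nb Z T ω i x = newT Nb Z T ω' i x := by
  unfold newT
  congr 1
  apply disp_congr
  · unfold Xf; rw [h0]
  · unfold Xf; rw [h1]
  · unfold Tf; rw [h0]

/-- Probability of one packet in the window. -/
lemma pr_bad [NeZero Nb] {Z : ℕ} (hZ : 0 < Z) {T : Fin k → ℕ → ℝ} (hT : ∀ i x, 0 ≤ T i x)
    {i : Fin k} {x : ℕ} (hβ : ⌊T i x⌋₊ / (m * Z) + 1 < Nb) (t w' : ℕ) :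
    Pr (fun ω : (Fin k × Fin Nb → Om w m) =>
      t ≤ ⌊newT Nb Z T ω i x⌋₊ ∧ ⌊newT Nb Z T ω i x⌋₊ < t + w')
    ≤ (∑ r ∈ Finset.range w',
        ((if ⌊T i x⌋₊ + ⌊T i x⌋₊ / (m * Z) * w ≤ t + r ∧
            t + r < ⌊T i x⌋₊ + ⌊T i x⌋₊ / (m * Z) * w + w
          then ((m - 1 - ⌊T i x⌋₊ % (m * Z) / Z : ℕ) : ℝ) else 0) +
        (if ⌊T i x⌋₊ + ⌊T i x⌋₊ / (m * Z) * w + w ≤ t + r ∧
            t + r < ⌊T i x⌋₊ + ⌊T i x⌋₊ / (m * Z) * w + 2 * w
          then ((⌊T i x⌋₊ % (m * Z) / Z : ℕ) : ℝ) else 0))) / (m * w) + 1 / m := by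
  classical
  have hm : 0 < m := Nat.pos_of_ne_zero (NeZero.ne m)
  have hw : 0 < w := Nat.pos_of_ne_zero (NeZero.ne w)
  have hmr : (0 : ℝ) < m := by exact_mod_cast hm
  have hwr : (0 : ℝ) < w := by exact_mod_cast hw
  set σ := ⌊T i x⌋₊ with hσ
  set β := σ / (m * Z) with hβd
  set κ := σ % (m * Z) / Z with hκd
  have hκm : κ < m := by
    apply Nat.div_lt_of_lt_mul
    rw [mul_comm Z m]
    exact Nat.mod_lt _ (Nat.mul_pos hm hZ)
  set v0 : Fin k × Fin Nb := (i, Fin.ofNat Nb β) with hv0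
  set v1 : Fin k × Fin Nb := (i, Fin.ofNat Nb (β + 1)) with hv1
  have hv01 : v0 ≠ v1 := by
    intro h
    have h2 := congrArg (fun v : Fin k × Fin Nb => (v.2 : ℕ)) h
    simp only [hv0, hv1, Fin.ofNat] at h2
    rw [Nat.mod_eq_of_lt (by omega), Nat.mod_eq_of_lt (by omega)] at h2
    omega
  let W : ℕ → Fin w → Prop := fun c a => t ≤ c + (a : ℕ) ∧ c + (a : ℕ) < t + w'
  let E0 : (Fin k × Fin Nb → Om w m) → Prop := fun ω =>
    W (σ + β * w) (ω v0).1 ∧ κ < ((ω v0).2 : ℕ)
  let E1a : (Fin k × Fin Nb → Om w m) → Prop := fun ω => ((ω v0).2 : ℕ) < κ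
  let E1b : (Fin k × Fin Nb → Om w m) → Prop := fun ω => W (σ + β * w + w) (ω v1).1
  let E2 : (Fin k × Fin Nb → Om w m) → Prop := fun ω => ((ω v0).2 : ℕ) = κ
  have hcover : ∀ ω : (Fin k × Fin Nb → Om w m),
      (t ≤ ⌊newT Nb Z T ω i x⌋₊ ∧ ⌊newT Nb Z T ω i x⌋₊ < t + w') →
      ((E0 ω ∨ (E1a ω ∧ E1b ω)) ∨ E2 ω) := by
    intro ω hω
    rcases lt_trichotomy κ ((ω v0).2 : ℕ) with h | h | h
    · left; left
      refine ⟨?_, h⟩
      have hd := disp_before (w := w) (m := m) (Z := Z) (X := Xf Nb ω i) (θ := Tf Nb ω i) hZ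
        (hT i x) h
      unfold newT at hω
      rw [hd, Nat.floor_add_natCast (hT i x)] at hω
      simp only [W]
      have e : Xf Nb ω i (⌊T i x⌋₊ / (m * Z)) = ((ω v0).1 : ℕ) := rfl
      rw [e] at hω
      have e0 : ⌊T i x⌋₊ / (m * Z) * w = β * w := rfl
      rw [e0] at hω
      omega
    · right; exact h.symm
    · left; right
      refine ⟨h, ?_⟩
      have hd := disp_after (w := w) (m := m) (Z := Z) (X := Xf Nb ω i) (θ := Tf Nb ω i) hZ
        (hT i x) h
      unfold newT at hω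
      rw [hd, Nat.floor_add_natCast (hT i x)] at hω
      simp only [E1b, W]
      have e : Xf Nb ω i (⌊T i x⌋₊ / (m * Z) + 1) = ((ω v1).1 : ℕ) := rfl
      rw [e] at hω
      have e2 : (⌊T i x⌋₊ / (m * Z) + 1) * w = β * w + w := by
        rw [← hσ, ← hβd]; ring
      rw [e2] at hω
      omega
  have hP0 : Pr E0 ≤ (∑ r ∈ Finset.range w',
        if σ + β * w ≤ t + r ∧ t + r < σ + β * w + w then (1 : ℝ) else 0) *
          ((m - 1 - κ : ℕ) : ℝ) / (m * w) := by
    have e := Pr_coord (V := Fin k × Fin Nb) (Ω := fun _ => Om w m) v0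
      (fun a => W (σ + β * w) a.1 ∧ κ < (a.2 : ℕ))
    rw [show Pr E0 = _ from e]
    have e2 : (Finset.univ.filter fun a : Om w m => W (σ + β * w) a.1 ∧ κ < (a.2 : ℕ))
        = (Finset.univ.filter fun a : Fin w => W (σ + β * w) a) ×ˢ
          (Finset.univ.filter fun a : Fin m => κ < (a : ℕ)) := by
      ext a
      simp
    rw [e2, Finset.card_product, Fintype.card_prod, Fintype.card_fin, Fintype.card_fin]
    have e3 : (Finset.univ.filter fun a : Fin m => κ < (a : ℕ)).card ≤ m - 1 - κ := by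
      rw [← Finset.card_image_of_injective _ Fin.val_injective]
      calc _ ≤ (Finset.Ioo κ m).card := by
            apply Finset.card_le_card
            intro y hy
            obtain ⟨a, ha, rfl⟩ := Finset.mem_image.mp hy
            rw [Finset.mem_filter] at ha
            rw [Finset.mem_Ioo]
            exact ⟨ha.2, a.2⟩
        _ = _ := by rw [Nat.card_Ioo]; omega
    have e4 := card_window w w' (σ + β * w) t
    push_cast
    rw [mul_comm (w : ℝ) m]
    apply div_le_div_of_nonneg_right _ (by positivity)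
    apply mul_le_mul e4 (by exact_mod_cast e3) (by positivity)
    exact Finset.sum_nonneg fun r _ => by split_ifs <;> norm_num
  have hP1 : Pr (fun ω => E1a ω ∧ E1b ω) ≤ (∑ r ∈ Finset.range w',
        if σ + β * w + w ≤ t + r ∧ t + r < σ + β * w + w + w then (1 : ℝ) else 0) *
          ((κ : ℕ) : ℝ) / (m * w) := by
    have hdep0 : Dep (Ω := fun _ : Fin k × Fin Nb => Om w m) {v0} E1a := by
      intro ω ω' h
      simp only [E1a]
      rw [h v0 (Finset.mem_singleton_self _)]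
    have hdep1 : Dep (Ω := fun _ : Fin k × Fin Nb => Om w m) {v1} E1b := by
      intro ω ω' h
      simp only [E1b]
      rw [h v1 (Finset.mem_singleton_self _)]
    rw [Pr_and (by simpa using hv01) hdep0 hdep1]
    have ea := Pr_coord (V := Fin k × Fin Nb) (Ω := fun _ => Om w m) v0
      (fun a => (a.2 : ℕ) < κ)
    have eb := Pr_coord (V := Fin k × Fin Nb) (Ω := fun _ => Om w m) v1
      (fun a => W (σ + β * w + w) a.1)
    have ha : Pr E1a ≤ (κ : ℝ) / m := by
      rw [show Pr E1a = _ from ea]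
      have e2 : (Finset.univ.filter fun a : Om w m => (a.2 : ℕ) < κ)
          = (Finset.univ : Finset (Fin w)) ×ˢ
            (Finset.univ.filter fun a : Fin m => (a : ℕ) < κ) := by
        ext a
        simp
      rw [e2, Finset.card_product, Fintype.card_prod, Fintype.card_fin, Fintype.card_fin,
        Finset.card_univ, Fintype.card_fin]
      have e3 : (Finset.univ.filter fun a : Fin m => (a : ℕ) < κ).card ≤ κ := by
        rw [← Finset.card_image_of_injective _ Fin.val_injective]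
        calc _ ≤ (Finset.range κ).card := by
              apply Finset.card_le_card
              intro y hy
              obtain ⟨a, ha, rfl⟩ := Finset.mem_image.mp hy
              rw [Finset.mem_filter] at ha
              rw [Finset.mem_range]
              exact ha.2
          _ = _ := Finset.card_range _
      push_cast
      rw [mul_div_mul_left _ _ hwr.ne']
      apply div_le_div_of_nonneg_right _ hmr.le
      exact_mod_cast e3
    have hb : Pr E1b ≤ (∑ r ∈ Finset.range w',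
        if σ + β * w + w ≤ t + r ∧ t + r < σ + β * w + w + w then (1 : ℝ) else 0) / w := by
      rw [show Pr E1b = _ from eb]
      have e2 : (Finset.univ.filter fun a : Om w m => W (σ + β * w + w) a.1)
          = (Finset.univ.filter fun a : Fin w => W (σ + β * w + w) a) ×ˢ
            (Finset.univ : Finset (Fin m)) := by
        ext a
        simp
      rw [e2, Finset.card_product, Fintype.card_prod, Fintype.card_fin, Fintype.card_fin,
        Finset.card_univ, Fintype.card_fin]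
      push_cast
      rw [mul_div_mul_right _ _ hmr.ne']
      apply div_le_div_of_nonneg_right _ hwr.le
      exact card_window w w' (σ + β * w + w) t
    have hsn : 0 ≤ (∑ r ∈ Finset.range w',
        if σ + β * w + w ≤ t + r ∧ t + r < σ + β * w + w + w then (1 : ℝ) else 0) :=
      Finset.sum_nonneg fun r _ => by split_ifs <;> norm_num
    calc Pr E1a * Pr E1b ≤ (κ : ℝ) / m * ((∑ r ∈ Finset.range w',
        if σ + β * w + w ≤ t + r ∧ t + r < σ + β * w + w + w then (1 : ℝ) else 0) / w) := by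
          apply mul_le_mul ha hb (Pr_nonneg _) (by positivity)
      _ = _ := by
          rw [div_mul_div_comm]
          ring
  have hP2 : Pr E2 ≤ 1 / m := by
    have e := Pr_coord (V := Fin k × Fin Nb) (Ω := fun _ => Om w m) v0
      (fun a => (a.2 : ℕ) = κ)
    rw [show Pr E2 = _ from e]
    have e2 : (Finset.univ.filter fun a : Om w m => (a.2 : ℕ) = κ)
        = (Finset.univ : Finset (Fin w)) ×ˢ
          (Finset.univ.filter fun a : Fin m => (a : ℕ) = κ) := by
      ext a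
      simp
    rw [e2, Finset.card_product, Fintype.card_prod, Fintype.card_fin, Fintype.card_fin,
      Finset.card_univ, Fintype.card_fin]
    have e3 : (Finset.univ.filter fun a : Fin m => (a : ℕ) = κ).card ≤ 1 := by
      rw [Finset.card_le_one]
      intro a ha b hb
      rw [Finset.mem_filter] at ha hb
      exact Fin.ext (ha.2.trans hb.2.symm)
    push_cast
    rw [mul_div_mul_left _ _ hwr.ne']
    apply div_le_div_of_nonneg_right _ hmr.le
    exact_mod_cast e3
  refine le_trans (Pr_mono hcover) (le_trans (Pr_or_le _ _) ?_)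
  have h2 := Pr_or_le (V := Fin k × Fin Nb) (Ω := fun _ => Om w m) E0 (fun ω => E1a ω ∧ E1b ω)
  have hfin : (∑ r ∈ Finset.range w',
        if σ + β * w ≤ t + r ∧ t + r < σ + β * w + w then (1 : ℝ) else 0) *
          ((m - 1 - κ : ℕ) : ℝ) / (m * w) + (∑ r ∈ Finset.range w',
        if σ + β * w + w ≤ t + r ∧ t + r < σ + β * w + w + w then (1 : ℝ) else 0) *
          ((κ : ℕ) : ℝ) / (m * w)
      = (∑ r ∈ Finset.range w',
        ((if σ + β * w ≤ t + r ∧ t + r < σ + β * w + w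
          then ((m - 1 - κ : ℕ) : ℝ) else 0) +
        (if σ + β * w + w ≤ t + r ∧ t + r < σ + β * w + 2 * w
          then ((κ : ℕ) : ℝ) else 0))) / (m * w) := by
    rw [← add_div, Finset.sum_add_distrib, Finset.sum_mul, Finset.sum_mul]
    congr 2
    · apply Finset.sum_congr rfl
      intro r _
      split_ifs <;> simp
    · apply Finset.sum_congr rfl
      intro r _
      have : σ + β * w + w + w = σ + β * w + 2 * w := by ring
      rw [this]
      split_ifs <;> simp
  rw [← hfin]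
  linarith

end prob

end Pool.Agent.H94
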