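import Pool.Agent.H94.Refine

/-!
One refinement step for nominal schedules: the existence proof by the local lemma.
-/

set_option autoImplicit false

namespace Pool.Agent.H94

open Finset Pool.Agent.LLL94

namespace PD

variable {k : ℕ} {G : PD k}

theorem refine_step {T : Fin k → ℕ → ℝ} {Λ : ℕ} {g : ℝ} (hT : G.Nom T Λ g) {w w' : ℕ}
    (hw : 0 < w) (hw' : 0 < w') (hww : w' ≤ w) {M M' η : ℝ}
    (hg : g ≤ ((w ^ 4 : ℕ) : ℝ))
    (hload : G.Load (fun i x => ⌊T i x⌋₊) w M) (hMw : M ≤ w) (hM' : 0 < M')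
    (hη0 : 0 ≤ η) (hη1 : η ≤ 1)
    (hμ : (w' : ℝ) / w * M + 3 / w ≤ (1 - 2 * η) * M')
    (hL : 4 * ((36 * w ^ 6 : ℕ) : ℝ) * Real.exp (-(η ^ 2 * M')) ≤ 1) :
    ∃ T' : Fin k → ℕ → ℝ, G.Nom T' (Λ + (Λ / w ^ 4 + 2) * w) (g * (1 + 2 / w)) ∧
      G.Load (fun i x => ⌊T' i x⌋₊) w' M' := by
  classical
  have hwr : (0 : ℝ) < w := by exact_mod_cast hw
  set m := w ^ 2 with hmd
  have hm : 0 < m := by positivity
  have hB : m * m = w ^ 4 := by rw [hmd]; ring
  have hBpos : 0 < m * m := Nat.mul_pos hm hm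
  have hM0 : 0 ≤ M := le_trans (by positivity) (hload (0, 0) 0)
  have : NeZero w := ⟨hw.ne'⟩
  have : NeZero m := ⟨hm.ne'⟩
  set Nb := Λ / (m * m) + 2 with hNb
  have : NeZero Nb := ⟨Nat.succ_ne_zero _⟩
  set σ : Fin k × ℕ → ℕ := fun q => ⌊T q.1 q.2⌋₊ with hσ
  set β : Fin k × ℕ → ℕ := fun q => σ q / (m * m) with hβ
  have hβN : ∀ q ∈ G.Inc, β q + 1 < Nb := by
    intro q hq
    rw [mem_Inc] at hq
    have h1 : σ q < Λ := hT.floor_lt q.1 hq
    have h2 : β q ≤ Λ / (m * m) := Nat.div_le_div_right h1.le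
    omega
  let Poss : (ℕ × ℕ) × ℕ → Finset (Fin k × ℕ) := fun f =>
    G.Inc.filter fun q => G.ed q = f.1 ∧ σ q + β q * w < f.2 + w' ∧ f.2 < σ q + (β q + 2) * w
  have hPoss : ∀ f q, q ∈ Poss f ↔ q ∈ G.Inc ∧ G.ed q = f.1 ∧ σ q + β q * w < f.2 + w' ∧
      f.2 < σ q + (β q + 2) * w := by
    intro f q
    simp only [Poss, Finset.mem_filter]
  have hPossCard : ∀ f, ((Poss f).card : ℝ) ≤ 3 * M := by
    intro f
    rcases (Poss f).eq_empty_or_nonempty with he | hne
    · rw [he]; simp only [Finset.card_empty, Nat.cast_zero]; positivity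
    obtain ⟨a, ha, hmin⟩ := Finset.exists_min_image (Poss f) σ hne
    rw [hPoss] at ha
    have hsub : Poss f ⊆ (G.Win (fun i x => ⌊T i x⌋₊) f.1 (σ a) w ∪
        G.Win (fun i x => ⌊T i x⌋₊) f.1 (σ a + w) w) ∪
        G.Win (fun i x => ⌊T i x⌋₊) f.1 (σ a + w + w) w := by
      intro q hq
      have h1 := hmin q hq
      rw [hPoss] at hq
      have h2 : β a ≤ β q := Nat.div_le_div_right h1
      have h3 : β a * w ≤ β q * w := Nat.mul_le_mul_right _ h2
      have h4 : (β a + 2) * w = β a * w + w + w := by ring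
      have h5 : σ q < σ a + w + w + w := by omega
      have h6 : σ q = ⌊T q.1 q.2⌋₊ := rfl
      simp only [Win, Finset.mem_union, Finset.mem_filter]
      rw [← h6]
      by_cases c1 : σ q < σ a + w
      · left; left; exact ⟨hq.1, hq.2.1, h1, c1⟩
      · by_cases c2 : σ q < σ a + w + w
        · left; right; exact ⟨hq.1, hq.2.1, by omega, c2⟩
        · right; exact ⟨hq.1, hq.2.1, by omega, h5⟩
    have h1 := Finset.card_le_card hsub
    have h2 := Finset.card_union_le (G.Win (fun i x => ⌊T i x⌋₊) f.1 (σ a) w ∪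
        G.Win (fun i x => ⌊T i x⌋₊) f.1 (σ a + w) w) (G.Win (fun i x => ⌊T i x⌋₊) f.1 (σ a + w + w) w)
    have h3 := Finset.card_union_le (G.Win (fun i x => ⌊T i x⌋₊) f.1 (σ a) w)
        (G.Win (fun i x => ⌊T i x⌋₊) f.1 (σ a + w) w)
    have l1 := hload f.1 (σ a)
    have l2 := hload f.1 (σ a + w)
    have l3 := hload f.1 (σ a + w + w)
    have h4 : (((Poss f).card : ℕ) : ℝ) ≤
        ((G.Win (fun i x => ⌊T i x⌋₊) f.1 (σ a) w).card : ℝ) +
        ((G.Win (fun i x => ⌊T i x⌋₊) f.1 (σ a + w) w).card : ℝ) +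
        ((G.Win (fun i x => ⌊T i x⌋₊) f.1 (σ a + w + w) w).card : ℝ) := by
      exact_mod_cast (h1.trans (h2.trans (Nat.add_le_add_right h3 _)))
    linarith
  have hPossCardN : ∀ f, (Poss f).card ≤ 3 * w := by
    intro f
    have h1 := hPossCard f
    have h2 : ((Poss f).card : ℝ) ≤ ((3 * w : ℕ) : ℝ) := by push_cast; linarith
    exact_mod_cast h2
  -- events
  let Bad : ((ℕ × ℕ) × ℕ) → (Fin k × ℕ) → (Fin k × Fin Nb → Om w m) → Prop := fun f q ω =>
    f.2 ≤ ⌊newT Nb m T ω q.1 q.2⌋₊ ∧ ⌊newT Nb m T ω q.1 q.2⌋₊ < f.2 + w'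
  let U : Fin k × ℕ → Finset (Fin k × Fin Nb) := fun q =>
    {(q.1, Fin.ofNat Nb (β q)), (q.1, Fin.ofNat Nb (β q + 1))}
  let Ev : ((ℕ × ℕ) × ℕ) → (Fin k × Fin Nb → Om w m) → Prop := fun f ω =>
    M' < (((Poss f).filter fun q => Bad f q ω).card : ℝ)
  let vbl : ((ℕ × ℕ) × ℕ) → Finset (Fin k × Fin Nb) := fun f => (Poss f).biUnion U
  let Λ' := Λ + (Λ / w ^ 4 + 2) * w
  let F : Finset ((ℕ × ℕ) × ℕ) := (G.Inc.image G.ed) ×ˢ Finset.range (Λ' + 1)
  have hdepBad : ∀ f q, Dep (Ω := fun _ : Fin k × Fin Nb => Om w m) (U q) (Bad f q) := by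
    intro f q ω ω' h
    have e : newT Nb m T ω q.1 q.2 = newT Nb m T ω' q.1 q.2 := by
      apply newT_dep
      · exact h _ (by simp [U, β, σ])
      · exact h _ (by simp [U, β, σ])
    simp only [Bad, e]
  have hdep : ∀ f ∈ F, Dep (Ω := fun _ : Fin k × Fin Nb => Om w m) (vbl f) (Ev f) := by
    intro f _ ω ω' h
    have : (Poss f).filter (fun q => Bad f q ω) = (Poss f).filter (fun q => Bad f q ω') := by
      apply Finset.filter_congr
      intro q hq
      rw [hdepBad f q ω ω' fun v hv => h v (Finset.mem_biUnion.mpr ⟨q, hq, hv⟩)]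
    simp only [Ev, this]
  -- degree
  have hdeg : ∀ e ∈ F, ∀ S ⊆ F, (∀ f ∈ S, ¬ Disjoint (vbl e) (vbl f)) → S.card ≤ 36 * w ^ 6 := by
    intro e _ S hSF hS
    let Xs : Fin k × Fin Nb → Finset ℕ := fun v =>
      (Finset.range (G.m v.1)).filter fun x => β (v.1, x) = (v.2 : ℕ) ∨ β (v.1, x) + 1 = (v.2 : ℕ)
    let Ts : Fin k × ℕ → Finset ℕ := fun q =>
      Finset.Ico (σ q + β q * w + 1 - w') (σ q + (β q + 2) * w)
    let Gv : Fin k × Fin Nb → Finset ((ℕ × ℕ) × ℕ) := fun v =>
      (Xs v).biUnion fun x => (Ts (v.1, x)).image fun t => (G.ed (v.1, x), t)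
    have hXs : ∀ v, (Xs v).card ≤ 2 * (m * m) := by
      intro v
      have hinj : Set.InjOn (fun x => σ (v.1, x)) (Xs v : Set ℕ) := by
        intro x hx y hy hxy
        have hx' := (Finset.mem_filter.mp hx).1
        have hy' := (Finset.mem_filter.mp hy).1
        rw [Finset.mem_range] at hx' hy'
        exact hT.floor_inj v.1 hx' hy' hxy
      have h1 : (Xs v).card ≤ (Finset.Ico (((v.2 : ℕ) - 1) * (m * m)) (((v.2 : ℕ) + 1) * (m * m))).card := by
        apply Finset.card_le_card_of_injOn (fun x => σ (v.1, x)) _ hinj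
        intro x hx
        have hx' := (Finset.mem_filter.mp hx).2
        have h2 : σ (v.1, x) / (m * m) = β (v.1, x) := rfl
        have h3 := Nat.div_mul_le_self (σ (v.1, x)) (m * m)
        have h4 := Nat.lt_div_mul_add (a := σ (v.1, x)) hBpos
        rw [h2] at h3 h4
        simp only [Finset.coe_Ico, Set.mem_Ico]
        rcases hx' with h | h
        · rw [h] at h3 h4
          constructor
          · exact le_trans (Nat.mul_le_mul_right _ (Nat.sub_le _ _)) h3
          · calc σ (v.1, x) < (v.2 : ℕ) * (m * m) + m * m := h4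
              _ = _ := by ring
        · have h5 : β (v.1, x) = (v.2 : ℕ) - 1 := by omega
          rw [h5] at h3 h4
          constructor
          · exact h3
          · calc σ (v.1, x) < ((v.2 : ℕ) - 1) * (m * m) + m * m := h4
              _ = ((v.2 : ℕ) - 1 + 1) * (m * m) := by ring
              _ ≤ _ := Nat.mul_le_mul_right _ (by omega)
      refine h1.trans ?_
      rw [Nat.card_Ico]
      have h6 : ((v.2 : ℕ) + 1) * (m * m) ≤ ((v.2 : ℕ) - 1) * (m * m) + 2 * (m * m) := by
        calc ((v.2 : ℕ) + 1) * (m * m) ≤ (((v.2 : ℕ) - 1) + 2) * (m * m) :=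
              Nat.mul_le_mul_right _ (by omega)
          _ = _ := by ring
      omega
    have hTs : ∀ q, (Ts q).card ≤ 3 * w := by
      intro q
      simp only [Ts, Nat.card_Ico]
      have : (β q + 2) * w = β q * w + 2 * w := by ring
      omega
    have hGv : ∀ v, (Gv v).card ≤ 2 * (m * m) * (3 * w) := by
      intro v
      refine (Finset.card_biUnion_le_card_mul _ _ (3 * w) ?_).trans
        (Nat.mul_le_mul_right _ (hXs v))
      intro x _
      exact Finset.card_image_le.trans (hTs _)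
    have hsub : S ⊆ (vbl e).biUnion Gv := by
      intro f hf
      have h1 := hS f hf
      rw [Finset.not_disjoint_iff] at h1
      obtain ⟨v, hv1, hv2⟩ := h1
      obtain ⟨q, hq, hqv⟩ := Finset.mem_biUnion.mp hv2
      rw [hPoss] at hq
      obtain ⟨hq1, hq2, hq3, hq4⟩ := hq
      have hN := hβN q hq1
      rw [Finset.mem_biUnion]
      refine ⟨v, hv1, ?_⟩
      have hvq : v.1 = q.1 ∧ (β q = (v.2 : ℕ) ∨ β q + 1 = (v.2 : ℕ)) := by
        simp only [U, Finset.mem_insert, Finset.mem_singleton] at hqv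
        rcases hqv with h | h
        · rw [h]
          refine ⟨rfl, Or.inl ?_⟩
          simp only [Fin.ofNat]
          rw [Nat.mod_eq_of_lt (by omega)]
        · rw [h]
          refine ⟨rfl, Or.inr ?_⟩
          simp only [Fin.ofNat]
          rw [Nat.mod_eq_of_lt (by omega)]
      have hqe : (v.1, q.2) = q := by rw [hvq.1]
      simp only [Gv, Finset.mem_biUnion, Finset.mem_image]
      refine ⟨q.2, ?_, f.2, ?_, ?_⟩
      · simp only [Xs, Finset.mem_filter, Finset.mem_range]
        rw [hqe]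
        refine ⟨?_, hvq.2⟩
        rw [hvq.1]
        exact mem_Inc.mp hq1
      · rw [hqe]
        simp only [Ts, Finset.mem_Ico]
        omega
      · rw [hqe, hq2]
    have hvblc : (vbl e).card ≤ 3 * w * 2 := by
      refine (Finset.card_biUnion_le_card_mul _ _ 2 ?_).trans
        (Nat.mul_le_mul_right _ (hPossCardN e))
      intro q _
      exact Finset.card_le_two
    calc S.card ≤ ((vbl e).biUnion Gv).card := Finset.card_le_card hsub
      _ ≤ (vbl e).card * (2 * (m * m) * (3 * w)) :=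
          Finset.card_biUnion_le_card_mul _ _ _ fun v _ => hGv v
      _ ≤ 3 * w * 2 * (2 * (m * m) * (3 * w)) := Nat.mul_le_mul_right _ hvblc
      _ = 36 * w ^ 6 := by rw [hB]; ring
  -- probability
  have hpr : ∀ f ∈ F, 4 * ((36 * w ^ 6 : ℕ) : ℝ) * Pr (Ev f) ≤ 1 := by
    intro f _
    let p : Fin k × ℕ → ℝ := fun q => (∑ r ∈ Finset.range w',
        ((if σ q + σ q / (m * m) * w ≤ f.2 + r ∧
            f.2 + r < σ q + σ q / (m * m) * w + w
          then ((m - 1 - σ q % (m * m) / m : ℕ) : ℝ) else 0) +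
        (if σ q + σ q / (m * m) * w + w ≤ f.2 + r ∧
            f.2 + r < σ q + σ q / (m * m) * w + 2 * w
          then ((σ q % (m * m) / m : ℕ) : ℝ) else 0))) / (m * w) + 1 / m
    have hp : ∀ q ∈ Poss f, Pr (Bad f q) ≤ p q := by
      intro q hq
      rw [hPoss] at hq
      exact pr_bad hm hT.nonneg (hβN q hq.1) f.2 w'
    have hmr : (0 : ℝ) < m := by exact_mod_cast hm
    have hsum : ∑ q ∈ Poss f, p q ≤ (1 - 2 * η) * M' := by
      refine le_trans ?_ hμ
      simp only [p]
      rw [Finset.sum_add_distrib, ← Finset.sum_div, Finset.sum_comm]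
      have h1 : ∀ r ∈ Finset.range w', ∑ q ∈ Poss f,
          ((if σ q + σ q / (m * m) * w ≤ f.2 + r ∧
            f.2 + r < σ q + σ q / (m * m) * w + w
          then ((m - 1 - σ q % (m * m) / m : ℕ) : ℝ) else 0) +
        (if σ q + σ q / (m * m) * w + w ≤ f.2 + r ∧
            f.2 + r < σ q + σ q / (m * m) * w + 2 * w
          then ((σ q % (m * m) / m : ℕ) : ℝ) else 0)) ≤ m * M := by
        intro r _
        apply main_sum (Poss f) σ hm
        intro t
        refine le_trans ?_ (hload f.1 t)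
        have : (Poss f).filter (fun q => t ≤ σ q ∧ σ q < t + w) ⊆
            G.Win (fun i x => ⌊T i x⌋₊) f.1 t w := by
          intro q hq
          rw [Finset.mem_filter, hPoss] at hq
          rw [Win, Finset.mem_filter]
          exact ⟨hq.1.1, hq.1.2.1, hq.2⟩
        exact_mod_cast Finset.card_le_card this
      have h2 := Finset.sum_le_sum h1
      rw [Finset.sum_const, Finset.card_range, nsmul_eq_mul] at h2
      have h3 : ∑ q ∈ Poss f, (1 : ℝ) / m ≤ 3 / w := by
        rw [Finset.sum_const, nsmul_eq_mul]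
        calc ((Poss f).card : ℝ) * (1 / m) ≤ (3 * w) * (1 / m) := by
              gcongr
              exact (hPossCard f).trans (by linarith)
          _ = 3 / w := by
              rw [hmd]
              push_cast
              field_simp
      calc _ ≤ (w' : ℝ) * (m * M) / (m * w) + 3 / w := by
            apply add_le_add _ h3
            apply div_le_div_of_nonneg_right h2 (by positivity)
        _ = (w' : ℝ) / w * M + 3 / w := by
            congr 1
            field_simp
    have hch := chernoff (V := Fin k × Fin Nb) (Ω := fun _ => Om w m) (Poss f) U ?_ (Bad f)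
      (fun q _ => hdepBad f q) p hp hη0 hη1 hM'.le hsum (Ev f) ?_
    · calc 4 * ((36 * w ^ 6 : ℕ) : ℝ) * Pr (Ev f)
          ≤ 4 * ((36 * w ^ 6 : ℕ) : ℝ) * Real.exp (-(η ^ 2 * M')) := by gcongr
        _ ≤ 1 := hL
    · intro q hq q' hq' hne
      rw [hPoss] at hq hq'
      have h1 : q.1 ≠ q'.1 := fun h =>
        hne (eq_of_ed h hq.1 hq'.1 (hq.2.1.trans hq'.2.1.symm))
      rw [Finset.disjoint_left]
      intro v hv hv'
      simp only [U, Finset.mem_insert, Finset.mem_singleton] at hv hv'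
      apply h1
      rcases hv with h | h <;> rcases hv' with h' | h' <;>
      · have := h.symm.trans h'
        exact (Prod.mk.inj this).1
    · intro ω hω
      exact ⟨(Poss f).filter fun q => Bad f q ω, Finset.filter_subset _ _,
        fun q hq => (Finset.mem_filter.mp hq).2, hω⟩
  obtain ⟨ω, hω⟩ := lll (V := Fin k × Fin Nb) (Ω := fun _ => Om w m) F Ev vbl hdep
    (36 * w ^ 6) (by
      have : 0 < 36 * w ^ 6 := by positivity
      exact this) hdeg hpr
  have hX : ∀ i b, Xf Nb ω i b < w := fun i b => Fin.is_lt _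
  have hθ : ∀ i b, Tf Nb ω i b < m := fun i b => Fin.is_lt _
  refine ⟨newT Nb m T ω, ⟨?_, ?_, ?_, ?_⟩, ?_⟩
  · intro i x
    have h1 := hT.nonneg i x
    have h2 := (disp_bounds (w := w) (m := m) (Z := m) (θ := Tf Nb ω i) (hX i) (s := T i x)).1
    have h3 : (0 : ℝ) ≤ ((⌊T i x⌋₊ / (m * m) * w : ℕ) : ℝ) := by positivity
    unfold newT
    linarith
  · intro i x hx
    have h1 := hT.lt i x hx
    have h2 := (disp_bounds (w := w) (m := m) (Z := m) (θ := Tf Nb ω i) (hX i) (s := T i x)).2
    have h3 := hβN (i, x) (mem_Inc.mpr hx)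
    have h4 : (⌊T i x⌋₊ / (m * m) + 1) * w + w ≤ (Λ / w ^ 4 + 2) * w := by
      have : ⌊T i x⌋₊ / (m * m) + 1 < Nb := h3
      rw [← hB]
      calc (⌊T i x⌋₊ / (m * m) + 1) * w + w = (⌊T i x⌋₊ / (m * m) + 2) * w := by ring
        _ ≤ (Λ / (m * m) + 2) * w := Nat.mul_le_mul_right _ (by omega)
    have h5 : (((⌊T i x⌋₊ / (m * m) + 1) * w : ℕ) : ℝ) + w ≤ (((Λ / w ^ 4 + 2) * w : ℕ) : ℝ) := by
      exact_mod_cast h4
    unfold newT
    push_cast at h2 h5 ⊢
    linarith
  · intro i x hx
    have h1 := hT.gap1 i x hx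
    have h2 := hT.gapg i x hx
    have h3 := (disp_step (w := w) (m := m) (Z := m) (hX i) (hθ i) hm (hT.nonneg i x)
      (s' := T i (x + 1)) (by linarith) (by rw [hB]; linarith)).1
    unfold newT
    linarith
  · intro i x hx
    have h1 := hT.gap1 i x hx
    have h2 := hT.gapg i x hx
    have h3 := (disp_step (w := w) (m := m) (Z := m) (hX i) (hθ i) hm (hT.nonneg i x)
      (s' := T i (x + 1)) (by linarith) (by rw [hB]; linarith)).2
    have h4 : 2 * (w : ℝ) / (m : ℝ) = 2 / w := by
      rw [hmd]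
      push_cast
      field_simp
    rw [h4] at h3
    unfold newT
    have h5 : (2 : ℝ) / w * (T i (x + 1) - T i x) ≤ 2 / w * g := by
      gcongr
      linarith
    nlinarith
  · intro e t
    by_cases hf : (e, t) ∈ F
    · have h1 := hω (e, t) hf
      simp only [Ev, not_lt] at h1
      refine le_trans ?_ h1
      have hsub : G.Win (fun i x => ⌊newT Nb m T ω i x⌋₊) e t w' ⊆
          (Poss (e, t)).filter fun q => Bad (e, t) q ω := by
        intro q hq
        rw [Win, Finset.mem_filter] at hq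
        obtain ⟨hq1, hq2, hq3, hq4⟩ := hq
        rw [Finset.mem_filter, hPoss]
        refine ⟨⟨hq1, hq2, ?_, ?_⟩, hq3, hq4⟩
        · refine lt_of_le_of_lt ?_ hq4
          have h2 := (disp_bounds (w := w) (m := m) (Z := m) (θ := Tf Nb ω q.1) (hX q.1)
            (s := T q.1 q.2)).1
          have h3 := Nat.floor_le (hT.nonneg q.1 q.2)
          apply Nat.le_floor
          unfold newT
          have h4 : ((σ q + β q * w : ℕ) : ℝ) = (⌊T q.1 q.2⌋₊ : ℝ) +
              ((⌊T q.1 q.2⌋₊ / (m * m) * w : ℕ) : ℝ) := by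
            simp only [β, σ]
            push_cast
            rfl
          rw [h4]
          linarith
        · refine lt_of_le_of_lt hq3 ?_
          have h2 := (disp_bounds (w := w) (m := m) (Z := m) (θ := Tf Nb ω q.1) (hX q.1)
            (s := T q.1 q.2)).2
          have h3 := Nat.lt_floor_add_one (T q.1 q.2)
          have hpos : 0 < σ q + (β q + 2) * w := by positivity
          rw [Nat.floor_lt' hpos.ne']
          unfold newT
          have h4 : ((σ q + (β q + 2) * w : ℕ) : ℝ) = (⌊T q.1 q.2⌋₊ : ℝ) +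
              (((⌊T q.1 q.2⌋₊ / (m * m) + 1) * w : ℕ) : ℝ) + w := by
            simp only [β, σ]
            push_cast
            ring
          rw [h4]
          linarith
      exact_mod_cast Finset.card_le_card hsub
    · have hempty : G.Win (fun i x => ⌊newT Nb m T ω i x⌋₊) e t w' = ∅ := by
        rw [Finset.eq_empty_iff_forall_notMem]
        intro q hq
        rw [Win, Finset.mem_filter] at hq
        obtain ⟨hq1, hq2, hq3, hq4⟩ := hq
        apply hf
        simp only [F, Finset.mem_product, Finset.mem_image, Finset.mem_range]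
        refine ⟨⟨q, hq1, hq2⟩, ?_⟩
        have hx := mem_Inc.mp hq1
        have h1 := hT.lt q.1 q.2 hx
        have h2 := (disp_bounds (w := w) (m := m) (Z := m) (θ := Tf Nb ω q.1) (hX q.1)
          (s := T q.1 q.2)).2
        have h3 := hβN q hq1
        have h4 : (⌊T q.1 q.2⌋₊ / (m * m) + 1) * w + w ≤ (Λ / w ^ 4 + 2) * w := by
          have : ⌊T q.1 q.2⌋₊ / (m * m) + 1 < Nb := h3
          rw [← hB]
          calc (⌊T q.1 q.2⌋₊ / (m * m) + 1) * w + w = (⌊T q.1 q.2⌋₊ / (m * m) + 2) * w := by ring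
            _ ≤ (Λ / (m * m) + 2) * w := Nat.mul_le_mul_right _ (by omega)
        have h5 : (((⌊T q.1 q.2⌋₊ / (m * m) + 1) * w : ℕ) : ℝ) + w
            ≤ (((Λ / w ^ 4 + 2) * w : ℕ) : ℝ) := by exact_mod_cast h4
        have h6 : newT Nb m T ω q.1 q.2 < ((Λ' : ℕ) : ℝ) := by
          unfold newT
          simp only [Λ']
          push_cast at h2 h5 ⊢
          linarith
        have h7 : ⌊newT Nb m T ω q.1 q.2⌋₊ ≤ Λ' := by
          apply Nat.floor_le_of_le h6.le
        omega
      rw [hempty]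
      simpa using hM'.le

end PD

end Pool.Agent.H94
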