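import Pool.Agent.H94.Parking

/-!
The final schedule with buffers of size two.
-/

set_option autoImplicit false

namespace Pool.Agent.H94

open Finset Pool.Agent.LLL94

namespace PD

variable {k : ℕ} {G : PD k} {S : Fin k → ℕ → ℕ} {Λ U : ℕ}

/-- number of edges crossed before the nominal time `s` -/
def cnt (G : PD k) (S : Fin k → ℕ → ℕ) (i : Fin k) (s : ℕ) : ℕ :=
  ((Finset.range (G.m i)).filter fun x => S i x < s).card

lemma lt_cnt (hS : G.NomI S Λ U) {i : Fin k} {x s : ℕ} (hx : x < G.m i) :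
    x < G.cnt S i s ↔ S i x < s := by
  constructor
  · intro h
    by_contra hcon
    push Not at hcon
    have : (Finset.range (G.m i)).filter (fun x => S i x < s) ⊆ Finset.range x := by
      intro y hy
      rw [Finset.mem_filter, Finset.mem_range] at hy
      rw [Finset.mem_range]
      by_contra h2
      push Not at h2
      have := hS.add_le i h2 hy.1
      omega
    have h3 := Finset.card_le_card this
    rw [Finset.card_range] at h3
    unfold cnt at h
    omega
  · intro h
    have : Finset.range (x + 1) ⊆ (Finset.range (G.m i)).filter (fun x => S i x < s) := by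
      intro y hy
      rw [Finset.mem_range] at hy
      rw [Finset.mem_filter, Finset.mem_range]
      have := hS.add_le i (show y ≤ x by omega) hx
      exact ⟨by omega, by omega⟩
    have h3 := Finset.card_le_card this
    rw [Finset.card_range] at h3
    unfold cnt
    omega

lemma cnt_le {i : Fin k} {s : ℕ} : G.cnt S i s ≤ G.m i := by
  unfold cnt
  exact (Finset.card_filter_le _ _).trans (Finset.card_range _).le

/-- The position of the packet at the end of the macro frame `κ`. -/
def pos (G : PD k) (S : Fin k → ℕ → ℕ) (U : ℕ) (om : Fin k → ℕ → ℕ) (i : Fin k) (κ : ℕ) : ℕ :=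
  if κ * (2 * U) < S i 0 then 0
  else if S i (G.m i - 1) < (κ + 1) * (2 * U) then G.m i
  else G.cnt S i (κ * (2 * U) + 2 * om i κ) + 1

variable {om : Fin k → ℕ → ℕ}

/-- In a full frame the parking edge has the chosen nominal time. -/
lemma cnt_spec (hS : G.NomI S Λ U) (hom : ∀ i κ, om i κ < U) {i : Fin k} {κ : ℕ}
    (hi : 0 < G.m i)
    (h1 : ¬ κ * (2 * U) < S i 0) (h2 : ¬ S i (G.m i - 1) < (κ + 1) * (2 * U)) :
    G.cnt S i (κ * (2 * U) + 2 * om i κ) < G.m i ∧
      κ * (2 * U) + 2 * om i κ ≤ S i (G.cnt S i (κ * (2 * U) + 2 * om i κ)) ∧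
      S i (G.cnt S i (κ * (2 * U) + 2 * om i κ)) ≤ κ * (2 * U) + 2 * om i κ + 1 := by
  set s := κ * (2 * U) + 2 * om i κ with hs
  have ho := hom i κ
  have e : (κ + 1) * (2 * U) = κ * (2 * U) + 2 * U := by ring
  have hlt : G.cnt S i s < G.m i := by
    by_contra hcon
    push Not at hcon
    have h3 : G.m i - 1 < G.cnt S i s := by omega
    rw [lt_cnt hS (by omega)] at h3
    omega
  refine ⟨hlt, ?_, ?_⟩
  · by_contra hcon
    push Not at hcon
    rw [← lt_cnt hS hlt] at hcon
    omega
  · rcases Nat.eq_zero_or_pos (G.cnt S i s) with h0 | h0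
    · rw [h0]; omega
    · obtain ⟨y, hy⟩ : ∃ y, G.cnt S i s = y + 1 := ⟨G.cnt S i s - 1, by omega⟩
      have h3 : y < G.cnt S i s := by omega
      rw [lt_cnt hS (by omega)] at h3
      have h4 := hS.le2 i y (by omega)
      rw [hy]
      omega

lemma pos_lt (hS : G.NomI S Λ U) (hom : ∀ i κ, om i κ < U) {i : Fin k} {x κ : ℕ}
    (hx : x < G.m i) (h : x < G.pos S U om i κ) : S i x < (κ + 1) * (2 * U) := by
  unfold pos at h
  split_ifs at h with h1 h2
  · omega
  · have := hS.add_le i (show x ≤ G.m i - 1 by omega) (by omega)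
    omega
  · obtain ⟨c1, c2, c3⟩ := cnt_spec hS hom (by omega) h1 h2
    have h3 := hS.add_le i (show x ≤ G.cnt S i (κ * (2 * U) + 2 * om i κ) by omega) c1
    have ho := hom i κ
    have e : (κ + 1) * (2 * U) = κ * (2 * U) + 2 * U := by ring
    omega

lemma le_of_pos_le (hS : G.NomI S Λ U) {i : Fin k} {x κ : ℕ}
    (hx : x < G.m i) (h : G.pos S U om i κ ≤ x) : κ * (2 * U) ≤ S i x := by
  unfold pos at h
  split_ifs at h with h1 h2
  · have := hS.add_le i (Nat.zero_le x) hx
    omega
  · omega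
  · have h3 : ¬ x < G.cnt S i (κ * (2 * U) + 2 * om i κ) := by omega
    rw [lt_cnt hS hx] at h3
    omega

lemma exists_pos (hS : G.NomI S Λ U) (hU : 0 < U) {i : Fin k} {x : ℕ} (hx : x < G.m i) :
    ∃ κ, x < G.pos S U om i κ := by
  refine ⟨Λ, ?_⟩
  have h1 := hS.lt i 0 (by omega)
  have h2 := hS.lt i (G.m i - 1) (by omega)
  have h3 : Λ ≤ Λ * (2 * U) := Nat.le_mul_of_pos_right _ (by omega)
  have e : (Λ + 1) * (2 * U) = Λ * (2 * U) + 2 * U := by ring
  unfold pos
  rw [if_neg (by omega), if_pos (by omega)]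
  exact hx

/-- Boundary of a segment. -/
lemma pos_boundary (hS : G.NomI S Λ U) (hom : ∀ i κ, om i κ < U) {i : Fin k} {x κ : ℕ}
    (hx : x + 1 < G.m i) (h : G.pos S U om i κ = x + 1) :
    S i x / (2 * U) = κ ∧ S i x % (2 * U) / 2 = om i κ ∧ x + 1 < G.pos S U om i (κ + 1) := by
  have ho := hom i κ
  have hU : 0 < U := by omega
  have e : (κ + 1) * (2 * U) = κ * (2 * U) + 2 * U := by ring
  have h0 := h
  unfold pos at h
  split_ifs at h with h1 h2
  · omega
  · obtain ⟨c1, c2, c3⟩ := cnt_spec hS hom (by omega) h1 h2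
    have hxc : G.cnt S i (κ * (2 * U) + 2 * om i κ) = x := by omega
    rw [hxc] at c1 c2 c3
    have hdiv : S i x / (2 * U) = κ := by
      apply Nat.div_eq_of_lt_le
      · omega
      · omega
    have hmod : S i x % (2 * U) / 2 = om i κ := by
      have h3 := Nat.div_add_mod (S i x) (2 * U)
      rw [hdiv] at h3
      have h4 : 2 * U * κ = κ * (2 * U) := by ring
      omega
    refine ⟨hdiv, hmod, ?_⟩
    have e2 : (κ + 1 + 1) * (2 * U) = κ * (2 * U) + 2 * U + 2 * U := by ring
    unfold pos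
    rw [if_neg (by omega)]
    by_cases h5 : S i (G.m i - 1) < (κ + 1 + 1) * (2 * U)
    · rw [if_pos h5]; exact hx
    · rw [if_neg h5]
      have h6 : x < G.cnt S i ((κ + 1) * (2 * U) + 2 * om i (κ + 1)) := by
        rw [lt_cnt hS (by omega)]
        omega
      omega

/-- The macro frame in which the edge is crossed. -/
noncomputable def Kf (G : PD k) (S : Fin k → ℕ → ℕ) (U : ℕ) (om : Fin k → ℕ → ℕ) (i : Fin k)
    (x : ℕ) : ℕ :=
  sInf {κ | x < G.pos S U om i κ}

lemma Kf_spec (hS : G.NomI S Λ U) (hU : 0 < U) {i : Fin k} {x : ℕ} (hx : x < G.m i) :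
    x < G.pos S U om i (G.Kf S U om i x) :=
  Nat.sInf_mem (s := {κ | x < G.pos S U om i κ}) (exists_pos hS hU hx)

lemma Kf_le {i : Fin k} {x κ : ℕ} (h : x < G.pos S U om i κ) : G.Kf S U om i x ≤ κ :=
  Nat.sInf_le (s := {κ | x < G.pos S U om i κ}) h

lemma pos_le_of_lt_Kf {i : Fin k} {x κ : ℕ} (h : κ < G.Kf S U om i x) :
    G.pos S U om i κ ≤ x := by
  by_contra hcon
  push Not at hcon
  have := Kf_le hcon
  omega

/-- The first position of the segment. -/
noncomputable def Pf (G : PD k) (S : Fin k → ℕ → ℕ) (U : ℕ) (om : Fin k → ℕ → ℕ) (i : Fin k)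
    (κ : ℕ) : ℕ :=
  if κ = 0 then 0 else G.pos S U om i (κ - 1)

lemma Pf_le {i : Fin k} {x : ℕ} : G.Pf S U om i (G.Kf S U om i x) ≤ x := by
  unfold Pf
  split_ifs with h
  · omega
  · exact pos_le_of_lt_Kf (by omega)

lemma Kf_upper (hS : G.NomI S Λ U) (hU : 0 < U) (hom : ∀ i κ, om i κ < U) {i : Fin k} {x : ℕ}
    (hx : x < G.m i) : S i x < (G.Kf S U om i x + 1) * (2 * U) :=
  pos_lt hS hom hx (Kf_spec hS hU hx)

lemma Kf_lower (hS : G.NomI S Λ U) {i : Fin k} {x : ℕ}
    (hx : x < G.m i) : (G.Kf S U om i x - 1) * (2 * U) ≤ S i x := by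
  rcases Nat.eq_zero_or_pos (G.Kf S U om i x) with h | h
  · rw [h]; simp
  · exact le_of_pos_le (om := om) hS hx (pos_le_of_lt_Kf (by omega))

lemma off_lt (hS : G.NomI S Λ U) (hU : 0 < U) (hom : ∀ i κ, om i κ < U) {i : Fin k} {x : ℕ}
    (hx : x < G.m i) : x - G.Pf S U om i (G.Kf S U om i x) < 4 * U := by
  have h1 := Kf_upper hS hU hom hx
  have hle := Pf_le (G := G) (S := S) (U := U) (om := om) (i := i) (x := x)
  have h2 : (G.Kf S U om i x - 1) * (2 * U) ≤ S i (G.Pf S U om i (G.Kf S U om i x)) := by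
    rcases Nat.eq_zero_or_pos (G.Kf S U om i x) with h | h
    · rw [h]; simp
    · apply le_of_pos_le (om := om) hS (by omega)
      unfold Pf
      rw [if_neg (by omega)]
  have h3 := hS.add_le i hle hx
  have h4 : (G.Kf S U om i x + 1) * (2 * U) ≤ (G.Kf S U om i x - 1) * (2 * U) + 4 * U := by
    calc (G.Kf S U om i x + 1) * (2 * U) ≤ ((G.Kf S U om i x - 1) + 2) * (2 * U) :=
          Nat.mul_le_mul_right _ (by omega)
      _ = _ := by ring
  omega

/-- Conflict of segments. -/
def Conf (G : PD k) (S : Fin k → ℕ → ℕ) (U : ℕ) (om : Fin k → ℕ → ℕ) (K : ℕ) (i j : Fin k) :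
    Prop :=
  ∃ x y, G.Same i x j y ∧ G.Kf S U om i x = K ∧ G.Kf S U om j y = K

/-- the conflict degree -/
def Del (U : ℕ) : ℕ := 4 * U * (2 * (2 * U / 512))

lemma exists_col (hS : G.NomI S Λ U) (hU : 0 < U) (hom : ∀ i κ, om i κ < U) (K : ℕ) :
    ∃ c : Fin k → ℕ, (∀ i, c i ≤ Del U) ∧
      ∀ i j, i ≠ j → G.Conf S U om K i j → c i ≠ c j := by
  classical
  let nb : Fin k → Finset (Fin k) := fun i =>
    ((Finset.range (G.m i)).filter fun x => G.Kf S U om i x = K).biUnion fun x =>
      ((G.Win S (G.ed (i, x)) ((K - 1) * (2 * U)) (2 * U)) ∪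
        (G.Win S (G.ed (i, x)) (K * (2 * U)) (2 * U))).image Prod.fst
  have hnb : ∀ i j, G.Conf S U om K i j → j ∈ nb i := by
    rintro i j ⟨x, y, h1, h2, h3⟩
    simp only [nb, Finset.mem_biUnion, Finset.mem_filter, Finset.mem_range, Finset.mem_image,
      Finset.mem_union, Win]
    refine ⟨x, ⟨h1.1, h2⟩, (j, y), ?_, rfl⟩
    have hu := Kf_upper hS hU hom h1.2.1
    have hl := Kf_lower (om := om) hS h1.2.1
    rw [h3] at hu hl
    have he : G.ed (j, y) = G.ed (i, x) := Prod.ext h1.2.2.1.symm h1.2.2.2.symm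
    have hInc : (j, y) ∈ G.Inc := mem_Inc.mpr h1.2.1
    by_cases h4 : S j y < K * (2 * U)
    · left
      refine ⟨hInc, he, hl, ?_⟩
      have : K * (2 * U) ≤ (K - 1) * (2 * U) + 2 * U := by
        calc K * (2 * U) ≤ (K - 1 + 1) * (2 * U) := Nat.mul_le_mul_right _ (by omega)
          _ = _ := by ring
      simp only
      omega
    · right
      refine ⟨hInc, he, by simp only; omega, ?_⟩
      have : (K + 1) * (2 * U) = K * (2 * U) + 2 * U := by ring
      simp only
      omega
  have hcard : ∀ i, (nb i).card ≤ Del U := by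
    intro i
    have h1 : ((Finset.range (G.m i)).filter fun x => G.Kf S U om i x = K).card ≤ 4 * U := by
      have h2 : ((Finset.range (G.m i)).filter fun x => G.Kf S U om i x = K).card ≤
          (Finset.Ico ((K - 1) * (2 * U)) ((K + 1) * (2 * U))).card := by
        apply Finset.card_le_card_of_injOn (fun x => S i x)
        · intro x hx
          simp only [Finset.coe_filter, Finset.mem_range, Set.mem_ofPred_eq] at hx
          have hu := Kf_upper hS hU hom hx.1
          have hl := Kf_lower (om := om) hS hx.1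
          rw [hx.2] at hu hl
          simp only [Finset.coe_Ico, Set.mem_Ico]
          exact ⟨hl, hu⟩
        · intro x hx y hy hxy
          simp only [Finset.coe_filter, Finset.mem_range, Set.mem_ofPred_eq] at hx hy
          exact hS.inj i hx.1 hy.1 hxy
      rw [Nat.card_Ico] at h2
      have : (K + 1) * (2 * U) ≤ (K - 1) * (2 * U) + 4 * U := by
        calc (K + 1) * (2 * U) ≤ ((K - 1) + 2) * (2 * U) := Nat.mul_le_mul_right _ (by omega)
          _ = _ := by ring
      omega
    unfold Del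
    refine (Finset.card_biUnion_le_card_mul _ _ (2 * (2 * U / 512)) ?_).trans
      (Nat.mul_le_mul_right _ h1)
    intro x _
    refine Finset.card_image_le.trans ((Finset.card_union_le _ _).trans ?_)
    have h3 := hS.load' (G.ed (i, x)) ((K - 1) * (2 * U))
    have h4 := hS.load' (G.ed (i, x)) (K * (2 * U))
    omega
  obtain ⟨c, hc1, hc2⟩ := greedy (G.Conf S U om K)
    (fun i j ⟨x, y, h1, h2, h3⟩ => ⟨y, x, h1.symm, h3, h2⟩) nb hnb (Del U) hcard Finset.univ
  exact ⟨c, hc1, fun i j hij h => hc2 i (Finset.mem_univ _) j (Finset.mem_univ _) hij h⟩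

lemma rep_unique {a b c a' b' c' Q H : ℕ} (hb : b < Q) (hb' : b' < Q) (hc : c < H) (hc' : c' < H)
    (h : a * (Q * H) + b * H + c = a' * (Q * H) + b' * H + c') : a = a' ∧ b = b' := by
  have k1 : b * H + c < Q * H := by
    calc b * H + c < b * H + H := by omega
      _ = (b + 1) * H := by ring
      _ ≤ Q * H := Nat.mul_le_mul_right _ hb
  have k2 : b' * H + c' < Q * H := by
    calc b' * H + c' < b' * H + H := by omega
      _ = (b' + 1) * H := by ring
      _ ≤ Q * H := Nat.mul_le_mul_right _ hb'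
  have haa : a = a' := by
    rcases lt_trichotomy a a' with h1 | h1 | h1
    · have : a * (Q * H) + Q * H ≤ a' * (Q * H) := by
        calc a * (Q * H) + Q * H = (a + 1) * (Q * H) := by ring
          _ ≤ _ := Nat.mul_le_mul_right _ h1
      omega
    · exact h1
    · have : a' * (Q * H) + Q * H ≤ a * (Q * H) := by
        calc a' * (Q * H) + Q * H = (a' + 1) * (Q * H) := by ring
          _ ≤ _ := Nat.mul_le_mul_right _ h1
      omega
  refine ⟨haa, ?_⟩
  subst haa
  rcases lt_trichotomy b b' with h1 | h1 | h1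
  · have : b * H + H ≤ b' * H := by
      calc b * H + H = (b + 1) * H := by ring
        _ ≤ _ := Nat.mul_le_mul_right _ h1
    omega
  · exact h1
  · have : b' * H + H ≤ b * H := by
      calc b' * H + H = (b' + 1) * H := by ring
        _ ≤ _ := Nat.mul_le_mul_right _ h1
    omega

theorem schedule (hS : G.NomI S Λ U) (hU : 256 ≤ U) :
    ∃ t : Fin k → ℕ → ℕ,
      (∀ i x, x + 1 < G.m i → t i x < t i (x + 1)) ∧
      (∀ i x, x < G.m i → t i x ≤ (Λ + 2) * ((Del U + 1) * (4 * U))) ∧
      (∀ i x j y, i ≠ j → G.Same i x j y → t i x ≠ t j y) ∧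
      (∀ i x j y, i ≠ j → G.Same i x j y → x + 1 < G.m i → y + 1 < G.m j →
        t i x + 1 < t i (x + 1) → t j y + 1 < t j (y + 1) →
        t i (x + 1) < t j y ∨ t j (y + 1) < t i x) := by
  classical
  have hU0 : 0 < U := by omega
  obtain ⟨om, hom, hpark⟩ := parking hS hU
  choose col hcol1 hcol2 using fun K => exists_col (G := G) (S := S) (Λ := Λ) (om := om) hS hU0 hom K
  set Q := Del U + 1 with hQ
  set H := 4 * U with hH
  let K : Fin k → ℕ → ℕ := fun i x => G.Kf S U om i x
  let off : Fin k → ℕ → ℕ := fun i x => x - G.Pf S U om i (K i x)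
  let t : Fin k → ℕ → ℕ := fun i x => K i x * (Q * H) + col (K i x) i * H + off i x
  have hoff : ∀ i x, x < G.m i → off i x < H := fun i x hx => off_lt hS hU0 hom hx
  have hcolQ : ∀ κ i, col κ i < Q := fun κ i => Nat.lt_succ_of_le (hcol1 κ i)
  have hsmall : ∀ i x, x < G.m i → col (K i x) i * H + off i x < Q * H := by
    intro i x hx
    have h1 := hoff i x hx
    have h2 := hcolQ (K i x) i
    calc col (K i x) i * H + off i x < col (K i x) i * H + H := by omega
      _ = (col (K i x) i + 1) * H := by ring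
      _ ≤ Q * H := Nat.mul_le_mul_right _ h2
  have htlow : ∀ i x, K i x * (Q * H) ≤ t i x := by
    intro i x
    simp only [t]
    omega
  have hthigh : ∀ i x, x < G.m i → t i x < K i x * (Q * H) + Q * H := by
    intro i x hx
    have := hsmall i x hx
    simp only [t]
    omega
  -- step structure
  have hstep : ∀ i x, x + 1 < G.m i →
      (K i (x + 1) = K i x ∧ t i (x + 1) = t i x + 1) ∨
      (K i (x + 1) = K i x + 1 ∧ K i x = S i x / (2 * U) ∧
        om i (S i x / (2 * U)) = S i x % (2 * U) / 2) := by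
    intro i x hx
    have h1 : x < G.pos S U om i (K i x) := Kf_spec hS hU0 (by omega)
    have h2 : x + 1 < G.pos S U om i (K i (x + 1)) := Kf_spec hS hU0 hx
    have h3 : K i x ≤ K i (x + 1) := Kf_le (by omega)
    rcases Nat.eq_or_lt_of_le h3 with h4 | h4
    · left
      refine ⟨h4.symm, ?_⟩
      have h5 := Pf_le (G := G) (S := S) (U := U) (om := om) (i := i) (x := x)
      have h6 : G.Pf S U om i (K i x) ≤ x := h5
      simp only [t, off]
      rw [← h4]
      omega
    · right
      have h5 : G.pos S U om i (K i x) ≤ x + 1 := pos_le_of_lt_Kf h4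
      have h6 : G.pos S U om i (K i x) = x + 1 := by omega
      obtain ⟨b1, b2, b3⟩ := pos_boundary hS hom hx h6
      have h7 : K i (x + 1) ≤ K i x + 1 := Kf_le b3
      refine ⟨by omega, b1.symm, ?_⟩
      rw [b1]
      exact b2.symm
  refine ⟨t, ?_, ?_, ?_, ?_⟩
  · intro i x hx
    rcases hstep i x hx with ⟨h1, h2⟩ | ⟨h1, h2, h3⟩
    · omega
    · have h4 := hthigh i x (by omega)
      have h5 := htlow i (x + 1)
      rw [h1] at h5
      have : (K i x + 1) * (Q * H) = K i x * (Q * H) + Q * H := by ring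
      omega
  · intro i x hx
    have h1 := hthigh i x hx
    have h2 : K i x ≤ Λ + 1 := by
      have h3 := Kf_lower (om := om) hS hx
      have h4 := hS.lt i x hx
      have h5 : G.Kf S U om i x - 1 ≤ (G.Kf S U om i x - 1) * (2 * U) :=
        Nat.le_mul_of_pos_right _ (by omega)
      have h6 : K i x = G.Kf S U om i x := rfl
      omega
    calc t i x ≤ K i x * (Q * H) + Q * H := h1.le
      _ = (K i x + 1) * (Q * H) := by ring
      _ ≤ (Λ + 2) * (Q * H) := Nat.mul_le_mul_right _ (by omega)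
  · intro i x j y hij hs h
    obtain ⟨h1, h2⟩ := rep_unique (hcolQ (K i x) i) (hcolQ (K j y) j) (hoff i x hs.1)
      (hoff j y hs.2.1) h
    apply hcol2 (K i x) i j hij ⟨x, y, hs, rfl, h1.symm⟩
    rw [h2, h1]
  · intro i x j y hij hs hx hy h1 h2
    rcases hstep i x hx with ⟨_, h3⟩ | ⟨a1, a2, a3⟩
    · omega
    rcases hstep j y hy with ⟨_, h3⟩ | ⟨b1, b2, b3⟩
    · omega
    have hfar : ¬ (K i x ≤ K j y + 1 ∧ K j y ≤ K i x + 1) := by
      rintro ⟨c1, c2⟩
      rw [a2, b2] at c1 c2
      exact hpark i x j y hij hs c1 c2 a3 b3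
    have e1 : (K i x + 1) * (Q * H) + Q * H = (K i x + 2) * (Q * H) := by ring
    have e2 : (K j y + 1) * (Q * H) + Q * H = (K j y + 2) * (Q * H) := by ring
    have u1 := hthigh i (x + 1) hx
    have u2 := hthigh j (y + 1) hy
    have l1 := htlow i x
    have l2 := htlow j y
    rw [a1] at u1
    rw [b1] at u2
    rcases (by omega : K i x + 2 ≤ K j y ∨ K j y + 2 ≤ K i x) with h | h
    · left
      have := Nat.mul_le_mul_right (Q * H) h
      omega
    · right
      have := Nat.mul_le_mul_right (Q * H) h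
      omega

end PD

end Pool.Agent.H94
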